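import Pool.Agent.Q106.CogSphere

/-! The multivariate cogrowth. -/

namespace Pool.Agent.Q106.Cog

open Finset Filter Topology

open scoped ENNReal NNReal

variable {m : ℕ}

/-- the vector `℘(w)` counting the letters `a_i^{±1}` of the reduced word of `w` -/
def par (w : FreeGroup (Fin m)) : Fin m → ℝ := fun i => (w.toWord.countP fun p => p.1 = i : ℕ)

/-- the `ℓ₁` norm -/
def nrm (v : Fin m → ℝ) : ℝ := ∑ i, |v i|

/-- the counting measure `ν_H(E)` -/
noncomputable def nu (H : Subgroup (FreeGroup (Fin m))) (E : Set (Fin m → ℝ)) : ℝ≥0∞ :=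
  ((Set.encard {w : FreeGroup (Fin m) | w ∈ H ∧ par w ∈ E} : ℕ∞) : ℝ≥0∞)

/-- the growth rate `τ_{H, C}` -/
noncomputable def tau (H : Subgroup (FreeGroup (Fin m))) (C : Set (Fin m → ℝ)) : EReal :=
  limsup (fun R : ℝ => ENNReal.log (nu H ({v | R ≤ nrm v ∧ nrm v < R + 1} ∩ C)) / (R : EReal)) atTop

/-- open cones -/
def IsOpenCone (C : Set (Fin m → ℝ)) : Prop := IsOpen C ∧ ∀ t : ℝ, 0 < t → ∀ v ∈ C, t • v ∈ C

/-- the multivariate cogrowth `ψ_H(r)` -/
noncomputable def psi (H : Subgroup (FreeGroup (Fin m))) (r : Fin m → ℝ) : EReal :=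
  sInf (tau H '' {C | IsOpenCone C ∧ r ∈ C})

theorem nu_mono {H H' : Subgroup (FreeGroup (Fin m))} (h : H ≤ H') {E E' : Set (Fin m → ℝ)}
    (hE : E ⊆ E') : nu H E ≤ nu H' E' := by
  unfold nu
  have : {w : FreeGroup (Fin m) | w ∈ H ∧ par w ∈ E} ⊆ {w | w ∈ H' ∧ par w ∈ E'} :=
    fun w hw => ⟨h hw.1, hE hw.2⟩
  exact_mod_cast Set.encard_le_encard this

theorem tau_mono {H H' : Subgroup (FreeGroup (Fin m))} (h : H ≤ H') {C C' : Set (Fin m → ℝ)}
    (hC : C ⊆ C') : tau H C ≤ tau H' C' := by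
  refine limsup_le_limsup ?_
  filter_upwards [eventually_gt_atTop (0 : ℝ)] with R hR
  refine EReal.div_le_div_right_of_nonneg (by exact_mod_cast hR.le) ?_
  exact ENNReal.log_le_log (nu_mono h (Set.inter_subset_inter_right _ hC))

theorem psi_le_tau {H : Subgroup (FreeGroup (Fin m))} {r : Fin m → ℝ} {C : Set (Fin m → ℝ)}
    (hC : IsOpenCone C) (hr : r ∈ C) : psi H r ≤ tau H C :=
  sInf_le ⟨C, ⟨hC, hr⟩, rfl⟩

theorem psi_mono {H H' : Subgroup (FreeGroup (Fin m))} (h : H ≤ H') (r : Fin m → ℝ) :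
    psi H r ≤ psi H' r := by
  refine le_sInf ?_
  rintro _ ⟨C, ⟨hC, hr⟩, rfl⟩
  exact (psi_le_tau hC hr).trans (tau_mono h le_rfl)

theorem par_nonneg (w : FreeGroup (Fin m)) (i : Fin m) : 0 ≤ par w i := Nat.cast_nonneg _

theorem sum_par (w : FreeGroup (Fin m)) : ∑ i, par w i = len w := by
  have h : ∀ L : List (Let m), ∑ i, (L.countP (fun p => p.1 = i) : ℕ) = L.length := by
    intro L
    induction L with
    | nil => simp
    | cons a L ih =>
      simp only [List.countP_cons, List.length_cons, sum_add_distrib, ih]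
      simp
  unfold par len
  exact_mod_cast h w.toWord

theorem nrm_par (w : FreeGroup (Fin m)) : nrm (par w) = len w := by
  rw [nrm, ← sum_par]
  exact sum_congr rfl fun i _ => abs_of_nonneg (par_nonneg w i)

theorem wt_exp (y : Fin m → ℝ) (w : FreeGroup (Fin m)) :
    wt (fun i => Real.exp (-y i)) w = Real.exp (-∑ i, par w i * y i) := by
  have h : ∀ L : List (Let m), (L.map fun p => Real.exp (-y p.1)).prod =
      Real.exp (-∑ i, ((L.countP (fun p => p.1 = i) : ℕ) : ℝ) * y i) := by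
    intro L
    induction L with
    | nil => simp
    | cons a L ih =>
      rw [List.map_cons, List.prod_cons, ih, ← Real.exp_add]
      congr 1
      simp only [List.countP_cons, Nat.cast_add, add_mul, sum_add_distrib]
      simp
  exact h w.toWord

/-- exponential upper bounds bound `τ` -/
theorem tau_le_of_bound {H : Subgroup (FreeGroup (Fin m))} {C : Set (Fin m → ℝ)} (K b : ℝ)
    (h : ∀ᶠ R : ℝ in atTop, nu H ({v | R ≤ nrm v ∧ nrm v < R + 1} ∩ C) ≤
      ENNReal.ofReal (Real.exp (K + b * R))) : tau H C ≤ (b : EReal) := by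
  rw [← EReal.le_of_forall_lt_iff_le]
  intro z hz
  rw [EReal.coe_lt_coe_iff] at hz
  refine limsup_le_of_le (by isBoundedDefault) ?_
  have h1 : Tendsto (fun R : ℝ => K / R + b) atTop (𝓝 (0 + b)) :=
    (tendsto_const_nhds.div_atTop tendsto_id).add_const b
  rw [zero_add] at h1
  filter_upwards [h, eventually_gt_atTop (0 : ℝ), h1.eventually_lt_const hz] with R hR hR0 hR1
  rw [EReal.div_le_iff_le_mul (by exact_mod_cast hR0) (EReal.coe_ne_top R)]
  refine (ENNReal.log_le_log hR).trans ?_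
  rw [ENNReal.log_ofReal_of_pos (Real.exp_pos _), Real.log_exp]
  norm_cast
  have h2 : (K / R + b) * R ≤ z * R := by
    apply mul_le_mul_of_nonneg_right hR1.le hR0.le
  rw [add_mul, div_mul_cancel₀ _ hR0.ne'] at h2
  linarith

/-- a bound for `τ` gives exponential upper bounds -/
theorem bound_of_tau_lt {H : Subgroup (FreeGroup (Fin m))} {C : Set (Fin m → ℝ)} {a : ℝ}
    (h : tau H C < (a : EReal)) : ∀ᶠ R : ℝ in atTop,
      nu H ({v | R ≤ nrm v ∧ nrm v < R + 1} ∩ C) ≤ ENNReal.ofReal (Real.exp (a * R)) := by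
  filter_upwards [eventually_lt_of_limsup_lt h (by isBoundedDefault),
    eventually_gt_atTop (0 : ℝ)] with R hR hR0
  rw [EReal.div_lt_iff (by exact_mod_cast hR0) (EReal.coe_ne_top R)] at hR
  rw [← ENNReal.log_le_log_iff, ENNReal.log_ofReal_of_pos (Real.exp_pos _), Real.log_exp]
  push_cast
  exact hR.le

theorem nrm_simplex {r : Fin m → ℝ} (hr : r ∈ stdSimplex ℝ (Fin m)) : nrm r = 1 := by
  rw [← hr.2]
  exact sum_congr rfl fun i _ => abs_of_nonneg (hr.1 i)

theorem nrm_cont : Continuous (nrm : (Fin m → ℝ) → ℝ) := by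
  unfold nrm
  fun_prop

theorem nrm_smul {t : ℝ} (ht : 0 < t) (v : Fin m → ℝ) : nrm (t • v) = t * nrm v := by
  unfold nrm
  rw [mul_sum]
  refine sum_congr rfl fun i _ => ?_
  rw [Pi.smul_apply, smul_eq_mul, abs_mul, abs_of_pos ht]

/-- half-space type cones -/
theorem cone_lt (y : Fin m → ℝ) (p : ℝ) :
    IsOpenCone {v : Fin m → ℝ | ∑ i, v i * y i < p * nrm v} := by
  refine ⟨?_, fun t ht v hv => ?_⟩
  · have := nrm_cont (m := m)
    exact isOpen_lt (by fun_prop) (by fun_prop)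
  · simp only [Set.mem_setOf_eq] at hv ⊢
    rw [nrm_smul ht]
    have : ∑ i, (t • v) i * y i = t * ∑ i, v i * y i := by
      rw [mul_sum]
      exact sum_congr rfl fun i _ => by rw [Pi.smul_apply, smul_eq_mul]; ring
    rw [this]
    nlinarith

theorem cone_gt (y : Fin m → ℝ) (p : ℝ) :
    IsOpenCone {v : Fin m → ℝ | p * nrm v < ∑ i, v i * y i} := by
  refine ⟨?_, fun t ht v hv => ?_⟩
  · have := nrm_cont (m := m)
    exact isOpen_lt (by fun_prop) (by fun_prop)
  · simp only [Set.mem_setOf_eq] at hv ⊢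
    rw [nrm_smul ht]
    have : ∑ i, (t • v) i * y i = t * ∑ i, v i * y i := by
      rw [mul_sum]
      exact sum_congr rfl fun i _ => by rw [Pi.smul_apply, smul_eq_mul]; ring
    rw [this]
    nlinarith

theorem cone_inter {C C' : Set (Fin m → ℝ)} (h : IsOpenCone C) (h' : IsOpenCone C') :
    IsOpenCone (C ∩ C') :=
  ⟨h.1.inter h'.1, fun t ht v hv => ⟨h.2 t ht v hv.1, h'.2 t ht v hv.2⟩⟩

/-- the weighted count bound -/
theorem encard_bound {x : Fin m → ℝ} (S : Set (FreeGroup (Fin m))) (c : ℝ) (hc : 0 < c)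
    (h : ∀ w ∈ S, c ≤ wt x w) :
    ((Set.encard S : ℕ∞) : ℝ≥0∞) ≤ ENNReal.ofReal c⁻¹ * ∑' w, wE x w := by
  classical
  rw [← ENNReal.tsum_set_one, _root_.tsum_subtype _ (fun _ => (1 : ℝ≥0∞)), ← ENNReal.tsum_mul_left]
  refine ENNReal.tsum_le_tsum fun w => ?_
  by_cases hw : w ∈ S
  · rw [Set.indicator_of_mem hw, wE, ← ENNReal.ofReal_mul (inv_pos.2 hc).le, ← ENNReal.ofReal_one]
    apply ENNReal.ofReal_le_ofReal
    rw [inv_mul_eq_div, le_div_iff₀ hc, one_mul]
    exact h w hw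
  · rw [Set.indicator_of_notMem hw]
    exact zero_le

/-- Chernoff bound for the whole free group -/
theorem psi_le_aux {y : Fin m → ℝ} (hy : ∀ i, 0 < y i)
    (h : ∑ i, 2 * Real.exp (-y i) / (1 + Real.exp (-y i)) < 1) {r : Fin m → ℝ}
    (hr : r ∈ stdSimplex ℝ (Fin m)) (ε : ℝ) (hε : 0 < ε) :
    psi (⊤ : Subgroup (FreeGroup (Fin m))) r ≤ ((∑ i, r i * y i + ε : ℝ) : EReal) := by
  set p : ℝ := ∑ i, r i * y i + ε with hp
  have hp0 : 0 < p := by
    have : 0 ≤ ∑ i, r i * y i := sum_nonneg fun i _ => mul_nonneg (hr.1 i) (hy i).le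
    rw [hp]; linarith
  have hx : ∀ i, 0 < Real.exp (-y i) ∧ Real.exp (-y i) < 1 := fun i =>
    ⟨Real.exp_pos _, by rw [Real.exp_lt_one_iff]; linarith [hy i]⟩
  have hZ := tsum_lt_top hx h
  set Z := ∑' w, wE (fun i => Real.exp (-y i)) w with hZdef
  have hC := cone_lt y p
  refine (psi_le_tau hC (by
    simp only [Set.mem_setOf_eq]
    rw [nrm_simplex hr, hp]
    linarith)).trans ?_
  obtain ⟨zr, hzr0, hzr⟩ : ∃ zr : ℝ, 0 ≤ zr ∧ Z = ENNReal.ofReal zr :=
    ⟨Z.toReal, ENNReal.toReal_nonneg, (ENNReal.ofReal_toReal hZ.ne).symm⟩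
  refine tau_le_of_bound (Real.log (zr + 1) + p) p ?_
  filter_upwards [eventually_ge_atTop (0 : ℝ)] with R hR
  have h1 : nu (⊤ : Subgroup (FreeGroup (Fin m))) ({v | R ≤ nrm v ∧ nrm v < R + 1} ∩
      {v : Fin m → ℝ | ∑ i, v i * y i < p * nrm v}) ≤
      ENNReal.ofReal (Real.exp (-(p * (R + 1))))⁻¹ * Z := by
    refine encard_bound _ _ (Real.exp_pos _) ?_
    rintro w ⟨-, ⟨-, h2⟩, h3⟩
    rw [wt_exp, Real.exp_le_exp]
    simp only [Set.mem_setOf_eq] at h3
    nlinarith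
  refine h1.trans ?_
  rw [hzr, ← ENNReal.ofReal_mul (inv_pos.2 (Real.exp_pos _)).le]
  apply ENNReal.ofReal_le_ofReal
  rw [← Real.exp_neg, neg_neg, add_assoc, Real.exp_add, Real.exp_log (by positivity), mul_comm]
  have : p * (R + 1) = p + p * R := by ring
  rw [this]
  have h5 := Real.exp_pos (p + p * R)
  nlinarith

theorem sum_phi_lt (y : Fin m → ℝ) (hm : 0 < m) (ε : ℝ) (hε : 0 < ε) :
    ∑ i, 2 * Real.exp (-(y i + ε)) / (1 + Real.exp (-(y i + ε))) <
      ∑ i, 2 * Real.exp (-y i) / (1 + Real.exp (-y i)) := by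
  have hne : (univ : Finset (Fin m)).Nonempty := ⟨⟨0, hm⟩, mem_univ _⟩
  refine sum_lt_sum_of_nonempty hne fun i _ => ?_
  have h1 : Real.exp (-(y i + ε)) < Real.exp (-y i) := by rw [Real.exp_lt_exp]; linarith
  have h2 := Real.exp_pos (-(y i + ε))
  have h3 := Real.exp_pos (-y i)
  rw [div_lt_div_iff₀ (by positivity) (by positivity)]
  nlinarith

/-- Chernoff bound on the critical surface -/
theorem psi_le {y : Fin m → ℝ} (hm : 0 < m) (hy : ∀ i, 0 < y i)
    (h : ∑ i, 2 * Real.exp (-y i) / (1 + Real.exp (-y i)) ≤ 1) {r : Fin m → ℝ}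
    (hr : r ∈ stdSimplex ℝ (Fin m)) :
    psi (⊤ : Subgroup (FreeGroup (Fin m))) r ≤ ((∑ i, r i * y i : ℝ) : EReal) := by
  rw [← EReal.le_of_forall_lt_iff_le]
  intro z hz
  rw [EReal.coe_lt_coe_iff] at hz
  set ε := (z - ∑ i, r i * y i) / 2 with hε
  have hε0 : 0 < ε := by rw [hε]; linarith
  have h1 := psi_le_aux (y := fun i => y i + ε) (fun i => by linarith [hy i])
    ((sum_phi_lt y hm ε hε0).trans_le h) hr ε hε0
  have h2 : ∑ i, r i * (y i + ε) + ε = z := by
    simp only [mul_add, sum_add_distrib, ← sum_mul, hr.2]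
    rw [hε]
    ring
  rwa [h2] at h1

end Pool.Agent.Q106.Cog
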