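import Pool.Agent.Q106.CogSchur

/-! From the Schur test to a bound for the cogrowth. -/

namespace Pool.Agent.Q106.Cog

open Finset

open scoped ENNReal NNReal

variable {m : ℕ} {G : Type*} [Group G]

theorem two_mul_le_sq (p q : ℝ≥0) : 2 * ((p : ℝ≥0∞) * q) ≤ (p : ℝ≥0∞) ^ 2 + (q : ℝ≥0∞) ^ 2 := by
  have := amgm p q one_ne_zero ENNReal.one_ne_top one_ne_zero ENNReal.one_ne_top
  simpa using this

/-- uniform version of the Schur test -/
theorem schur_unif {x : Fin m → ℝ} (hx : ∀ i, 0 < x i ∧ x i < 1) (hm : 0 < m)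
    (h : 1 < ∑ i, 2 * x i / (1 + x i)) {π : F m →* G}
    (hπ : Function.Surjective π) (h1 : AA x π 1 < ⊤) :
    ∃ l : ℝ≥0, 0 < l ∧ (l : ℝ) < 2 * m ∧ ∀ φ χ : G → ℝ≥0,
      2 * ∑' g, ∑ a : Let m, ((φ g : ℝ≥0∞) * χ (π (el a) * g)) ≤
      l * (∑' g, (φ g : ℝ≥0∞) ^ 2 + ∑' g, (χ g : ℝ≥0∞) ^ 2) := by
  have hne : Nonempty (Fin m) := ⟨⟨0, hm⟩⟩
  obtain ⟨j, hj⟩ := Finite.exists_max (cc x)
  set K : ℝ := cc x j with hK
  have hK0 : 0 < K := cc_pos hx j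
  set L : ℝ := DD x + ∑ a : Let m, (K - cc x a.1) with hL
  have hL0 : 0 < L := by
    have : 0 ≤ ∑ a : Let m, (K - cc x a.1) := sum_nonneg fun a _ => sub_nonneg.2 (hj a.1)
    have := DD_pos hx
    linarith
  have hL1 : L < 2 * m * K := by
    have h2 := DD_sub hx
    have h3 : ∑ a : Let m, (K - cc x a.1) = 2 * m * K - ∑ a : Let m, cc x a.1 := by
      rw [sum_sub_distrib, sum_const, card_univ, nsmul_eq_mul, Fintype.card_prod, Fintype.card_fin,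
        Fintype.card_bool]
      push_cast
      ring
    rw [hL, h3]
    linarith
  refine ⟨Real.toNNReal (L / K), Real.toNNReal_pos.2 (div_pos hL0 hK0), ?_, fun φ χ => ?_⟩
  · rw [Real.coe_toNNReal _ (div_pos hL0 hK0).le, div_lt_iff₀ hK0]
    linarith
  have hkE : (ENNReal.ofReal K) ≠ 0 := by simp [hK0]
  have hkT : (ENNReal.ofReal K) ≠ ⊤ := ENNReal.ofReal_ne_top
  have hl : ((Real.toNNReal (L / K) : ℝ≥0) : ℝ≥0∞) = ENNReal.ofReal L / ENNReal.ofReal K := by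
    rw [← ENNReal.ofReal_div_of_pos hK0]
    rfl
  rw [hl]
  set X : ℝ≥0∞ := ∑' g, (φ g : ℝ≥0∞) ^ 2 + ∑' g, (χ g : ℝ≥0∞) ^ 2 with hX
  -- the trivial bound
  have htriv : ∀ a : Let m, 2 * ∑' g, ((φ g : ℝ≥0∞) * χ (π (el a) * g)) ≤ X := by
    intro a
    rw [hX, ← (Equiv.mulLeft (π (el a))).tsum_eq (fun g => (χ g : ℝ≥0∞) ^ 2),
      ← ENNReal.tsum_add, ← ENNReal.tsum_mul_left]
    refine ENNReal.tsum_le_tsum fun g => ?_
    exact two_mul_le_sq _ _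
  have hmain : ENNReal.ofReal K * (2 * ∑' g, ∑ a : Let m, ((φ g : ℝ≥0∞) * χ (π (el a) * g))) ≤
      ENNReal.ofReal L * X := by
    have h2 := schur hx hπ h1 φ χ
    rw [← hX] at h2
    rw [Summable.tsum_finsetSum fun _ _ => ENNReal.summable] at h2 ⊢
    have h3 : ∀ a : Let m, ∑' g, cE x a * ((φ g : ℝ≥0∞) * χ (π (el a) * g)) =
        cE x a * ∑' g, ((φ g : ℝ≥0∞) * χ (π (el a) * g)) := fun a => ENNReal.tsum_mul_left
    rw [sum_congr rfl fun a _ => h3 a] at h2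
    have h4 : ∀ a : Let m, ENNReal.ofReal K = cE x a + ENNReal.ofReal (K - cc x a.1) := by
      intro a
      rw [cE, ← ENNReal.ofReal_add (cc_pos hx _).le (sub_nonneg.2 (hj a.1))]
      congr 1
      ring
    calc ENNReal.ofReal K * (2 * ∑ a : Let m, ∑' g, ((φ g : ℝ≥0∞) * χ (π (el a) * g)))
        = 2 * (∑ a : Let m, cE x a * ∑' g, ((φ g : ℝ≥0∞) * χ (π (el a) * g))) +
          ∑ a : Let m, ENNReal.ofReal (K - cc x a.1) *
            (2 * ∑' g, ((φ g : ℝ≥0∞) * χ (π (el a) * g))) := by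
          rw [mul_sum, mul_sum, mul_sum, ← sum_add_distrib]
          refine sum_congr rfl fun a _ => ?_
          rw [h4 a]
          ring
      _ ≤ dE x * X + ∑ a : Let m, ENNReal.ofReal (K - cc x a.1) * X := by
          gcongr with a
          exact htriv a
      _ = ENNReal.ofReal L * X := by
          rw [← sum_mul, ← add_mul, dE, ← ENNReal.ofReal_sum_of_nonneg
            fun a _ => sub_nonneg.2 (hj a.1), ← ENNReal.ofReal_add (DD_pos hx).le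
            (sum_nonneg fun a _ => sub_nonneg.2 (hj a.1))]
  rw [mul_comm] at hmain
  rw [← ENNReal.mul_div_right_comm]
  exact (ENNReal.le_div_iff_mul_le (Or.inl hkE) (Or.inl hkT)).2 hmain

/-- the iterates of the uniform operator on the delta function -/
noncomputable def ee (π : F m →* G) : ℕ → G → ℝ≥0
  | 0 => open Classical in fun g => if g = 1 then 1 else 0
  | k + 1 => fun g => ∑ a : Let m, ee π k (π (el a) * g)

/-- squared norms -/
noncomputable def nn (π : F m →* G) (k : ℕ) : ℝ≥0∞ := ∑' g, (ee π k g : ℝ≥0∞) ^ 2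

theorem nn_zero (π : F m →* G) : nn π 0 = 1 := by
  classical
  rw [nn]
  have : ∀ g, ((ee π 0 g : ℝ≥0) : ℝ≥0∞) ^ 2 = if g = 1 then 1 else 0 := by
    intro g
    rw [ee]
    split_ifs with h <;> simp [h]
  simp_rw [this]
  rw [tsum_ite_eq]

theorem nn_crude (π : F m →* G) (k : ℕ) : nn π (k + 1) ≤ (2 * m) ^ 2 * nn π k := by
  have h1 : ∀ g, (ee π (k + 1) g : ℝ≥0∞) ^ 2 ≤
      (2 * m) * ∑ a : Let m, (ee π k (π (el a) * g) : ℝ≥0∞) ^ 2 := by
    intro g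
    have h2 : (ee π (k + 1) g) ^ 2 ≤ (2 * m) * ∑ a : Let m, (ee π k (π (el a) * g)) ^ 2 := by
      rw [ee, ← NNReal.coe_le_coe]
      push_cast
      have := sq_sum_le_card_mul_sum_sq (s := (univ : Finset (Let m)))
        (f := fun a => ((ee π k (π (el a) * g) : ℝ≥0) : ℝ))
      refine this.trans (le_of_eq ?_)
      rw [card_univ, Fintype.card_prod, Fintype.card_fin, Fintype.card_bool]
      push_cast
      ring
    exact_mod_cast h2
  calc nn π (k + 1) ≤ ∑' g, (2 * m) * ∑ a : Let m, (ee π k (π (el a) * g) : ℝ≥0∞) ^ 2 :=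
        ENNReal.tsum_le_tsum h1
    _ = (2 * m) * ∑ a : Let m, nn π k := by
        rw [ENNReal.tsum_mul_left, Summable.tsum_finsetSum fun _ _ => ENNReal.summable]
        congr 1
        refine sum_congr rfl fun a _ => ?_
        exact (Equiv.mulLeft (π (el a))).tsum_eq (fun g => (ee π k g : ℝ≥0∞) ^ 2)
    _ = (2 * m) ^ 2 * nn π k := by
        simp
        ring

theorem nn_lt_top (π : F m →* G) (k : ℕ) : nn π k < ⊤ := by
  induction k with
  | zero => rw [nn_zero]; exact ENNReal.one_lt_top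
  | succ k ih =>
    refine (nn_crude π k).trans_lt (ENNReal.mul_lt_top ?_ ih)
    exact ENNReal.pow_lt_top (ENNReal.mul_lt_top ENNReal.ofNat_lt_top (ENNReal.natCast_lt_top m))

theorem nn_le {π : F m →* G} {l : ℝ≥0} (hl : 0 < l) (h : ∀ φ χ : G → ℝ≥0,
      2 * ∑' g, ∑ a : Let m, ((φ g : ℝ≥0∞) * χ (π (el a) * g)) ≤
      l * (∑' g, (φ g : ℝ≥0∞) ^ 2 + ∑' g, (χ g : ℝ≥0∞) ^ 2)) (k : ℕ) :
    nn π k ≤ (l : ℝ≥0∞) ^ (2 * k) := by
  induction k with
  | zero => rw [nn_zero]; simp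
  | succ k ih =>
    have h1 := h (ee π (k + 1)) (fun g => l * ee π k g)
    have h2 : ∑' g, ∑ a : Let m, ((ee π (k + 1) g : ℝ≥0∞) * ((l * ee π k (π (el a) * g) : ℝ≥0) :
        ℝ≥0∞)) = l * nn π (k + 1) := by
      rw [nn, ← ENNReal.tsum_mul_left]
      refine tsum_congr fun g => ?_
      rw [← mul_sum]
      have : ∑ a : Let m, (((l * ee π k (π (el a) * g) : ℝ≥0)) : ℝ≥0∞) =
          l * (ee π (k + 1) g : ℝ≥0∞) := by
        rw [ee]
        push_cast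
        rw [mul_sum]
      rw [this]
      ring
    have h3 : ∑' g, (((l * ee π k g : ℝ≥0)) : ℝ≥0∞) ^ 2 = l ^ 2 * nn π k := by
      rw [nn, ← ENNReal.tsum_mul_left]
      refine tsum_congr fun g => ?_
      push_cast
      ring
    rw [h2, h3] at h1
    change 2 * (l * nn π (k + 1)) ≤ l * (nn π (k + 1) + l ^ 2 * nn π k) at h1
    have hlE : (l : ℝ≥0∞) ≠ 0 := by exact_mod_cast hl.ne'
    rw [mul_left_comm, ENNReal.mul_le_mul_iff_right hlE ENNReal.coe_ne_top, two_mul] at h1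
    have h4 := (ENNReal.add_le_add_iff_left (nn_lt_top π (k + 1)).ne).1 h1
    calc nn π (k + 1) ≤ l ^ 2 * nn π k := h4
      _ ≤ l ^ 2 * l ^ (2 * k) := by gcongr
      _ = l ^ (2 * (k + 1)) := by rw [← pow_add]; congr 1; ring

theorem ee_le {π : F m →* G} {l : ℝ≥0} (hl : 0 < l) (h : ∀ φ χ : G → ℝ≥0,
      2 * ∑' g, ∑ a : Let m, ((φ g : ℝ≥0∞) * χ (π (el a) * g)) ≤
      l * (∑' g, (φ g : ℝ≥0∞) ^ 2 + ∑' g, (χ g : ℝ≥0∞) ^ 2)) (k : ℕ) (g : G) :
    ee π k g ≤ l ^ k := by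
  have h1 : (ee π k g : ℝ≥0∞) ^ 2 ≤ (l : ℝ≥0∞) ^ (2 * k) :=
    (ENNReal.le_tsum g).trans (nn_le hl h k)
  have h2 : (ee π k g) ^ 2 ≤ (l ^ k) ^ 2 := by
    rw [← pow_mul, mul_comm k 2]
    exact_mod_cast h1
  exact (pow_le_pow_iff_left₀ zero_le zero_le two_ne_zero).1 h2

/-- a positive supersolution -/
theorem exists_super {π : F m →* G} {l : ℝ≥0} (hl : 0 < l) (h : ∀ φ χ : G → ℝ≥0,
      2 * ∑' g, ∑ a : Let m, ((φ g : ℝ≥0∞) * χ (π (el a) * g)) ≤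
      l * (∑' g, (φ g : ℝ≥0∞) ^ 2 + ∑' g, (χ g : ℝ≥0∞) ^ 2)) {t : ℝ≥0} (ht : l < t) :
    ∃ u : G → ℝ≥0∞, 1 ≤ u 1 ∧ u 1 < ⊤ ∧ ∀ g, ∑ a : Let m, u (π (el a) * g) ≤ t * u g := by
  have ht0 : 0 < t := hl.trans ht
  have htE : (t : ℝ≥0∞) ≠ 0 := by exact_mod_cast ht0.ne'
  refine ⟨fun g => ∑' k : ℕ, ((t : ℝ≥0∞)⁻¹) ^ k * ee π k g, ?_, ?_, fun g => ?_⟩
  · refine le_trans ?_ (ENNReal.le_tsum 0)
    simp [ee]
  · have h1 : ∑' k : ℕ, ((t : ℝ≥0∞)⁻¹) ^ k * ee π k 1 ≤ ∑' k : ℕ, ((l : ℝ≥0∞) / t) ^ k := by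
      refine ENNReal.tsum_le_tsum fun k => ?_
      rw [div_eq_mul_inv, mul_pow, mul_comm]
      gcongr
      exact_mod_cast ee_le hl h k 1
    refine h1.trans_lt ?_
    rw [ENNReal.tsum_geometric]
    apply ENNReal.inv_lt_top.2
    apply tsub_pos_of_lt
    exact (ENNReal.div_lt_iff (Or.inl htE) (Or.inl ENNReal.coe_ne_top)).2
      (by rw [one_mul]; exact_mod_cast ht)
  · simp only
    rw [← Summable.tsum_finsetSum fun _ _ => ENNReal.summable, ← ENNReal.tsum_mul_left]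
    have h2 : ∀ k : ℕ, ∑ a : Let m, ((t : ℝ≥0∞)⁻¹) ^ k * (ee π k (π (el a) * g) : ℝ≥0∞) =
        t * (((t : ℝ≥0∞)⁻¹) ^ (k + 1) * ee π (k + 1) g) := by
      intro k
      have h3 : (t : ℝ≥0∞) * ((t : ℝ≥0∞)⁻¹) ^ (k + 1) = ((t : ℝ≥0∞)⁻¹) ^ k := by
        rw [pow_succ, mul_left_comm, ENNReal.mul_inv_cancel htE ENNReal.coe_ne_top, mul_one]
      rw [← mul_sum, ← mul_assoc, h3, ee]
      push_cast
      rfl
    simp_rw [h2]
    rw [tsum_eq_zero_add' (f := fun k : ℕ => (t : ℝ≥0∞) * (((t : ℝ≥0∞)⁻¹) ^ k * ee π k g))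
      ENNReal.summable]
    exact le_add_self

end Pool.Agent.Q106.Cog
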