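import Pool.Agent.Q106.CogSum

/-! The Schur test on the quotient group. -/

namespace Pool.Agent.Q106.Cog

open Finset

open scoped ENNReal NNReal

variable {m : ℕ} {G : Type*} [Group G]

/-- the sum of the weights over a coset -/
noncomputable def AA (x : Fin m → ℝ) (π : F m →* G) (g : G) : ℝ≥0∞ :=
  ∑' w, open Classical in if π w = g then wE x w else 0

theorem AA_sum_le {x : Fin m → ℝ} (hx : ∀ i, 0 < x i ∧ x i < 1) (π : F m →* G) (g : G) :
    ∑ a : Let m, cE x a * AA x π (π (el a) * g) ≤ dE x * AA x π g := by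
  classical
  have h1 : ∀ a : Let m, cE x a * AA x π (π (el a) * g) =
      ∑' w, (if π w = g then cE x a * wE x (el a * w) else 0) := by
    intro a
    rw [AA, ← ENNReal.tsum_mul_left, ← (Equiv.mulLeft (el a)).tsum_eq]
    refine tsum_congr fun w => ?_
    simp only [Equiv.coe_mulLeft, map_mul, mul_right_inj, mul_ite, mul_zero]
  rw [sum_congr rfl fun a _ => h1 a, ← Summable.tsum_finsetSum fun _ _ => ENNReal.summable, AA,
    ← ENNReal.tsum_mul_left]
  refine ENNReal.tsum_le_tsum fun w => ?_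
  by_cases h : π w = g
  · simp only [if_pos h]
    rw [identityE hx w]
    exact le_add_self
  · simp [h]

theorem cE_ne_zero {x : Fin m → ℝ} (hx : ∀ i, 0 < x i ∧ x i < 1) (a : Let m) : cE x a ≠ 0 := by
  simp [cE, cc_pos hx a.1]

theorem cE_ne_top (x : Fin m → ℝ) (a : Let m) : cE x a ≠ ⊤ := ENNReal.ofReal_ne_top

theorem AA_lt_top {x : Fin m → ℝ} (hx : ∀ i, 0 < x i ∧ x i < 1) {π : F m →* G}
    (hπ : Function.Surjective π) (h1 : AA x π 1 < ⊤) (g : G) : AA x π g < ⊤ := by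
  obtain ⟨w, rfl⟩ := hπ g
  induction hn : w.toWord.length generalizing w with
  | zero =>
    rw [List.length_eq_zero_iff, FreeGroup.toWord_eq_nil_iff] at hn
    rw [hn, map_one]
    exact h1
  | succ n ih =>
    have hw : w ≠ 1 := by
      rintro rfl
      simp at hn
    obtain ⟨b, v, h2, h3⟩ := exists_first hw
    have h4 : AA x π (π v) < ⊤ := by
      apply ih
      rw [h3] at hn
      simpa using hn
    have h5 := AA_sum_le hx π (π v)
    have h6 : cE x b * AA x π (π (el b) * π v) ≤ dE x * AA x π (π v) :=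
      (single_le_sum (f := fun a : Let m => cE x a * AA x π (π (el a) * π v))
        (fun _ _ => zero_le) (mem_univ b)).trans h5
    rw [h2, map_mul]
    have h7 : cE x b * AA x π (π (el b) * π v) < ⊤ :=
      h6.trans_lt (ENNReal.mul_lt_top ENNReal.ofReal_lt_top h4)
    by_contra h8
    rw [not_lt, top_le_iff] at h8
    rw [h8, ENNReal.mul_top (cE_ne_zero hx b)] at h7
    exact lt_irrefl _ h7

theorem AA_ne_zero {x : Fin m → ℝ} (hx : ∀ i, 0 < x i ∧ x i < 1) {π : F m →* G}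
    (hπ : Function.Surjective π) (g : G) : AA x π g ≠ 0 := by
  classical
  obtain ⟨w, rfl⟩ := hπ g
  rw [AA]
  intro h
  rw [ENNReal.tsum_eq_zero] at h
  have := h w
  rw [if_pos rfl] at this
  rw [wE, ENNReal.ofReal_eq_zero] at this
  exact absurd (wt_pos (fun i => (hx i).1) w) (not_lt.2 this)

theorem amgm (p q : ℝ≥0) {α β : ℝ≥0∞} (h1 : α ≠ 0) (h2 : α ≠ ⊤) (h3 : β ≠ 0) (h4 : β ≠ ⊤) :
    2 * ((p : ℝ≥0∞) * q) ≤ p ^ 2 * (β / α) + q ^ 2 * (α / β) := by
  lift α to ℝ≥0 using h2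
  lift β to ℝ≥0 using h4
  have h1' : α ≠ 0 := by exact_mod_cast h1
  have h3' : β ≠ 0 := by exact_mod_cast h3
  rw [← ENNReal.coe_div h1', ← ENNReal.coe_div h3']
  norm_cast
  rw [← NNReal.coe_le_coe]
  push_cast
  have ha : (0 : ℝ) < α := by positivity
  have hb : (0 : ℝ) < β := by positivity
  have h5 : (p : ℝ) ^ 2 * (β / α) + q ^ 2 * (α / β) - 2 * (p * q) =
      (p * β - q * α) ^ 2 / (α * β) := by
    field_simp
    ring
  have h6 : 0 ≤ ((p : ℝ) * β - q * α) ^ 2 / (α * β) := by positivity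
  linarith

/-- inversion of letters -/
def ivEquiv : Let m ≃ Let m := ⟨iv, iv, iv_iv, iv_iv⟩

/-- the Schur test -/
theorem schur {x : Fin m → ℝ} (hx : ∀ i, 0 < x i ∧ x i < 1) {π : F m →* G}
    (hπ : Function.Surjective π) (h1 : AA x π 1 < ⊤) (φ χ : G → ℝ≥0) :
    2 * ∑' g, ∑ a : Let m, cE x a * ((φ g : ℝ≥0∞) * χ (π (el a) * g)) ≤
      dE x * (∑' g, (φ g : ℝ≥0∞) ^ 2 + ∑' g, (χ g : ℝ≥0∞) ^ 2) := by
  set A := AA x π with hA
  have hne : ∀ g, A g ≠ 0 := AA_ne_zero hx hπ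
  have hnt : ∀ g, A g ≠ ⊤ := fun g => (AA_lt_top hx hπ h1 g).ne
  have hs : ∀ g, ∑ a : Let m, cE x a * A (π (el a) * g) ≤ dE x * A g := AA_sum_le hx π
  have hs' : ∀ g, ∑ a : Let m, cE x a * A ((π (el a))⁻¹ * g) ≤ dE x * A g := by
    intro g
    rw [← (ivEquiv (m := m)).sum_comp]
    refine le_trans (le_of_eq (sum_congr rfl fun a _ => ?_)) (hs g)
    change cE x (iv a) * A ((π (el (iv a)))⁻¹ * g) = _
    rw [el_iv, map_inv, inv_inv]
    rfl
  have e1 : ∑' g, ∑ a : Let m, cE x a * ((φ g : ℝ≥0∞) ^ 2 * (A (π (el a) * g) / A g)) ≤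
      dE x * ∑' g, (φ g : ℝ≥0∞) ^ 2 := by
    rw [← ENNReal.tsum_mul_left]
    refine ENNReal.tsum_le_tsum fun g => ?_
    calc ∑ a : Let m, cE x a * ((φ g : ℝ≥0∞) ^ 2 * (A (π (el a) * g) / A g))
        = (φ g : ℝ≥0∞) ^ 2 * ((∑ a : Let m, cE x a * A (π (el a) * g)) / A g) := by
          rw [div_eq_mul_inv, sum_mul, mul_sum]
          refine sum_congr rfl fun a _ => ?_
          rw [div_eq_mul_inv]
          ring
      _ ≤ (φ g : ℝ≥0∞) ^ 2 * (dE x * A g / A g) := by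
          gcongr
          exact hs g
      _ = dE x * (φ g : ℝ≥0∞) ^ 2 := by
          rw [mul_div_assoc, ENNReal.div_self (hne g) (hnt g), mul_one, mul_comm]
  have e2 : ∑' g, ∑ a : Let m, cE x a *
      ((χ (π (el a) * g) : ℝ≥0∞) ^ 2 * (A g / A (π (el a) * g))) ≤
      dE x * ∑' g, (χ g : ℝ≥0∞) ^ 2 := by
    have e3 : ∑' g, ∑ a : Let m, cE x a *
        ((χ (π (el a) * g) : ℝ≥0∞) ^ 2 * (A g / A (π (el a) * g))) =
        ∑' g, ∑ a : Let m, cE x a * ((χ g : ℝ≥0∞) ^ 2 * (A ((π (el a))⁻¹ * g) / A g)) := by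
      rw [Summable.tsum_finsetSum fun _ _ => ENNReal.summable,
        Summable.tsum_finsetSum fun _ _ => ENNReal.summable]
      refine sum_congr rfl fun a _ => ?_
      rw [← (Equiv.mulLeft (π (el a))).tsum_eq (fun g => cE x a *
        ((χ g : ℝ≥0∞) ^ 2 * (A ((π (el a))⁻¹ * g) / A g)))]
      refine tsum_congr fun g => ?_
      simp
    rw [e3, ← ENNReal.tsum_mul_left]
    refine ENNReal.tsum_le_tsum fun g => ?_
    calc ∑ a : Let m, cE x a * ((χ g : ℝ≥0∞) ^ 2 * (A ((π (el a))⁻¹ * g) / A g))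
        = (χ g : ℝ≥0∞) ^ 2 * ((∑ a : Let m, cE x a * A ((π (el a))⁻¹ * g)) / A g) := by
          rw [div_eq_mul_inv, sum_mul, mul_sum]
          refine sum_congr rfl fun a _ => ?_
          rw [div_eq_mul_inv]
          ring
      _ ≤ (χ g : ℝ≥0∞) ^ 2 * (dE x * A g / A g) := by
          gcongr
          exact hs' g
      _ = dE x * (χ g : ℝ≥0∞) ^ 2 := by
          rw [mul_div_assoc, ENNReal.div_self (hne g) (hnt g), mul_one, mul_comm]
  rw [mul_add]
  refine le_trans ?_ (add_le_add e1 e2)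
  rw [← ENNReal.tsum_add, ← ENNReal.tsum_mul_left]
  refine ENNReal.tsum_le_tsum fun g => ?_
  rw [← sum_add_distrib, mul_sum]
  refine sum_le_sum fun a _ => ?_
  rw [← mul_add, mul_left_comm]
  gcongr
  exact amgm _ _ (hne _) (hnt _) (hne _) (hnt _)

end Pool.Agent.Q106.Cog
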