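import Pool.Agent.Q106.CogGreen

/-! Sphere sums of a supersolution, and the bound for the cogrowth. -/

namespace Pool.Agent.Q106.Cog

open Finset

open scoped ENNReal NNReal

variable {m : ℕ} {G : Type*} [Group G]

/-- the word length -/
def len (w : F m) : ℕ := w.toWord.length

theorem len_el_mul {w v : F m} {b : Let m} (h2 : w.toWord = b :: v.toWord) (a : Let m) :
    len (el a * w) = if a = iv b then len w - 1 else len w + 1 := by
  unfold len
  rw [toWord_el_mul, h2]
  simp only
  by_cases h : a = iv b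
  · rw [if_pos ((cond_iff a b).2 h), if_pos h]
    simp
  · rw [if_neg (fun h' => h ((cond_iff a b).1 h')), if_neg h]
    simp

/-- the sphere sums -/
noncomputable def SS (u : F m → ℝ≥0∞) (k : ℕ) : ℝ≥0∞ := ∑' w, if len w = k then u w else 0

theorem SS_op (u : F m → ℝ≥0∞) (k : ℕ) :
    ∑' w, (if len w = k then ∑ a : Let m, u (el a * w) else 0) =
      ∑' v, ∑ a : Let m, if len (el a * v) = k then u v else 0 := by
  have h1 : ∀ w : F m, (if len w = k then ∑ a : Let m, u (el a * w) else 0) =
      ∑ a : Let m, if len w = k then u (el a * w) else 0 := by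
    intro w
    split_ifs
    · rfl
    · simp
  simp_rw [h1]
  rw [Summable.tsum_finsetSum fun _ _ => ENNReal.summable,
    Summable.tsum_finsetSum fun _ _ => ENNReal.summable, ← (ivEquiv (m := m)).sum_comp]
  refine sum_congr rfl fun a _ => ?_
  rw [← (Equiv.mulLeft (el a)).tsum_eq]
  refine tsum_congr fun w => ?_
  change (if len (el a * w) = k then u (el (iv a) * (el a * w)) else 0) = _
  rw [el_iv, inv_mul_cancel_left]

theorem card_ge {v : F m} {k : ℕ} (c : ℝ≥0∞) :
    (if len v = k + 2 then c else 0) + (2 * m - 1) * (if len v = k then c else 0) ≤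
      ∑ a : Let m, if len (el a * v) = k + 1 then c else 0 := by
  by_cases hv : v = 1
  · subst hv
    have h0 : len (1 : F m) = 0 := rfl
    have h1 : ∀ a : Let m, len (el a * 1) = 1 := by
      intro a
      rw [mul_one, len, toWord_el]
      rfl
    simp only [h0, h1]
    rw [if_neg (by omega), zero_add]
    by_cases hk : k = 0
    · subst hk
      simp only [if_true, zero_add, sum_const, card_univ, Fintype.card_prod, Fintype.card_fin,
        Fintype.card_bool, nsmul_eq_mul]
      gcongr
      push_cast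
      rw [mul_comm (m : ℝ≥0∞)]
      exact tsub_le_self
    · rw [if_neg (by omega), mul_zero]
      exact zero_le
  · obtain ⟨b, w, h1, h2⟩ := exists_first hv
    have hlen : 1 ≤ len v := by
      unfold len
      rw [h2]
      simp
    have h3 : ∀ a : Let m, len (el a * v) = if a = iv b then len v - 1 else len v + 1 :=
      len_el_mul h2
    simp_rw [h3]
    by_cases hk2 : len v = k + 2
    · rw [if_pos hk2, if_neg (by omega), mul_zero, add_zero]
      refine le_trans ?_ (single_le_sum (f := fun a : Let m =>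
        if (if a = iv b then len v - 1 else len v + 1) = k + 1 then c else 0)
        (fun _ _ => zero_le) (mem_univ (iv b)))
      simp only [if_true]
      rw [if_pos (by omega)]
    · rw [if_neg hk2, zero_add]
      by_cases hk : len v = k
      · rw [if_pos hk]
        calc (2 * (m : ℝ≥0∞) - 1) * c = ∑ a ∈ univ.erase (iv b), c := by
              rw [sum_const, card_erase_of_mem (mem_univ _), card_univ, Fintype.card_prod,
                Fintype.card_fin, Fintype.card_bool, nsmul_eq_mul]
              congr 1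
              push_cast
              rw [mul_comm]
          _ ≤ ∑ a ∈ univ.erase (iv b),
              if (if a = iv b then len v - 1 else len v + 1) = k + 1 then c else 0 := by
              refine sum_le_sum fun a ha => ?_
              rw [if_neg (ne_of_mem_erase ha), if_pos (by omega)]
          _ ≤ _ := sum_le_sum_of_subset (erase_subset _ _)
      · rw [if_neg hk, mul_zero]
        exact zero_le

theorem SS_rec {u : F m → ℝ≥0∞} {t : ℝ≥0∞} (hu : ∀ w, ∑ a : Let m, u (el a * w) ≤ t * u w)
    (k : ℕ) : SS u (k + 2) + (2 * m - 1) * SS u k ≤ t * SS u (k + 1) := by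
  have h1 : ∑' w, (if len w = k + 1 then ∑ a : Let m, u (el a * w) else 0) ≤ t * SS u (k + 1) := by
    rw [SS, ← ENNReal.tsum_mul_left]
    refine ENNReal.tsum_le_tsum fun w => ?_
    split_ifs
    · exact hu w
    · exact zero_le
  refine le_trans ?_ h1
  rw [SS_op, SS, SS, ← ENNReal.tsum_mul_left, ← ENNReal.tsum_add]
  exact ENNReal.tsum_le_tsum fun v => card_ge (u v)

theorem SS_one {u : F m → ℝ≥0∞} {t : ℝ≥0∞} (hu : ∀ w, ∑ a : Let m, u (el a * w) ≤ t * u w) :
    SS u 1 ≤ t * SS u 0 := by
  have h1 : ∑' w, (if len w = 0 then ∑ a : Let m, u (el a * w) else 0) ≤ t * SS u 0 := by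
    rw [SS, ← ENNReal.tsum_mul_left]
    refine ENNReal.tsum_le_tsum fun w => ?_
    split_ifs
    · exact hu w
    · exact zero_le
  refine le_trans ?_ h1
  rw [SS_op, SS]
  refine ENNReal.tsum_le_tsum fun v => ?_
  by_cases hv : len v = 1
  · rw [if_pos hv]
    have hv1 : v ≠ 1 := by
      rintro rfl
      simp [len] at hv
    obtain ⟨b, w, h1, h2⟩ := exists_first hv1
    refine le_trans ?_ (single_le_sum (f := fun a : Let m =>
        if len (el a * v) = 0 then u v else 0) (fun _ _ => zero_le) (mem_univ (iv b)))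
    rw [len_el_mul h2, if_pos rfl, if_pos (by omega)]
  · rw [if_neg hv]
    exact zero_le

theorem SS_zero (u : F m → ℝ≥0∞) : SS u 0 = u 1 := by
  rw [SS]
  have : ∀ w : F m, (if len w = 0 then u w else 0) = if w = 1 then u 1 else 0 := by
    intro w
    by_cases h : w = 1
    · subst h; simp [len]
    · rw [if_neg h, if_neg]
      intro h'
      exact h (FreeGroup.toWord_eq_nil_iff.1 (List.length_eq_zero_iff.1 h'))
  simp_rw [this]
  rw [tsum_ite_eq]

/-- a linear recursion inequality -/
theorem rec_bound (s : ℕ → ℝ) (q th lam : ℝ) (hs : ∀ k, 0 ≤ s k) (hq : 0 < q)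
    (hth : q < th * th) (hth0 : 0 < th) (hlam : lam ≤ th + q / th) (h1 : s 1 ≤ lam * s 0)
    (h : ∀ k, s (k + 2) + q * s k ≤ lam * s (k + 1)) : ∃ C : ℝ, 0 < C ∧ ∀ k, s k ≤ C * th ^ k := by
  set r : ℝ := q / th with hr
  have hr0 : 0 < r := div_pos hq hth0
  have hrq : th * r = q := by rw [hr]; field_simp
  have hrt : r < th := by rw [hr, div_lt_iff₀ hth0]; exact hth
  set K : ℝ := max (s 1 - th * s 0) 0 + 1 with hK
  have hK0 : 0 < K := by
    have := le_max_right (s 1 - th * s 0) 0
    linarith
  have hV : ∀ k, s (k + 1) - th * s k ≤ K * r ^ k := by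
    intro k
    induction k with
    | zero =>
      have := le_max_left (s 1 - th * s 0) 0
      simp only [zero_add, pow_zero, mul_one]
      linarith
    | succ k ih =>
      have h2 := h k
      have h3 := mul_le_mul_of_nonneg_right hlam (hs (k + 1))
      have h4 := mul_le_mul_of_nonneg_left ih hr0.le
      rw [pow_succ]
      have h5 : r * (s (k + 1) - th * s k) = r * s (k + 1) - q * s k := by rw [← hrq]; ring
      have h6 : s (k + 1 + 1) = s (k + 2) := rfl
      rw [h6]
      nlinarith
  set c2 : ℝ := K / (th - r) with hc2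
  have hc20 : 0 < c2 := div_pos hK0 (by linarith)
  have hc2' : c2 * th = K + c2 * r := by
    have : c2 * (th - r) = K := div_mul_cancel₀ _ (by linarith : th - r ≠ 0)
    linarith
  refine ⟨s 0 + c2, by linarith [hs 0], fun k => ?_⟩
  have h7 : ∀ k, s k ≤ (s 0 + c2) * th ^ k - c2 * r ^ k := by
    intro k
    induction k with
    | zero => simp
    | succ k ih =>
      have h8 := hV k
      have h9 := mul_le_mul_of_nonneg_left ih hth0.le
      rw [pow_succ, pow_succ]
      have h10 : c2 * (r ^ k * r) = c2 * th * r ^ k - K * r ^ k := by rw [hc2']; ring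
      nlinarith
  have h11 : 0 ≤ c2 * r ^ k := by positivity
  linarith [h7 k]

/-- the number of elements of the kernel of length `k` -/
noncomputable def kc (π : F m →* G) (k : ℕ) : ℝ≥0∞ :=
  ((Set.encard {w : F m | w ∈ π.ker ∧ len w = k} : ℕ∞) : ℝ≥0∞)

theorem kc_le {π : F m →* G} {u : G → ℝ≥0∞} (hu : 1 ≤ u 1) (k : ℕ) :
    kc π k ≤ SS (fun w => u (π w)) k := by
  classical
  rw [kc, ← ENNReal.tsum_set_one, _root_.tsum_subtype _ (fun _ => (1 : ℝ≥0∞)), SS]
  refine ENNReal.tsum_le_tsum fun w => ?_
  by_cases h : w ∈ π.ker ∧ len w = k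
  · rw [Set.indicator_of_mem (by exact h), if_pos h.2, MonoidHom.mem_ker.1 h.1]
    exact hu
  · rw [Set.indicator_of_notMem (by exact h)]
    exact zero_le

/-- below the critical value, the cogrowth is not maximal -/
theorem cogrowth_bound {x : Fin m → ℝ} (hx : ∀ i, 0 < x i ∧ x i < 1) (hm : 2 ≤ m)
    (h : 1 < ∑ i, 2 * x i / (1 + x i)) {π : F m →* G}
    (hπ : Function.Surjective π) (h1 : AA x π 1 < ⊤) :
    ∃ th C : ℝ, 1 < th ∧ th < 2 * m - 1 ∧ 0 < C ∧ ∀ k, kc π k ≤ ENNReal.ofReal (C * th ^ k) := by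
  obtain ⟨l, hl0, hl1, hl⟩ := schur_unif hx (by omega) h hπ h1
  have hm' : (2 : ℝ) ≤ m := by exact_mod_cast hm
  set t : ℝ≥0 := (l + 2 * m) / 2 with ht
  have htr : (t : ℝ) = (l + 2 * m) / 2 := by rw [ht]; push_cast; ring
  have hlt : l < t := by rw [← NNReal.coe_lt_coe, htr]; linarith
  have ht2 : (t : ℝ) < 2 * m := by rw [htr]; linarith
  obtain ⟨u, hu1, hu2, hu⟩ := exists_super hl0 hl hlt
  have hu' : ∀ w : F m, ∑ a : Let m, u (π (el a * w)) ≤ t * u (π w) := by
    intro w
    simp_rw [map_mul]
    exact hu (π w)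
  have hrec := SS_rec hu'
  have hone := SS_one hu'
  have hzero : SS (fun w => u (π w)) 0 < ⊤ := by
    rw [SS_zero, map_one]
    exact hu2
  have hfin : ∀ k, SS (fun w => u (π w)) k < ⊤ := by
    have : ∀ k, SS (fun w => u (π w)) k < ⊤ ∧ SS (fun w => u (π w)) (k + 1) < ⊤ := by
      intro k
      induction k with
      | zero => exact ⟨hzero, hone.trans_lt (ENNReal.mul_lt_top ENNReal.coe_lt_top hzero)⟩
      | succ k ih =>
        refine ⟨ih.2, ?_⟩
        refine (le_self_add.trans (hrec k)).trans_lt ?_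
        exact ENNReal.mul_lt_top ENNReal.coe_lt_top ih.2
    exact fun k => (this k).1
  set s : ℕ → ℝ := fun k => (SS (fun w => u (π w)) k).toReal with hs
  have hqE : (2 * (m : ℝ≥0∞) - 1).toReal = 2 * m - 1 := by
    have : (2 * (m : ℝ≥0∞) - 1) = ((2 * m - 1 : ℕ) : ℝ≥0∞) := by
      push_cast
      rfl
    rw [this, ENNReal.toReal_natCast]
    rw [Nat.cast_sub (by omega)]
    push_cast
    ring
  have hqT : (2 * (m : ℝ≥0∞) - 1) ≠ ⊤ := by
    apply ne_top_of_le_ne_top _ tsub_le_self
    exact ENNReal.mul_ne_top ENNReal.ofNat_ne_top (ENNReal.natCast_ne_top m)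
  have hs1 : s 1 ≤ t * s 0 := by
    have := ENNReal.toReal_mono (ENNReal.mul_ne_top ENNReal.coe_ne_top hzero.ne) hone
    rw [ENNReal.toReal_mul, ENNReal.coe_toReal] at this
    exact this
  have hsr : ∀ k, s (k + 2) + (2 * m - 1) * s k ≤ t * s (k + 1) := by
    intro k
    have := ENNReal.toReal_mono (ENNReal.mul_ne_top ENNReal.coe_ne_top (hfin (k + 1)).ne) (hrec k)
    rw [ENNReal.toReal_mul, ENNReal.coe_toReal, ENNReal.toReal_add (hfin _).ne
      (ENNReal.mul_ne_top hqT (hfin k).ne), ENNReal.toReal_mul, hqE] at this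
    exact this
  -- choice of theta
  obtain ⟨th, h3, h4, h5⟩ : ∃ th : ℝ, (2 * m - 1 : ℝ) < th * th ∧ th < 2 * m - 1 ∧
      (t : ℝ) ≤ th + (2 * m - 1) / th ∧ 1 < th := by
    set q : ℝ := 2 * m - 1 with hq
    have hq3 : 3 ≤ q := by rw [hq]; linarith
    set d : ℝ := 2 * m - t with hd
    have hd0 : 0 < d := by rw [hd]; linarith
    -- th = q - e with small e
    set e : ℝ := min d 1 / 2 with he
    have he0 : 0 < e := by rw [he]; positivity
    have he1 : e ≤ 1 / 2 := by rw [he]; linarith [min_le_right d 1]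
    have he2 : e ≤ d / 2 := by rw [he]; linarith [min_le_left d 1]
    have hth0 : 0 < q - e := by linarith
    refine ⟨q - e, by nlinarith, by linarith, ?_, by linarith⟩
    have h6 : 1 ≤ q / (q - e) := by rw [le_div_iff₀ hth0]; linarith
    linarith
  obtain ⟨C, hC0, hC⟩ := rec_bound s (2 * m - 1) th t (fun k => ENNReal.toReal_nonneg)
    (by linarith) h3 (by linarith [h5.2]) h5.1 hs1 hsr
  refine ⟨th, C, h5.2, h4, hC0, fun k => ?_⟩
  refine (kc_le hu1 k).trans ?_
  rw [← ENNReal.ofReal_toReal (hfin k).ne]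
  exact ENNReal.ofReal_le_ofReal (hC k)

end Pool.Agent.Q106.Cog
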