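import Pool.Agent.Q106.CogWord

/-! The generating function of the whole free group converges below the critical surface. -/

namespace Pool.Agent.Q106.Cog

open Finset

open scoped ENNReal

variable {m : ℕ}

/-- the weight in `ℝ≥0∞` -/
noncomputable def wE (x : Fin m → ℝ) (w : F m) : ℝ≥0∞ := ENNReal.ofReal (wt x w)

/-- the coefficient in `ℝ≥0∞` -/
noncomputable def cE (x : Fin m → ℝ) (a : Let m) : ℝ≥0∞ := ENNReal.ofReal (cc x a.1)

/-- `D` in `ℝ≥0∞` -/
noncomputable def dE (x : Fin m → ℝ) : ℝ≥0∞ := ENNReal.ofReal (DD x)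

theorem identityE {x : Fin m → ℝ} (hx : ∀ i, 0 < x i ∧ x i < 1) (w : F m) :
    dE x * wE x w = (if w = 1 then 1 else 0) + ∑ a : Let m, cE x a * wE x (el a * w) := by
  have h := identity hx w
  rw [dE, wE, ← ENNReal.ofReal_mul (DD_pos hx).le, h, ENNReal.ofReal_add,
    ENNReal.ofReal_sum_of_nonneg]
  · congr 1
    · split_ifs <;> simp
    · refine sum_congr rfl fun a _ => ?_
      rw [cE, wE, ENNReal.ofReal_mul (cc_pos hx _).le]
  · intro a _
    exact mul_nonneg (cc_pos hx _).le (wt_pos (fun i => (hx i).1) _).le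
  · split_ifs <;> norm_num
  · exact sum_nonneg fun a _ =>
      mul_nonneg (cc_pos hx _).le (wt_pos (fun i => (hx i).1) _).le

theorem sum_cE {x : Fin m → ℝ} (hx : ∀ i, 0 < x i ∧ x i < 1) :
    ∑ a : Let m, cE x a = ENNReal.ofReal (∑ a : Let m, cc x a.1) := by
  rw [ENNReal.ofReal_sum_of_nonneg fun a _ => (cc_pos hx _).le]
  rfl

theorem wt_le_one {x : Fin m → ℝ} (hx : ∀ i, 0 < x i ∧ x i < 1) (w : F m) : wt x w ≤ 1 := by
  rw [wt]
  have h : ∀ L : List (Let m), 0 ≤ (L.map fun p => x p.1).prod ∧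
      (L.map fun p => x p.1).prod ≤ 1 := by
    intro L
    induction L with
    | nil => simp
    | cons a L ih =>
      rw [List.map_cons, List.prod_cons]
      exact ⟨mul_nonneg (hx a.1).1.le ih.1, mul_le_one₀ (hx a.1).2.le ih.1 ih.2⟩
  exact (h _).2

/-- the operator -/
noncomputable def op (x : Fin m → ℝ) (φ : F m → ℝ≥0∞) (w : F m) : ℝ≥0∞ :=
  ∑ a : Let m, cE x a * φ (el a * w)

theorem tsum_op (x : Fin m → ℝ) (φ : F m → ℝ≥0∞) :
    ∑' w, op x φ w = (∑ a : Let m, cE x a) * ∑' w, φ w := by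
  unfold op
  rw [Summable.tsum_finsetSum fun _ _ => ENNReal.summable, sum_mul]
  refine sum_congr rfl fun a _ => ?_
  rw [ENNReal.tsum_mul_left]
  congr 1
  exact (Equiv.mulLeft (el a)).tsum_eq φ

/-- the weights of the free group are summable below the critical surface -/
theorem tsum_lt_top {x : Fin m → ℝ} (hx : ∀ i, 0 < x i ∧ x i < 1)
    (h : ∑ i, 2 * x i / (1 + x i) < 1) : ∑' w, wE x w < ⊤ := by
  have hD := DD_pos hx
  have hsub := DD_sub hx
  set S : ℝ := ∑ a : Let m, cc x a.1 with hS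
  have hS0 : 0 ≤ S := sum_nonneg fun a _ => (cc_pos hx _).le
  have hSD : S < DD x := by linarith
  set q : ℝ≥0∞ := ENNReal.ofReal (S / DD x) with hq
  have hq1 : q < 1 := by
    rw [hq, ← ENNReal.ofReal_one, ENNReal.ofReal_lt_ofReal_iff one_pos, div_lt_one hD]
    exact hSD
  have hdE : dE x ≠ 0 := by
    rw [dE]; simp [hD]
  have hdE' : dE x ≠ ⊤ := ENNReal.ofReal_ne_top
  -- the iterates
  let G : ℕ → F m → ℝ≥0∞ := fun n => (fun φ w => (dE x)⁻¹ * op x φ w)^[n]
    fun w => if w = 1 then (dE x)⁻¹ else 0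
  have hG0 : ∑' w, G 0 w = (dE x)⁻¹ := by
    change ∑' w, (if w = 1 then (dE x)⁻¹ else 0) = _
    rw [tsum_ite_eq]
  have hGs : ∀ n w, G (n + 1) w = (dE x)⁻¹ * op x (G n) w := by
    intro n w
    change ((fun φ w => (dE x)⁻¹ * op x φ w)^[n + 1]) _ w = _
    rw [Function.iterate_succ_apply']
  have hqq : (dE x)⁻¹ * (∑ a : Let m, cE x a) = q := by
    rw [sum_cE hx, hq, dE, ENNReal.ofReal_div_of_pos hD, ENNReal.div_eq_inv_mul]
  have hGsum : ∀ n, ∑' w, G n w = (dE x)⁻¹ * q ^ n := by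
    intro n
    induction n with
    | zero => rw [hG0, pow_zero, mul_one]
    | succ n ih =>
      simp_rw [hGs]
      rw [ENNReal.tsum_mul_left, tsum_op, ih, ← mul_assoc, hqq, pow_succ]
      ring
  -- the decomposition
  let R : ℕ → F m → ℝ≥0∞ := fun n => (fun φ w => (dE x)⁻¹ * op x φ w)^[n] (wE x)
  have hRs : ∀ n w, R (n + 1) w = (dE x)⁻¹ * op x (R n) w := by
    intro n w
    change ((fun φ w => (dE x)⁻¹ * op x φ w)^[n + 1]) _ w = _
    rw [Function.iterate_succ_apply']
  have hid : ∀ w, wE x w = G 0 w + R 1 w := by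
    intro w
    have h1 := identityE hx w
    have h2 : wE x w = (dE x)⁻¹ * (dE x * wE x w) := by
      rw [← mul_assoc, ENNReal.inv_mul_cancel hdE hdE', one_mul]
    rw [h2, h1, mul_add]
    congr 1
    change _ = if w = 1 then (dE x)⁻¹ else 0
    split_ifs <;> simp
  have hstep : ∀ n w, R n w = G n w + R (n + 1) w := by
    intro n
    induction n with
    | zero => exact hid
    | succ n ih =>
      intro w
      rw [hRs, hGs, hRs (n + 1), ← mul_add]
      congr 1
      unfold op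
      rw [← sum_add_distrib]
      refine sum_congr rfl fun a _ => ?_
      rw [← mul_add, ← ih]
  have hdec : ∀ n w, wE x w = (∑ k ∈ range n, G k w) + R n w := by
    intro n w
    induction n with
    | zero => simp [R]
    | succ n ih => rw [ih, sum_range_succ, add_assoc, ← hstep]
  have hRbd : ∀ n w, R n w ≤ q ^ n := by
    intro n
    induction n with
    | zero =>
      intro w
      change wE x w ≤ _
      rw [pow_zero, wE, ← ENNReal.ofReal_one]
      exact ENNReal.ofReal_le_ofReal (wt_le_one hx w)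
    | succ n ih =>
      intro w
      rw [hRs, pow_succ]
      unfold op
      calc (dE x)⁻¹ * ∑ a : Let m, cE x a * R n (el a * w)
          ≤ (dE x)⁻¹ * ∑ a : Let m, cE x a * q ^ n := by
            gcongr
            exact ih _
        _ = q ^ n * q := by
            rw [← sum_mul, ← mul_assoc, hqq, mul_comm]
  have hlim : ∀ w, wE x w ≤ ∑' k, G k w := by
    intro w
    have h0 : Filter.Tendsto (fun n : ℕ => q ^ n) Filter.atTop (nhds 0) :=
      ENNReal.tendsto_pow_atTop_nhds_zero_of_lt_one hq1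
    have h1 : Filter.Tendsto (fun n : ℕ => (∑' k, G k w) + q ^ n) Filter.atTop
        (nhds ((∑' k, G k w) + 0)) := tendsto_const_nhds.add h0
    rw [add_zero] at h1
    refine ge_of_tendsto' h1 fun n => ?_
    rw [hdec n w]
    gcongr
    · exact ENNReal.sum_le_tsum _
    · exact hRbd n w
  calc ∑' w, wE x w ≤ ∑' w, ∑' k, G k w := ENNReal.tsum_le_tsum hlim
    _ = ∑' k, ∑' w, G k w := ENNReal.tsum_comm
    _ = ∑' k, (dE x)⁻¹ * q ^ k := by simp_rw [hGsum]
    _ = (dE x)⁻¹ * (1 - q)⁻¹ := by rw [ENNReal.tsum_mul_left, ENNReal.tsum_geometric]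
    _ < ⊤ := by
      apply ENNReal.mul_lt_top
      · exact ENNReal.inv_lt_top.2 (pos_iff_ne_zero.2 hdE)
      · exact ENNReal.inv_lt_top.2 (tsub_pos_of_lt hq1)

end Pool.Agent.Q106.Cog
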