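import Pool.Agent.Q106.CogDef

/-! The tilting argument. -/

namespace Pool.Agent.Q106.Cog

open Finset Filter Topology

open scoped ENNReal NNReal

variable {m : ℕ}

/-- the generating function of a subgroup -/
noncomputable def ZH (H : Subgroup (FreeGroup (Fin m))) (x : Fin m → ℝ) : ℝ≥0∞ :=
  ∑' w, open Classical in if w ∈ H then wE x w else 0

/-- divergence above the critical surface -/
def Dv (H : Subgroup (FreeGroup (Fin m))) : Prop :=
  ∀ x : Fin m → ℝ, (∀ i, 0 < x i ∧ x i < 1) → 1 < ∑ i, 2 * x i / (1 + x i) → ZH H x = ⊤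

open Classical in
theorem tsum_nu (H : Subgroup (FreeGroup (Fin m))) (E : Set (Fin m → ℝ)) (c : ℝ≥0∞) :
    ∑' w : F m, (if w ∈ H ∧ par w ∈ E then c else 0) = c * nu H E := by
  rw [nu, ← ENNReal.tsum_set_one, _root_.tsum_subtype _ (fun _ => (1 : ℝ≥0∞)),
    ← ENNReal.tsum_mul_left]
  refine tsum_congr fun w => ?_
  by_cases h : w ∈ H ∧ par w ∈ E
  · rw [if_pos h, Set.indicator_of_mem (by exact h), mul_one]
  · rw [if_neg h, Set.indicator_of_notMem (by exact h), mul_zero]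

theorem finite_len (n : ℕ) : {w : F m | len w = n}.Finite :=
  (List.finite_length_eq (Let m) n).preimage (FreeGroup.toWord_injective.injOn)

open Classical in
/-- the tilting argument -/
theorem tilt {H : Subgroup (FreeGroup (Fin m))} (hm : 0 < m) (hdiv : Dv H) {y : Fin m → ℝ}
    (hy : ∀ i, 0 < y i) (hcrit : ∑ i, 2 * Real.exp (-y i) / (1 + Real.exp (-y i)) = 1)
    (hlt : ∀ r ∈ stdSimplex ℝ (Fin m), psi H r < ((∑ i, r i * y i : ℝ) : EReal)) : False := by
  have h1 : ∀ r ∈ stdSimplex ℝ (Fin m), ∃ (C : Set (Fin m → ℝ)) (a b : ℝ),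
      IsOpenCone C ∧ r ∈ C ∧ tau H C < (a : EReal) ∧ a < b ∧ b < ∑ i, r i * y i := by
    intro r hr
    obtain ⟨_, ⟨C, ⟨hC, hrC⟩, rfl⟩, h2⟩ := sInf_lt_iff.1 (hlt r hr)
    obtain ⟨a, ha, h3⟩ := EReal.lt_iff_exists_real_btwn.1 h2
    obtain ⟨b, hb, h4⟩ := EReal.lt_iff_exists_real_btwn.1 h3
    exact ⟨C, a, b, hC, hrC, ha, by exact_mod_cast hb, by exact_mod_cast h4⟩
  choose! C a b hC hrC hτ hab hb using h1
  let U : (Fin m → ℝ) → Set (Fin m → ℝ) := fun r => C r ∩ {v | b r * nrm v < ∑ i, v i * y i}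
  have hU : ∀ r ∈ stdSimplex ℝ (Fin m), IsOpenCone (U r) := fun r hr =>
    cone_inter (hC r hr) (cone_gt y (b r))
  obtain ⟨T, hT, hcov⟩ := (isCompact_stdSimplex ℝ (Fin m)).elim_nhds_subcover U (by
    intro r hr
    refine (hU r hr).1.mem_nhds ⟨hrC r hr, ?_⟩
    simp only [Set.mem_setOf_eq]
    rw [nrm_simplex hr, mul_one]
    exact hb r hr)
  -- the choice of epsilon
  obtain ⟨ε, hε0, hε1, hε2⟩ : ∃ ε : ℝ, 0 < ε ∧ (∀ r ∈ T, 2 * ε < b r - a r) ∧
      ∀ i, ε < y i := by
    have e1 : ∀ᶠ ε : ℝ in 𝓝[>] 0, ∀ r ∈ T, 2 * ε < b r - a r := by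
      rw [Filter.eventually_all_finset]
      intro r hr
      apply nhdsWithin_le_nhds
      have : Tendsto (fun ε : ℝ => 2 * ε) (𝓝 0) (𝓝 (2 * 0)) := tendsto_id.const_mul 2
      rw [mul_zero] at this
      exact this.eventually_lt_const (sub_pos.2 (hab r (hT r hr)))
    have e2 : ∀ᶠ ε : ℝ in 𝓝[>] 0, ∀ i, ε < y i := by
      rw [Filter.eventually_all]
      intro i
      apply nhdsWithin_le_nhds
      exact (tendsto_id (α := ℝ)).eventually_lt_const (hy i)
    have e3 : ∀ᶠ ε : ℝ in 𝓝[>] 0, 0 < ε := eventually_mem_nhdsWithin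
    obtain ⟨ε, h1, h2, h3⟩ := (e1.and (e2.and e3)).exists
    exact ⟨ε, h3, h1, h2⟩
  set x : Fin m → ℝ := fun i => Real.exp (-(y i - ε)) with hx
  have hx01 : ∀ i, 0 < x i ∧ x i < 1 := fun i =>
    ⟨Real.exp_pos _, by rw [hx]; simp only; rw [Real.exp_lt_one_iff]; linarith [hε2 i]⟩
  have hZ : ZH H x = ⊤ := by
    apply hdiv x hx01
    have := sum_phi_lt (fun i => y i - ε) hm ε hε0
    simp only [sub_add_cancel] at this
    rw [hcrit] at this
    exact this
  -- the large radii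
  obtain ⟨R0, hR0⟩ : ∃ R0 : ℝ, ∀ R ≥ R0, ∀ r ∈ T, nu H ({v | R ≤ nrm v ∧ nrm v < R + 1} ∩ C r) ≤
      ENNReal.ofReal (Real.exp (a r * R)) := by
    rw [← eventually_atTop (α := ℝ), Filter.eventually_all_finset]
    exact fun r hr => bound_of_tau_lt (hτ r (hT r hr))
  obtain ⟨n0, hn0⟩ := exists_nat_ge (max R0 1)
  have hn01 : 1 ≤ n0 := by exact_mod_cast (le_max_right R0 1).trans hn0
  -- decomposition by length
  let t : ℕ → ℝ≥0∞ := fun n => ∑' w : F m, if w ∈ H ∧ len w = n then wE x w else 0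
  have hdecomp : ZH H x = ∑' n, t n := by
    change ∑' w, _ = ∑' n, ∑' w, _
    rw [ENNReal.tsum_comm]
    refine tsum_congr fun w => ?_
    by_cases hw : w ∈ H
    · simp only [hw, true_and, if_true]
      rw [tsum_eq_single (len w)]
      · simp
      · intro n hn
        rw [if_neg (Ne.symm hn)]
    · simp [hw]
  have hfin : ∀ n, t n < ⊤ := by
    intro n
    have hsub : t n ≤ ∑' w : F m, {w : F m | len w = n}.indicator (fun _ => (1 : ℝ≥0∞)) w := by
      refine ENNReal.tsum_le_tsum fun w => ?_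
      by_cases h : w ∈ H ∧ len w = n
      · rw [if_pos h, Set.indicator_of_mem (by exact h.2), wE, ← ENNReal.ofReal_one]
        exact ENNReal.ofReal_le_ofReal (wt_le_one hx01 w)
      · rw [if_neg h]
        exact zero_le
    refine hsub.trans_lt ?_
    rw [← _root_.tsum_subtype, ENNReal.tsum_set_one]
    rw [ENat.toENNReal_lt_top]
    exact (finite_len n).encard_lt_top
  have hbig : ∀ n, n0 ≤ n → t n ≤ T.card * ENNReal.ofReal (Real.exp (-ε)) ^ n := by
    intro n hn
    have hn1 : 1 ≤ n := hn01.trans hn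
    have hnR : R0 ≤ (n : ℝ) := by
      refine ((le_max_left R0 1).trans hn0).trans ?_
      exact_mod_cast hn
    have hnpos : (0 : ℝ) < n := by exact_mod_cast hn1
    have hpt : ∀ w : F m, (if w ∈ H ∧ len w = n then wE x w else 0) ≤
        ∑ r ∈ T, if w ∈ H ∧ par w ∈ ({v | (n : ℝ) ≤ nrm v ∧ nrm v < n + 1} ∩ C r) then
          ENNReal.ofReal (Real.exp ((ε - b r) * n)) else 0 := by
      intro w
      by_cases h : w ∈ H ∧ len w = n
      · rw [if_pos h]
        obtain ⟨hwH, hwn⟩ := h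
        have hnrm : nrm (par w) = n := by rw [nrm_par, hwn]
        have hmem : ((n : ℝ)⁻¹ • par w) ∈ stdSimplex ℝ (Fin m) := by
          refine ⟨fun i => ?_, ?_⟩
          · rw [Pi.smul_apply, smul_eq_mul]
            exact mul_nonneg (inv_pos.2 hnpos).le (par_nonneg w i)
          · simp only [Pi.smul_apply, smul_eq_mul]
            rw [← mul_sum, sum_par, hwn, inv_mul_cancel₀ hnpos.ne']
        obtain ⟨r, hrT, hr⟩ := Set.mem_iUnion₂.1 (hcov hmem)
        have hU' : par w ∈ U r := by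
          have := (hU r (hT r hrT)).2 n hnpos _ hr
          rwa [smul_smul, mul_inv_cancel₀ hnpos.ne', one_smul] at this
        refine le_trans ?_ (single_le_sum (f := fun r => if w ∈ H ∧ par w ∈
          ({v | (n : ℝ) ≤ nrm v ∧ nrm v < n + 1} ∩ C r) then
          ENNReal.ofReal (Real.exp ((ε - b r) * n)) else 0) (fun _ _ => zero_le) hrT)
        rw [if_pos ⟨hwH, ⟨⟨hnrm.ge, by rw [hnrm]; linarith⟩, hU'.1⟩⟩, wE, hx, wt_exp]
        apply ENNReal.ofReal_le_ofReal
        rw [Real.exp_le_exp]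
        have h2 : b r * n < ∑ i, par w i * y i := by
          have := hU'.2
          simp only [Set.mem_setOf_eq] at this
          rwa [hnrm] at this
        have h3 : ∑ i, par w i * (y i - ε) = ∑ i, par w i * y i - ε * n := by
          simp only [mul_sub, sum_sub_distrib, ← sum_mul, sum_par, hwn]
          ring
        rw [h3]
        linarith
      · rw [if_neg h]
        exact zero_le
    calc t n ≤ ∑' w : F m, ∑ r ∈ T,
        (if w ∈ H ∧ par w ∈ ({v | (n : ℝ) ≤ nrm v ∧ nrm v < n + 1} ∩ C r) then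
          ENNReal.ofReal (Real.exp ((ε - b r) * n)) else 0) := ENNReal.tsum_le_tsum hpt
      _ = ∑ r ∈ T, ENNReal.ofReal (Real.exp ((ε - b r) * n)) *
          nu H ({v | (n : ℝ) ≤ nrm v ∧ nrm v < n + 1} ∩ C r) := by
          rw [Summable.tsum_finsetSum fun _ _ => ENNReal.summable]
          refine sum_congr rfl fun r _ => ?_
          rw [← tsum_nu H]
          refine tsum_congr fun w => ?_
          congr
      _ ≤ ∑ r ∈ T, ENNReal.ofReal (Real.exp (-ε)) ^ n := by
          refine sum_le_sum fun r hr => ?_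
          calc _ ≤ ENNReal.ofReal (Real.exp ((ε - b r) * n)) *
                ENNReal.ofReal (Real.exp (a r * n)) := by
                gcongr
                exact hR0 n hnR r hr
            _ = ENNReal.ofReal (Real.exp ((ε - b r + a r) * n)) := by
                rw [← ENNReal.ofReal_mul (Real.exp_pos _).le, ← Real.exp_add]
                congr 2
                ring
            _ ≤ ENNReal.ofReal (Real.exp (-ε)) ^ n := by
                rw [← ENNReal.ofReal_pow (Real.exp_pos _).le, ← Real.exp_nat_mul]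
                apply ENNReal.ofReal_le_ofReal
                rw [Real.exp_le_exp]
                have := hε1 r hr
                nlinarith
      _ = T.card * ENNReal.ofReal (Real.exp (-ε)) ^ n := by
          rw [sum_const, nsmul_eq_mul]
  have hq : ENNReal.ofReal (Real.exp (-ε)) < 1 := by
    rw [← ENNReal.ofReal_one, ENNReal.ofReal_lt_ofReal_iff one_pos, Real.exp_lt_one_iff]
    linarith
  have hsum : ∑' n, t n < ⊤ := by
    rw [← Summable.sum_add_tsum_nat_add' (f := t) (k := n0) ENNReal.summable]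
    refine ENNReal.add_lt_top.2 ⟨?_, ?_⟩
    · exact ENNReal.sum_lt_top.2 fun n _ => hfin n
    · refine (ENNReal.tsum_le_tsum fun n => hbig (n + n0) (by omega)).trans_lt ?_
      rw [ENNReal.tsum_mul_left]
      refine ENNReal.mul_lt_top (ENNReal.natCast_lt_top _) ?_
      simp_rw [pow_add]
      rw [ENNReal.tsum_mul_right, ENNReal.tsum_geometric]
      refine ENNReal.mul_lt_top ?_ (ENNReal.pow_lt_top (hq.trans ENNReal.one_lt_top))
      exact ENNReal.inv_lt_top.2 (tsub_pos_of_lt hq)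
  rw [← hdecomp, hZ] at hsum
  exact lt_irrefl _ hsum

/-- the function `L(s) = log ((2 - s) / s)` -/
noncomputable def LL (s : ℝ) : ℝ := Real.log ((2 - s) / s)

theorem LL_pos {s : ℝ} (h0 : 0 < s) (h1 : s < 1) : 0 < LL s := by
  apply Real.log_pos
  rw [lt_div_iff₀ h0]
  linarith

theorem exp_neg_LL {s : ℝ} (h0 : 0 < s) (h1 : s < 1) : Real.exp (-LL s) = s / (2 - s) := by
  rw [LL, Real.exp_neg, Real.exp_log (div_pos (by linarith) h0), inv_div]

theorem phi_LL {s : ℝ} (h0 : 0 < s) (h1 : s < 1) :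
    2 * Real.exp (-LL s) / (1 + Real.exp (-LL s)) = s := by
  rw [exp_neg_LL h0 h1]
  have : (2 : ℝ) - s ≠ 0 := by linarith
  have h2 : 1 + s / (2 - s) = 2 / (2 - s) := by field_simp; ring
  rw [h2]
  field_simp

theorem hasDerivAt_LL {s : ℝ} (h0 : 0 < s) (h1 : s < 1) :
    HasDerivAt LL (-2 / (s * (2 - s))) s := by
  have h2 : (2 - s) / s ≠ 0 := (div_pos (by linarith) h0).ne'
  have h3 : HasDerivAt (fun s : ℝ => (2 - s) / s) ((-1 * s - (2 - s) * 1) / s ^ 2) s :=
    ((hasDerivAt_id s).const_sub 2).div (hasDerivAt_id s) h0.ne'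
  have h4 := h3.log h2
  have h5 : (2 : ℝ) - s ≠ 0 := by linarith
  have h6 : HasDerivAt LL ((-1 * s - (2 - s) * 1) / s ^ 2 / ((2 - s) / s)) s := h4
  refine h6.congr_deriv ?_
  field_simp
  ring

theorem exists_s {r : Fin m → ℝ} (hm : 2 ≤ m) (hr : r ∈ stdSimplex ℝ (Fin m))
    (hr0 : ∀ i, 0 < r i) : ∃ (s : Fin m → ℝ) (κ : ℝ), 0 < κ ∧ (∀ i, 0 < s i ∧ s i < 1) ∧
      ∑ i, s i = 1 ∧ ∀ i, s i * (2 - s i) = κ * r i := by
  have hne : Nonempty (Fin m) := ⟨⟨0, by omega⟩⟩
  obtain ⟨j, hj⟩ := Finite.exists_max r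
  let g : ℝ → ℝ := fun κ => ∑ i, (1 - √(1 - κ * r i))
  have hg : Continuous g := by
    change Continuous fun κ => ∑ i, (1 - √(1 - κ * r i))
    fun_prop
  have hg0 : g 0 = 0 := by
    change ∑ i, (1 - √(1 - 0 * r i)) = 0
    simp
  have hjp := hr0 j
  have hg1 : 1 ≤ g (1 / r j) := by
    have h1 : ∀ i, 0 ≤ 1 - √(1 - 1 / r j * r i) := by
      intro i
      have : 0 ≤ 1 / r j * r i := mul_nonneg (by positivity) (hr0 i).le
      rw [sub_nonneg]
      exact Real.sqrt_le_iff.2 ⟨zero_le_one, by linarith⟩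
    have h2 : 1 - √(1 - 1 / r j * r j) ≤ g (1 / r j) :=
      single_le_sum (f := fun i => 1 - √(1 - 1 / r j * r i)) (fun i _ => h1 i) (mem_univ j)
    rw [one_div_mul_cancel hjp.ne', sub_self, Real.sqrt_zero, sub_zero] at h2
    exact h2
  obtain ⟨κ, ⟨hκ0, hκ1⟩, hκ⟩ := intermediate_value_Icc (by positivity : (0 : ℝ) ≤ 1 / r j)
    hg.continuousOn ⟨by rw [hg0]; norm_num, hg1⟩
  have hκpos : 0 < κ := by
    rcases hκ0.eq_or_lt with h | h
    · rw [← h, hg0] at hκ
      norm_num at hκ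
    · exact h
  have hle : ∀ i, 0 ≤ 1 - κ * r i := by
    intro i
    have h1 : κ * r i ≤ 1 / r j * r j :=
      mul_le_mul hκ1 (hj i) (hr0 i).le (by positivity)
    rw [one_div_mul_cancel hjp.ne'] at h1
    linarith
  have hs : ∀ i, (1 - √(1 - κ * r i)) * (2 - (1 - √(1 - κ * r i))) = κ * r i := by
    intro i
    have := Real.mul_self_sqrt (hle i)
    nlinarith
  have hs0 : ∀ i, 0 < 1 - √(1 - κ * r i) := by
    intro i
    have h1 : √(1 - κ * r i) < 1 := by
      rw [Real.sqrt_lt' one_pos]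
      have := mul_pos hκpos (hr0 i)
      linarith
    linarith
  refine ⟨fun i => 1 - √(1 - κ * r i), κ, hκpos, fun i => ⟨hs0 i, ?_⟩, hκ, hs⟩
  obtain ⟨k, hk⟩ : ∃ k : Fin m, k ≠ i := by
    have : Nontrivial (Fin m) := Fin.nontrivial_iff_two_le.2 hm
    exact exists_ne i
  have h2 : (1 - √(1 - κ * r i)) + (1 - √(1 - κ * r k)) ≤ g κ := by
    have h3 : ∑ l ∈ ({i, k} : Finset (Fin m)), (1 - √(1 - κ * r l)) ≤ g κ :=
      sum_le_sum_of_subset_of_nonneg (subset_univ _) fun l _ _ => (hs0 l).le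
    rwa [sum_pair (Ne.symm hk)] at h3
  have := hs0 k
  simp only
  linarith

theorem exists_better {r r0 s : Fin m → ℝ} {κ : ℝ} (hr : r ∈ stdSimplex ℝ (Fin m))
    (hr0 : r0 ∈ stdSimplex ℝ (Fin m)) (hκ : 0 < κ) (hs : ∀ i, 0 < s i ∧ s i < 1)
    (hsum : ∑ i, s i = 1) (hsr : ∀ i, s i * (2 - s i) = κ * r0 i) (hne : r ≠ r0) :
    ∃ s' : Fin m → ℝ, (∀ i, 0 < s' i ∧ s' i < 1) ∧ ∑ i, s' i = 1 ∧
      ∑ i, r i * LL (s' i) < ∑ i, r i * LL (s i) := by
  obtain ⟨i, j, hij⟩ : ∃ i j, r i * r0 j ≠ r j * r0 i := by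
    by_contra h
    push Not at h
    apply hne
    ext i
    have h1 : ∑ j, r i * r0 j = ∑ j, r j * r0 i := sum_congr rfl fun j _ => h i j
    rw [← mul_sum, ← sum_mul, hr.2, hr0.2, mul_one, one_mul] at h1
    exact h1
  have hne' : i ≠ j := by
    rintro rfl
    exact hij rfl
  let q : ℝ → ℝ := fun t => r i * LL (s i + t) + r j * LL (s j - t)
  have hpos : ∀ i, 0 < s i * (2 - s i) := fun i => mul_pos (hs i).1 (by linarith [(hs i).2])
  have hq : HasDerivAt q (r i * (-2 / (s i * (2 - s i))) - r j * (-2 / (s j * (2 - s j)))) 0 := by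
    have e1 : HasDerivAt (fun t : ℝ => LL (s i + t)) (-2 / (s i * (2 - s i))) 0 := by
      have h1 : HasDerivAt LL (-2 / (s i * (2 - s i))) (s i + 0) := by
        rw [add_zero]
        exact hasDerivAt_LL (hs i).1 (hs i).2
      exact h1.comp_const_add (s i) 0
    have e2 : HasDerivAt (fun t : ℝ => LL (s j - t)) (-(-2 / (s j * (2 - s j)))) 0 := by
      have h1 : HasDerivAt LL (-2 / (s j * (2 - s j))) (s j - 0) := by
        rw [sub_zero]
        exact hasDerivAt_LL (hs j).1 (hs j).2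
      exact h1.comp_const_sub (s j) 0
    refine HasDerivAt.congr_deriv ((e1.const_mul (r i)).add (e2.const_mul (r j))) ?_
    ring
  have hq0 : r i * (-2 / (s i * (2 - s i))) - r j * (-2 / (s j * (2 - s j))) ≠ 0 := by
    intro h
    apply hij
    have h1 := (hpos i).ne'
    have h2 := (hpos j).ne'
    have h3 : r i * (s j * (2 - s j)) = r j * (s i * (2 - s i)) := by
      have h4 : r i * (-2 / (s i * (2 - s i))) = r j * (-2 / (s j * (2 - s j))) := by linarith
      rw [mul_div_assoc', mul_div_assoc', div_eq_div_iff h1 h2] at h4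
      linarith
    rw [hsr, hsr] at h3
    have h5 : κ * (r i * r0 j) = κ * (r j * r0 i) := by linarith
    exact mul_left_cancel₀ hκ.ne' h5
  have hfreq : ∃ᶠ t in 𝓝 (0 : ℝ), q t < q 0 := by
    intro h
    apply hq0
    have hmin : IsLocalMin q 0 := by
      filter_upwards [h] with t ht
      exact not_lt.1 ht
    exact hmin.hasDerivAt_eq_zero hq
  have e1 : ∀ᶠ t in 𝓝 (0 : ℝ), 0 < s i + t ∧ s i + t < 1 := by
    have h1 : Tendsto (fun t : ℝ => s i + t) (𝓝 0) (𝓝 (s i + 0)) := tendsto_id.const_add _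
    rw [add_zero] at h1
    exact (h1.eventually_const_lt (hs i).1).and (h1.eventually_lt_const (hs i).2)
  have e2 : ∀ᶠ t in 𝓝 (0 : ℝ), 0 < s j - t ∧ s j - t < 1 := by
    have h1 : Tendsto (fun t : ℝ => s j - t) (𝓝 0) (𝓝 (s j - 0)) := tendsto_id.const_sub _
    rw [sub_zero] at h1
    exact (h1.eventually_const_lt (hs j).1).and (h1.eventually_lt_const (hs j).2)
  obtain ⟨t, ht, ht1, ht2⟩ := (hfreq.and_eventually (e1.and e2)).exists
  let s' : Fin m → ℝ := fun k => if k = i then s i + t else if k = j then s j - t else s k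
  have hs'i : s' i = s i + t := if_pos rfl
  have hs'j : s' j = s j - t := by
    change (if j = i then _ else _) = _
    rw [if_neg (Ne.symm hne'), if_pos rfl]
  have hs'k : ∀ k, k ≠ i ∧ k ≠ j → s' k = s k := by
    rintro k ⟨h1, h2⟩
    change (if k = i then _ else _) = _
    rw [if_neg h1, if_neg h2]
  refine ⟨s', fun k => ?_, ?_, ?_⟩
  · by_cases h1 : k = i
    · rw [h1, hs'i]; exact ht1
    · by_cases h2 : k = j
      · rw [h2, hs'j]; exact ht2
      · rw [hs'k k ⟨h1, h2⟩]; exact hs k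
  · have h1 : ∑ k, (s' k - s k) = (s' i - s i) + (s' j - s j) :=
      Fintype.sum_eq_add i j hne' fun k hk => by rw [hs'k k hk, sub_self]
    rw [sum_sub_distrib, hs'i, hs'j, hsum] at h1
    linarith
  · have h1 : ∑ k, (r k * LL (s' k) - r k * LL (s k)) =
        (r i * LL (s' i) - r i * LL (s i)) + (r j * LL (s' j) - r j * LL (s j)) :=
      Fintype.sum_eq_add i j hne' fun k hk => by rw [hs'k k hk, sub_self]
    rw [sum_sub_distrib, hs'i, hs'j] at h1
    have h2 : q t < q 0 := ht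
    change r i * LL (s i + t) + r j * LL (s j - t) < r i * LL (s i + 0) + r j * LL (s j - 0) at h2
    rw [add_zero, sub_zero] at h2
    linarith

/-- the lower bound in interior directions -/
theorem interior {H : Subgroup (FreeGroup (Fin m))} (hm : 2 ≤ m) (hdiv : Dv H)
    {r : Fin m → ℝ} (hr : r ∈ stdSimplex ℝ (Fin m)) (hr0 : ∀ i, 0 < r i) :
    ∃ y : Fin m → ℝ, (∀ i, 0 < y i) ∧
      (∀ r' ∈ stdSimplex ℝ (Fin m), psi (⊤ : Subgroup (FreeGroup (Fin m))) r' ≤
        ((∑ i, r' i * y i : ℝ) : EReal)) ∧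
      ((∑ i, r i * y i : ℝ) : EReal) ≤ psi H r := by
  obtain ⟨s, κ, hκ, hs, hsum, hsr⟩ := exists_s hm hr hr0
  have hphi : ∀ s : Fin m → ℝ, (∀ i, 0 < s i ∧ s i < 1) → ∑ i, s i = 1 →
      ∑ i, 2 * Real.exp (-LL (s i)) / (1 + Real.exp (-LL (s i))) = 1 := by
    intro s hs hsum
    exact (sum_congr rfl fun i _ => phi_LL (hs i).1 (hs i).2).trans hsum
  have hup : ∀ s : Fin m → ℝ, (∀ i, 0 < s i ∧ s i < 1) → ∑ i, s i = 1 →
      ∀ r' ∈ stdSimplex ℝ (Fin m), psi (⊤ : Subgroup (FreeGroup (Fin m))) r' ≤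
        ((∑ i, r' i * LL (s i) : ℝ) : EReal) := by
    intro s hs hsum r' hr'
    exact psi_le (y := fun i => LL (s i)) (by omega) (fun i => LL_pos (hs i).1 (hs i).2)
      (hphi s hs hsum).le hr'
  refine ⟨fun i => LL (s i), fun i => LL_pos (hs i).1 (hs i).2, hup s hs hsum, ?_⟩
  by_contra hcon
  rw [not_le] at hcon
  refine tilt (y := fun i => LL (s i)) (by omega) hdiv (fun i => LL_pos (hs i).1 (hs i).2)
    (hphi s hs hsum) fun r' hr' => ?_
  by_cases h : r' = r
  · rw [h]; exact hcon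
  · obtain ⟨s', hs', hsum', hlt⟩ := exists_better hr' hr hκ hs hsum hsr h
    refine (psi_mono le_top r').trans_lt ((hup s' hs' hsum' r' hr').trans_lt ?_)
    exact_mod_cast hlt

/-- divergence above the critical surface gives the full multivariate cogrowth -/
theorem psi_eq {H : Subgroup (FreeGroup (Fin m))} (hm : 2 ≤ m) (hdiv : Dv H)
    {r : Fin m → ℝ} (hr : r ∈ stdSimplex ℝ (Fin m)) :
    psi H r = psi (⊤ : Subgroup (FreeGroup (Fin m))) r := by
  refine le_antisymm (psi_mono le_top r) ?_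
  refine le_sInf ?_
  rintro _ ⟨C, ⟨hC, hrC⟩, rfl⟩
  rw [← EReal.ge_of_forall_gt_iff_ge]
  intro z hz
  obtain ⟨z', hz1, hz2⟩ := EReal.lt_iff_exists_real_btwn.1 hz
  have hzz : z < z' := by exact_mod_cast hz1
  have hm0 : (0 : ℝ) < m := by
    have : (2 : ℝ) ≤ m := by exact_mod_cast hm
    linarith
  let rt : ℝ → Fin m → ℝ := fun t i => (1 - t) * r i + t * (1 / m)
  have hrt : Continuous rt := by
    change Continuous fun t : ℝ => fun i : Fin m => (1 - t) * r i + t * (1 / m)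
    fun_prop
  have hrt0 : rt 0 = r := by
    ext i
    change (1 - 0) * r i + 0 * (1 / m) = r i
    ring
  have e1 : ∀ᶠ t in 𝓝[>] (0 : ℝ), rt t ∈ C := by
    apply nhdsWithin_le_nhds
    have : Tendsto rt (𝓝 0) (𝓝 (rt 0)) := hrt.tendsto 0
    rw [hrt0] at this
    exact this (hC.1.mem_nhds hrC)
  have e2 : ∀ᶠ t in 𝓝[>] (0 : ℝ), z < (1 - t) * z' := by
    apply nhdsWithin_le_nhds
    have : Tendsto (fun t : ℝ => (1 - t) * z') (𝓝 0) (𝓝 ((1 - 0) * z')) :=
      (tendsto_id.const_sub 1).mul_const z'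
    rw [sub_zero, one_mul] at this
    exact this.eventually_const_lt hzz
  have e3 : ∀ᶠ t in 𝓝[>] (0 : ℝ), 0 < t := eventually_mem_nhdsWithin
  have e4 : ∀ᶠ t in 𝓝[>] (0 : ℝ), t < 1 :=
    nhdsWithin_le_nhds ((tendsto_id (α := ℝ)).eventually_lt_const one_pos)
  obtain ⟨t, h1, h2, h3, h4⟩ := (e1.and (e2.and (e3.and e4))).exists
  have hmem : rt t ∈ stdSimplex ℝ (Fin m) := by
    refine ⟨fun i => ?_, ?_⟩
    · change 0 ≤ (1 - t) * r i + t * (1 / m)
      have := mul_nonneg (sub_nonneg.2 h4.le) (hr.1 i)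
      positivity
    · change ∑ i, ((1 - t) * r i + t * (1 / m)) = 1
      rw [sum_add_distrib, ← mul_sum, hr.2, sum_const, card_univ, Fintype.card_fin, nsmul_eq_mul]
      field_simp
      ring
  have hpos : ∀ i, 0 < rt t i := by
    intro i
    change 0 < (1 - t) * r i + t * (1 / m)
    have := mul_nonneg (sub_nonneg.2 h4.le) (hr.1 i)
    positivity
  obtain ⟨y, hy, hup, hlow⟩ := interior hm hdiv hmem hpos
  have h5 : z' < ∑ i, r i * y i := by
    have := hz2.trans_le (hup r hr)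
    exact_mod_cast this
  have h6 : z ≤ ∑ i, rt t i * y i := by
    have h7 : ∑ i, rt t i * y i = (1 - t) * ∑ i, r i * y i + t * (1 / m) * ∑ i, y i := by
      rw [mul_sum, mul_sum, ← sum_add_distrib]
      refine sum_congr rfl fun i _ => ?_
      change ((1 - t) * r i + t * (1 / m)) * y i = _
      ring
    have h8 : 0 ≤ t * (1 / m) * ∑ i, y i := by
      have : 0 ≤ ∑ i, y i := sum_nonneg fun i _ => (hy i).le
      positivity
    have h9 : (1 - t) * z' ≤ (1 - t) * ∑ i, r i * y i :=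
      mul_le_mul_of_nonneg_left h5.le (sub_nonneg.2 h4.le)
    rw [h7]
    linarith
  calc (z : EReal) ≤ ((∑ i, rt t i * y i : ℝ) : EReal) := by exact_mod_cast h6
    _ ≤ psi H (rt t) := hlow
    _ ≤ tau H C := psi_le_tau hC h1

end Pool.Agent.Q106.Cog
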