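import Mathlib

/-! Left multiplication by letters in a free group, and weights of words. -/

namespace Pool.Agent.Q106.Cog

open Finset

open scoped ENNReal

variable {m : ℕ}

/-- the free group -/
abbrev F (m : ℕ) := FreeGroup (Fin m)

/-- the letters -/
abbrev Let (m : ℕ) := Fin m × Bool

/-- the group element of a letter -/
def el (a : Let m) : F m := FreeGroup.mk [a]

/-- the inverse letter -/
def iv (a : Let m) : Let m := (a.1, !a.2)

theorem iv_iv (a : Let m) : iv (iv a) = a := by simp [iv]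

theorem el_iv (a : Let m) : el (iv a) = (el a)⁻¹ := by
  simp [el, iv, FreeGroup.inv_mk, FreeGroup.invRev]

theorem toWord_el_mul (a : Let m) (w : F m) :
    (el a * w).toWord = List.casesOn w.toWord [a] fun hd tl =>
      if a.1 = hd.1 ∧ a.2 = !hd.2 then tl else a :: hd :: tl := by
  conv_lhs => rw [← FreeGroup.mk_toWord (x := w), el, FreeGroup.mul_mk, FreeGroup.toWord_mk]
  rw [List.singleton_append, FreeGroup.reduce.cons, FreeGroup.reduce_toWord]

theorem toWord_el (a : Let m) : (el a).toWord = [a] := by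
  have := toWord_el_mul a 1
  rw [mul_one] at this
  rw [this, FreeGroup.toWord_one]

theorem cond_iff (a b : Let m) : (a.1 = b.1 ∧ a.2 = !b.2) ↔ a = iv b := by
  rw [iv, Prod.ext_iff]

/-- a nontrivial word is a letter times a shorter word -/
theorem exists_first {w : F m} (hw : w ≠ 1) : ∃ (b : Let m) (v : F m), w = el b * v ∧
    w.toWord = b :: v.toWord := by
  cases h : w.toWord with
  | nil => exact absurd (FreeGroup.toWord_eq_nil_iff.1 h) hw
  | cons b L =>
    have h1 : (el (iv b) * w).toWord = L := by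
      rw [toWord_el_mul, h]
      simp [iv]
    refine ⟨b, el (iv b) * w, ?_, by rw [h1]⟩
    rw [← mul_assoc, el_iv, mul_inv_cancel, one_mul]

/-- the weight of a letter list -/
def wt (x : Fin m → ℝ) (w : F m) : ℝ := (w.toWord.map fun p => x p.1).prod

theorem wt_one (x : Fin m → ℝ) : wt x 1 = 1 := by simp [wt]

theorem wt_pos {x : Fin m → ℝ} (hx : ∀ i, 0 < x i) (w : F m) : 0 < wt x w := by
  rw [wt]
  apply List.prod_pos
  intro a ha
  rw [List.mem_map] at ha
  obtain ⟨p, -, rfl⟩ := ha
  exact hx p.1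

/-- the weights of the neighbours -/
theorem wt_el_mul {x : Fin m → ℝ} (hx : ∀ i, 0 < x i) {w v : F m} {b : Let m}
    (h1 : w = el b * v) (h2 : w.toWord = b :: v.toWord) (a : Let m) :
    wt x (el a * w) = if a = iv b then wt x w / x b.1 else x a.1 * wt x w := by
  have h3 : wt x w = x b.1 * wt x v := by
    simp [wt, h2]
  split_ifs with h
  · rw [h3, h, h1, el_iv, inv_mul_cancel_left, mul_div_cancel_left₀ _ (hx _).ne']
  · have h4 : (el a * w).toWord = a :: w.toWord := by
      rw [toWord_el_mul, h2]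
      simp only
      rw [if_neg (by rwa [cond_iff])]
    simp [wt, h4]

theorem sum_letters (φ : Fin m → ℝ) : ∑ a : Let m, φ a.1 = 2 * ∑ i, φ i := by
  rw [Fintype.sum_prod_type, mul_sum]
  refine sum_congr rfl fun i _ => ?_
  simp

/-- the numbers `c_i` -/
noncomputable def cc (x : Fin m → ℝ) (i : Fin m) : ℝ := x i / (1 - x i ^ 2)

/-- the number `D` -/
noncomputable def DD (x : Fin m → ℝ) : ℝ := 1 + ∑ i, 2 * (x i * cc x i)

theorem cc_pos {x : Fin m → ℝ} (hx : ∀ i, 0 < x i ∧ x i < 1) (i : Fin m) : 0 < cc x i := by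
  obtain ⟨h0, h1⟩ := hx i
  exact div_pos h0 (by nlinarith)

theorem DD_pos {x : Fin m → ℝ} (hx : ∀ i, 0 < x i ∧ x i < 1) : 0 < DD x := by
  have : 0 ≤ ∑ i, 2 * (x i * cc x i) :=
    sum_nonneg fun i _ => mul_nonneg zero_le_two (mul_nonneg (hx i).1.le (cc_pos hx i).le)
  rw [DD]
  linarith

theorem DD_sub {x : Fin m → ℝ} (hx : ∀ i, 0 < x i ∧ x i < 1) :
    DD x - ∑ a : Let m, cc x a.1 = 1 - ∑ i, 2 * x i / (1 + x i) := by
  rw [sum_letters, DD, mul_sum]
  have : ∀ i, 2 * (x i * cc x i) = 2 * cc x i - 2 * x i / (1 + x i) := by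
    intro i
    obtain ⟨h0, h1⟩ := hx i
    have e1 : (1 : ℝ) - x i ^ 2 ≠ 0 := by nlinarith
    have e2 : (1 : ℝ) + x i ≠ 0 := by linarith
    have e3 : (1 : ℝ) - x i ≠ 0 := by linarith
    have e4 : (1 : ℝ) - x i ^ 2 = (1 - x i) * (1 + x i) := by ring
    rw [cc, e4]
    field_simp
    ring
  rw [sum_congr rfl fun i _ => this i, sum_sub_distrib]
  ring

/-- the main identity -/
theorem identity {x : Fin m → ℝ} (hx : ∀ i, 0 < x i ∧ x i < 1) (w : F m) :
    DD x * wt x w = (if w = 1 then 1 else 0) + ∑ a : Let m, cc x a.1 * wt x (el a * w) := by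
  by_cases hw : w = 1
  · subst hw
    simp only [mul_one, if_true, wt_one]
    have : ∀ a : Let m, wt x (el a) = x a.1 := by
      intro a
      simp [wt, toWord_el]
    simp_rw [this]
    rw [sum_letters (fun i => cc x i * x i), DD, mul_sum]
    congr 1
    exact sum_congr rfl fun i _ => by ring
  · obtain ⟨b, v, h1, h2⟩ := exists_first hw
    rw [if_neg hw, zero_add]
    have h3 : ∀ a : Let m, cc x a.1 * wt x (el a * w) = cc x a.1 * x a.1 * wt x w +
        if a = iv b then wt x w else 0 := by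
      intro a
      rw [wt_el_mul (fun i => (hx i).1) h1 h2 a]
      split_ifs with h
      · subst h
        change cc x b.1 * (wt x w / x b.1) = cc x b.1 * x b.1 * wt x w + wt x w
        obtain ⟨h0, h1⟩ := hx b.1
        have e1 : (1 : ℝ) - x b.1 ^ 2 ≠ 0 := by nlinarith
        rw [cc]
        field_simp
        ring
      · ring
    rw [sum_congr rfl fun a _ => h3 a, sum_add_distrib, sum_ite_eq' univ (iv b), if_pos (mem_univ _),
      ← sum_mul, sum_letters (fun i => cc x i * x i), DD, mul_sum]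
    rw [add_mul, one_mul, add_comm]
    congr 2
    exact sum_congr rfl fun i _ => by ring

end Pool.Agent.Q106.Cog
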