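import Mathlib

/-!
# The group of Kurosh

`Γ = ⟨a_n, b_n (n ≥ 0) | a_{n+1} b_n a_{n+1}⁻¹ b_n⁻¹ = a_n⟩`.
-/

set_option autoImplicit false

namespace Pool.Agent.Q106.Kurosh

/-- The relator `a_{n+1} b_n a_{n+1}⁻¹ b_n⁻¹ a_n⁻¹`. -/
def rel (n : ℕ) : FreeGroup (ℕ ⊕ ℕ) :=
  FreeGroup.of (Sum.inl (n + 1)) * FreeGroup.of (Sum.inr n) * (FreeGroup.of (Sum.inl (n + 1)))⁻¹ *
    (FreeGroup.of (Sum.inr n))⁻¹ * (FreeGroup.of (Sum.inl n))⁻¹

/-- The group of Kurosh. -/
abbrev Gam : Type := PresentedGroup (Set.range rel)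

/-- The generators `a_n`. -/
def ga (n : ℕ) : Gam := PresentedGroup.of (Sum.inl n)
/-- The generators `b_n`. -/
def gb (n : ℕ) : Gam := PresentedGroup.of (Sum.inr n)

theorem rel_ga (n : ℕ) : ga (n + 1) * gb n * (ga (n + 1))⁻¹ * (gb n)⁻¹ = ga n := by
  have h : PresentedGroup.mk (Set.range rel) (rel n) = 1 :=
    PresentedGroup.mk_eq_one_iff.2 (Subgroup.subset_normalClosure ⟨n, rfl⟩)
  simp only [rel, map_mul, map_inv] at h
  exact mul_inv_eq_one.1 h

section Lift
variable {P : Type} [Group P]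

/-- The homomorphism defined by images of the generators. -/
def lift (A B : ℕ → P) (h : ∀ n, A (n + 1) * B n * (A (n + 1))⁻¹ * (B n)⁻¹ = A n) : Gam →* P :=
  PresentedGroup.toGroup (f := Sum.elim A B) (by
    rintro _ ⟨n, rfl⟩
    simp only [rel, map_mul, map_inv, FreeGroup.lift_apply_of, Sum.elim_inl, Sum.elim_inr]
    rw [h n, mul_inv_cancel])

@[simp] theorem lift_ga (A B : ℕ → P) (h) (n : ℕ) : lift A B h (ga n) = A n := by
  simp [lift, ga]
@[simp] theorem lift_gb (A B : ℕ → P) (h) (n : ℕ) : lift A B h (gb n) = B n := by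
  simp [lift, gb]

/-- Downward recursion: `down A B N k` is the image of `a_{N-k}`. -/
def down (A B : ℕ → P) (N : ℕ) : ℕ → P
  | 0 => A N
  | k + 1 => down A B N k * B (N - (k + 1)) * (down A B N k)⁻¹ * (B (N - (k + 1)))⁻¹

/-- The images of the `a_n` when they are given for `n ≥ N`. -/
def ext (A B : ℕ → P) (N : ℕ) (n : ℕ) : P := if N ≤ n then A n else down A B N (N - n)

theorem ext_ge (A B : ℕ → P) {N n : ℕ} (h : N ≤ n) : ext A B N n = A n := by simp [ext, h]

theorem ext_rel (A B : ℕ → P) (N : ℕ)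
    (h : ∀ n, N ≤ n → A (n + 1) * B n * (A (n + 1))⁻¹ * (B n)⁻¹ = A n) (n : ℕ) :
    ext A B N (n + 1) * B n * (ext A B N (n + 1))⁻¹ * (B n)⁻¹ = ext A B N n := by
  by_cases h1 : N ≤ n
  · rw [ext_ge A B h1, ext_ge A B (by omega : N ≤ n + 1)]
    exact h n h1
  · have h2 : ext A B N (n + 1) = down A B N (N - (n + 1)) := by
      by_cases h3 : N ≤ n + 1
      · obtain rfl : N = n + 1 := by omega
        simp [ext, down]
      · simp [ext, h3]
    have h3 : ext A B N n = down A B N ((N - (n + 1)) + 1) := by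
      rw [ext, if_neg h1]
      congr 1
      omega
    have h4 : N - ((N - (n + 1)) + 1) = n := by omega
    rw [h2, h3, down, h4]

end Lift

/-- `Γ` is generated by the `a_n` with `n ≥ N` and all the `b_n`. -/
theorem closure_eq (N : ℕ) (S : Subgroup Gam) (ha : ∀ n, N ≤ n → ga n ∈ S) (hb : ∀ n, gb n ∈ S) :
    S = ⊤ := by
  have h1 : ∀ k n, N ≤ n + k → ga n ∈ S := by
    intro k
    induction k with
    | zero => intro n hn; exact ha n (by omega)
    | succ k ih =>
      intro n hn
      rw [← rel_ga n]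
      have := ih (n + 1) (by omega)
      exact S.mul_mem (S.mul_mem (S.mul_mem this (hb n)) (S.inv_mem this)) (S.inv_mem (hb n))
  have h2 : ∀ n, ga n ∈ S := fun n => h1 N n (by omega)
  rw [eq_top_iff]
  intro x _
  obtain ⟨w, rfl⟩ := PresentedGroup.mk_surjective (Set.range rel) x
  induction w using FreeGroup.induction_on with
  | C1 => rw [map_one]; exact S.one_mem
  | of i =>
    rcases i with i | i
    · exact h2 i
    · exact hb i
  | inv_of i hi => rw [map_inv]; exact S.inv_mem (hi trivial)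
  | mul x y hx hy => rw [map_mul]; exact S.mul_mem (hx trivial) (hy trivial)

/-- Functions on the right cosets: a property invariant under the generators is constant. -/
theorem const_of_inv {M : Type} (N : ℕ) (F : Gam → M) (ha : ∀ n, N ≤ n → ∀ g, F (g * ga n) = F g)
    (hb : ∀ n, ∀ g, F (g * gb n) = F g) (g g' : Gam) : F g = F g' := by
  let S : Subgroup Gam :=
    { carrier := {s | ∀ g, F (g * s) = F g}
      one_mem' := by intro g; rw [mul_one]
      mul_mem' := by
        intro a b h1 h2 g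
        rw [← mul_assoc, h2, h1]
      inv_mem' := by
        intro a h1 g
        have := h1 (g * a⁻¹)
        rw [inv_mul_cancel_right] at this
        exact this.symm }
  have hS : S = ⊤ := closure_eq N S ha hb
  have h1 : g⁻¹ * g' ∈ S := by rw [hS]; trivial
  have := h1 g
  rw [mul_inv_cancel_left] at this
  exact this.symm

end Pool.Agent.Q106.Kurosh
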