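import Pool.Agent.Q106.KuroshA
import Pool.Agent.H599R3.RH.Bs

/-!
# Free factors of the group of Kurosh: the tree
-/

set_option autoImplicit false

namespace Pool.Agent.Q106.Kurosh

open Pool.Agent.H599R3.RH

/-- The free factor `Γ^{(N)}` generated by the `a_n`, `b_n` with `n ≥ N`. -/
def tail (N : ℕ) : Subgroup Gam :=
  Subgroup.closure ({x | ∃ n, N ≤ n ∧ x = ga n} ∪ {x | ∃ n, N ≤ n ∧ x = gb n})

theorem ga_mem_tail {N n : ℕ} (h : N ≤ n) : ga n ∈ tail N :=
  Subgroup.subset_closure (Or.inl ⟨n, h, rfl⟩)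
theorem gb_mem_tail {N n : ℕ} (h : N ≤ n) : gb n ∈ tail N :=
  Subgroup.subset_closure (Or.inr ⟨n, h, rfl⟩)

section Act

/-- Right translations on the first coordinate. -/
def rt : Gam →* Equiv.Perm (Gam × ZMod 2) where
  toFun x := ⟨fun p => (p.1 * x⁻¹, p.2), fun p => (p.1 * x, p.2),
    fun p => by simp, fun p => by simp⟩
  map_one' := by ext p <;> simp
  map_mul' x y := by
    ext p
    · simp [mul_assoc]
    · simp

theorem rt_apply (x : Gam) (p : Gam × ZMod 2) : rt x p = (p.1 * x⁻¹, p.2) := rfl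

variable (φ : Gam × ℕ → ZMod 2)

/-- The twisted right translation by `b_j`. -/
def tw (j : ℕ) : Equiv.Perm (Gam × ZMod 2) :=
  ⟨fun p => (p.1 * (gb j)⁻¹, p.2 + φ (p.1 * (gb j)⁻¹, j)),
    fun p => (p.1 * gb j, p.2 + φ (p.1, j)),
    fun p => by
      have : ∀ a b : ZMod 2, a + b + b = a := by decide
      ext <;> simp [this],
    fun p => by
      have : ∀ a b : ZMod 2, a + b + b = a := by decide
      ext <;> simp [this]⟩

theorem tw_apply (j : ℕ) (p : Gam × ZMod 2) :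
    tw φ j p = (p.1 * (gb j)⁻¹, p.2 + φ (p.1 * (gb j)⁻¹, j)) := rfl

theorem tw_symm_apply (j : ℕ) (p : Gam × ZMod 2) :
    (tw φ j)⁻¹ p = (p.1 * gb j, p.2 + φ (p.1, j)) := rfl

/-- Images of the `b_j`. -/
def bb (N : ℕ) (j : ℕ) : Equiv.Perm (Gam × ZMod 2) := if j < N then tw φ j else rt (gb j)

theorem bb_rel (N : ℕ) (n : ℕ) (h : N ≤ n) :
    rt (ga (n + 1)) * bb φ N n * (rt (ga (n + 1)))⁻¹ * (bb φ N n)⁻¹ = rt (ga n) := by
  have h1 : bb φ N n = rt (gb n) := by simp [bb, not_lt.2 h]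
  rw [h1, ← map_inv, ← map_inv, ← map_mul, ← map_mul, ← map_mul, rel_ga]

/-- The action of `Γ` on `Γ × ZMod 2` defined by `φ`. -/
def act (N : ℕ) : Gam →* Equiv.Perm (Gam × ZMod 2) :=
  lift (ext (fun n => rt (ga n)) (bb φ N) N) (bb φ N)
    (ext_rel _ _ N fun n hn => bb_rel φ N n hn)

theorem act_fst (N : ℕ) (x : Gam) (p : Gam × ZMod 2) : (act φ N x p).1 = p.1 * x⁻¹ := by
  let S : Subgroup Gam :=
    { carrier := {x | ∀ p, (act φ N x p).1 = p.1 * x⁻¹}
      one_mem' := by intro p; simp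
      mul_mem' := by
        intro a b h1 h2 p
        rw [map_mul, Equiv.Perm.mul_apply, h1, h2, mul_inv_rev, mul_assoc]
      inv_mem' := by
        intro a h1 p
        have h2 := h1 ((act φ N a⁻¹) p)
        rw [map_inv, Equiv.Perm.inv_def, Equiv.apply_symm_apply] at h2
        rw [map_inv, h2]
        simp }
  have hS : S = ⊤ := by
    apply closure_eq N
    · intro n hn p
      rw [act, lift_ga, ext_ge _ _ hn, rt_apply]
    · intro n p
      rw [act, lift_gb, bb]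
      split_ifs
      · rw [tw_apply]
      · rw [rt_apply]
  have : x ∈ S := by rw [hS]; trivial
  exact this p

theorem act_tail (N : ℕ) (x : Gam) (hx : x ∈ tail N) (p : Gam × ZMod 2) :
    act φ N x p = (p.1 * x⁻¹, p.2) := by
  revert p
  induction hx using Subgroup.closure_induction with
  | mem x h =>
    intro p
    rcases h with ⟨n, hn, rfl⟩ | ⟨n, hn, rfl⟩
    · rw [act, lift_ga, ext_ge _ _ hn, rt_apply]
    · rw [act, lift_gb, bb, if_neg (by omega), rt_apply]
  | one => intro p; simp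
  | mul x y _ _ h1 h2 =>
    intro p
    rw [map_mul, Equiv.Perm.mul_apply, h2, h1, mul_inv_rev, mul_assoc]
  | inv x _ h1 =>
    intro p
    rw [map_inv, Equiv.Perm.inv_eq_iff_eq, h1]
    simp

/-- The solution of the coboundary equation. -/
def sol (N : ℕ) (g : Gam) : ZMod 2 := ((act φ N g)⁻¹ (1, 0)).2

theorem sol_aux (N : ℕ) (g : Gam) : (act φ N g)⁻¹ (1, 0) = (g, sol φ N g) := by
  ext
  · rw [← map_inv, act_fst]
    simp
  · rfl

theorem sol_tail (N : ℕ) (g x : Gam) (hx : x ∈ tail N) : sol φ N (g * x) = sol φ N g := by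
  have h1 : (act φ N (g * x))⁻¹ (1, 0) = (g * x, sol φ N g) := by
    rw [map_mul, mul_inv_rev, Equiv.Perm.mul_apply, sol_aux, ← map_inv,
      act_tail φ N _ (inv_mem hx)]
    simp
  rw [sol, h1]

theorem sol_gb (N : ℕ) (g : Gam) (j : ℕ) (hj : j < N) :
    sol φ N (g * gb j) = sol φ N g + φ (g, j) := by
  have h1 : (act φ N (g * gb j))⁻¹ (1, 0) = (g * gb j, sol φ N g + φ (g, j)) := by
    rw [map_mul, mul_inv_rev, Equiv.Perm.mul_apply, sol_aux]
    have h2 : act φ N (gb j) = tw φ j := by rw [act, lift_gb, bb, if_pos hj]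
    rw [h2, tw_symm_apply]
  rw [sol, h1]

end Act

/-- The vertices. -/
abbrev Vt (N : ℕ) : Type := Gam ⧸ tail N
/-- The edges. -/
abbrev Ed (N : ℕ) : Type := Gam × Fin N

instance (N : ℕ) : MulAction Gam (Ed N) where
  smul g e := (g * e.1, e.2)
  one_smul e := by
    show (1 * e.1, e.2) = e
    rw [one_mul]
  mul_smul g h e := by
    show (g * h * e.1, e.2) = (g * (h * e.1), e.2)
    rw [mul_assoc]

theorem smul_Ed {N : ℕ} (g : Gam) (e : Ed N) : g • e = (g * e.1, e.2) := rfl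

theorem fun_conn {N : ℕ} {M : Type} (F : Vt N → M)
    (h : ∀ e : Ed N, F (QuotientGroup.mk (e.1 * gb e.2)) = F (QuotientGroup.mk e.1))
    (u v : Vt N) : F u = F v := by
  obtain ⟨x, rfl⟩ := QuotientGroup.mk_surjective u
  obtain ⟨y, rfl⟩ := QuotientGroup.mk_surjective v
  have key : ∀ s ∈ tail N, ∀ g : Gam, F (QuotientGroup.mk (g * s)) = F (QuotientGroup.mk g) := by
    intro s hs g
    rw [QuotientGroup.mk_mul_of_mem g hs]
  refine const_of_inv N (fun g => F (QuotientGroup.mk g)) (fun n hn g => key _ (ga_mem_tail hn) g)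
    (fun n g => ?_) x y
  by_cases hn : n < N
  · exact h (g, ⟨n, hn⟩)
  · exact key _ (gb_mem_tail (not_lt.1 hn)) g

theorem fun_surj {N : ℕ} (φ : Ed N → ZMod 2) : ∃ F : Vt N → ZMod 2,
    ∀ e : Ed N, F (QuotientGroup.mk (e.1 * gb e.2)) - F (QuotientGroup.mk e.1) = φ e := by
  let ψ : Gam × ℕ → ZMod 2 := fun p => if h : p.2 < N then φ (p.1, ⟨p.2, h⟩) else 0
  refine ⟨Quotient.lift (sol ψ N) ?_, fun e => ?_⟩
  · intro x y hxy
    have h1 : x⁻¹ * y ∈ tail N := QuotientGroup.leftRel_apply.1 hxy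
    have := sol_tail ψ N x _ h1
    rw [mul_inv_cancel_left] at this
    exact this.symm
  · show sol ψ N (e.1 * gb e.2) - sol ψ N e.1 = φ e
    rw [sol_gb ψ N e.1 e.2 e.2.2, add_sub_cancel_left]
    simp [ψ]

/-- The tree of the decomposition `Γ = ⟨b_0, …, b_{N-1}⟩ * Γ^{(N)}`, for a subgroup `A`. -/
def tree (N : ℕ) (A : Subgroup Gam) : Tree A (Vt N) (Ed N) where
  d0 e := QuotientGroup.mk e.1
  d1 e := QuotientGroup.mk (e.1 * gb e.2)
  s0 g e := rfl
  s1 g e := by
    show (QuotientGroup.mk ((g : Gam) * e.1 * gb e.2) : Vt N) =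
      QuotientGroup.mk ((g : Gam) * (e.1 * gb e.2))
    rw [mul_assoc]
  conn F h u v := fun_conn F h u v
  surj φ := fun_surj φ

end Pool.Agent.Q106.Kurosh
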