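import Pool.Agent.Q106.KuroshB

/-!
# The group of Kurosh has no finite decomposition into freely indecomposable factors
-/

set_option autoImplicit false

namespace Pool.Agent.Q106.Kurosh

open Pool.Agent.H599R3.RH

/-- The exponent sum of `b_j` modulo `2`. -/
def pm (j : ℕ) : Gam →* Multiplicative (ZMod 2) :=
  lift (fun _ => 1) (fun n => if n = j then Multiplicative.ofAdd 1 else 1) (fun n => by simp)

/-- The exponent sum of `b_j` modulo `2`. -/
def pr (j : ℕ) (g : Gam) : ZMod 2 := Multiplicative.toAdd (pm j g)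

theorem pr_mul (j : ℕ) (x y : Gam) : pr j (x * y) = pr j x + pr j y := by simp [pr]
theorem pr_one (j : ℕ) : pr j 1 = 0 := by simp [pr]
theorem pr_ga (j n : ℕ) : pr j (ga n) = 0 := by simp [pr, pm]
theorem pr_gb (j n : ℕ) : pr j (gb n) = if n = j then 1 else 0 := by
  simp only [pr, pm, lift_gb]
  split_ifs <;> rfl

/-- The height. -/
def ht (N : ℕ) (g : Gam) : ZMod 2 := ∑ j ∈ Finset.range N, pr j g

theorem ht_mul (N : ℕ) (x y : Gam) : ht N (x * y) = ht N x + ht N y := by
  simp only [ht, pr_mul, Finset.sum_add_distrib]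

theorem ht_one (N : ℕ) : ht N 1 = 0 := by simp [ht, pr_one]

theorem ht_gb (N j : ℕ) (hj : j < N) : ht N (gb j) = 1 := by
  simp only [ht, pr_gb]
  rw [Finset.sum_ite_eq]
  simp [hj]

theorem ht_tail (N : ℕ) (x : Gam) (hx : x ∈ tail N) : ht N x = 0 := by
  induction hx using Subgroup.closure_induction with
  | mem x h =>
    rcases h with ⟨n, hn, rfl⟩ | ⟨n, hn, rfl⟩
    · simp [ht, pr_ga]
    · simp only [ht, pr_gb]
      rw [Finset.sum_ite_eq]
      simp [hn]
  | one => exact ht_one N
  | mul x y _ _ h1 h2 => rw [ht_mul, h1, h2, add_zero]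
  | inv x _ h1 =>
    have h2 := ht_mul N x x⁻¹
    rw [mul_inv_cancel, ht_one, h1, zero_add] at h2
    exact h2.symm

/-- The height on the vertices. -/
def hv (N : ℕ) : Vt N → ZMod 2 := Quotient.lift (ht N) (by
  intro x y hxy
  have h1 : x⁻¹ * y ∈ tail N := QuotientGroup.leftRel_apply.1 hxy
  have h2 := ht_mul N x (x⁻¹ * y)
  rw [mul_inv_cancel_left, ht_tail N _ h1, add_zero] at h2
  exact h2.symm)

theorem hv_mk (N : ℕ) (g : Gam) : hv N (QuotientGroup.mk g) = ht N g := rfl

theorem ht_eq_zero (htf : ∀ g : Gam, g ≠ 1 → ∀ n : ℕ, n ≠ 0 → g ^ n ≠ 1) (A : Subgroup Gam)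
    (hs : ¬ Splits A) (hc : ¬ ∃ t : A, ∀ g, ∃ n : ℤ, t ^ n = g) (N : ℕ) (a : A) :
    ht N (a : Gam) = 0 := by
  classical
  have htf' : ∀ g : A, g ≠ 1 → ∀ n : ℕ, n ≠ 0 → g ^ n ≠ 1 := by
    intro g hg n hn h
    apply htf g (fun h' => hg (Subtype.ext h')) n hn
    simpa using congrArg Subtype.val h
  let T := tree N A
  let q : Ed N → MulAction.orbitRel.Quotient A (Ed N) := Quotient.mk''
  have hq : ∀ (k : A) (e : Ed N), q (k • e) = q e := by
    intro k e
    exact Quotient.sound' (MulAction.orbitRel_apply.2 ⟨k, rfl⟩)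
  have hex : ∀ o : MulAction.orbitRel.Quotient A (Ed N), ∃ F : Vt N → ZMod 2,
      ∀ e, F (T.d1 e) - F (T.d0 e) = if q e = o then 1 else 0 :=
    fun o => T.surj fun e => if q e = o then 1 else 0
  choose F hF using hex
  have hinv : ∀ o (a : A) (v : Vt N), F o (a • v) = F o v := by
    intro o a v
    obtain ⟨e, rfl⟩ : ∃ e, q e = o := Quotient.exists_rep o
    obtain ⟨u, hu⟩ := ((bs (T := T) htf' e (by
      intro g hg
      have h1 : (g : Gam) * e.1 = e.1 := congrArg Prod.fst hg
      rw [mul_eq_right] at h1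
      exact Subtype.ext h1)).resolve_left hs).resolve_left hc
    have hcst : F (q e) (a • v) - F (q e) v = F (q e) (a • u) - F (q e) u := by
      apply T.conn (fun v => F (q e) (a • v) - F (q e) v)
      intro e'
      have h1 := hF (q e) (a • e')
      have h2 := hF (q e) e'
      rw [T.s0, T.s1, hq] at h1
      rw [← h2] at h1
      linear_combination h1
    have h0 : F (q e) (a • u) = F (q e) u := by
      have := C1 T (Q := fun x => F (q e) x = F (q e) u) (u := a • u) (v := u) (by
        intro e'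
        by_cases h : q e' = q e
        · right
          obtain ⟨k, hk⟩ := MulAction.orbitRel_apply.1 (Quotient.exact' h)
          have := hu a k
          beta_reduce at hk
          rw [hk] at this
          exact this
        · left
          have h2 := hF (q e) e'
          rw [if_neg h, sub_eq_zero] at h2
          rw [h2])
      exact this.2 rfl
    rw [h0, sub_self, sub_eq_zero] at hcst
    exact hcst
  let v0 : Vt N := QuotientGroup.mk 1
  let S : Finset (MulAction.orbitRel.Quotient A (Ed N)) :=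
    (fin_sep T v0 (a • v0)).toFinset.image q
  let h' : Vt N → ZMod 2 := fun v => hv N v - ∑ o ∈ S, F o v
  have hC := C1 T (Q := fun x => h' x = h' v0) (u := a • v0) (v := v0) (by
    intro e
    by_cases he : side T e v0 ↔ side T e (a • v0)
    · right; exact he.symm
    · left
      have hmem : q e ∈ S := by
        apply Finset.mem_image_of_mem
        rw [Set.Finite.mem_toFinset]
        exact he
      have h1 : ∑ o ∈ S, F o (T.d1 e) - ∑ o ∈ S, F o (T.d0 e) = 1 := by
        rw [← Finset.sum_sub_distrib]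
        simp only [hF]
        rw [Finset.sum_ite_eq, if_pos hmem]
      have h2 : hv N (T.d1 e) - hv N (T.d0 e) = 1 := by
        show ht N (e.1 * gb e.2) - ht N e.1 = 1
        rw [ht_mul, ht_gb N _ e.2.2, add_sub_cancel_left]
      have h3 : h' (T.d1 e) = h' (T.d0 e) := by
        show hv N (T.d1 e) - ∑ o ∈ S, F o (T.d1 e) = hv N (T.d0 e) - ∑ o ∈ S, F o (T.d0 e)
        linear_combination h2 - h1
      rw [h3])
  have h4 : h' (a • v0) = h' v0 := hC.2 rfl
  have h5 : ∑ o ∈ S, F o (a • v0) = ∑ o ∈ S, F o v0 :=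
    Finset.sum_congr rfl fun o _ => hinv o a v0
  have h6 : hv N (a • v0) = hv N v0 := by
    have h7 : hv N (a • v0) - ∑ o ∈ S, F o (a • v0) = hv N v0 - ∑ o ∈ S, F o v0 := h4
    rw [h5] at h7
    exact sub_left_injective h7
  have h8 : hv N (a • v0) = ht N (a : Gam) := by
    show ht N ((a : Gam) * 1) = _
    rw [mul_one]
  have h9 : hv N v0 = 0 := ht_one N
  rw [← h8, h6, h9]

theorem pr_eq_zero (htf : ∀ g : Gam, g ≠ 1 → ∀ n : ℕ, n ≠ 0 → g ^ n ≠ 1) (A : Subgroup Gam)
    (hs : ¬ Splits A) (hc : ¬ ∃ t : A, ∀ g, ∃ n : ℤ, t ^ n = g) (N : ℕ) (a : Gam) (ha : a ∈ A) :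
    pr N a = 0 := by
  have h1 := ht_eq_zero htf A hs hc (N + 1) ⟨a, ha⟩
  have h2 := ht_eq_zero htf A hs hc N ⟨a, ha⟩
  simp only [ht] at h1 h2
  rw [Finset.sum_range_succ, h2, zero_add] at h1
  exact h1

theorem splits_congr {G H : Type} [Group G] [Group H] (e : G ≃* H) (h : Splits G) : Splits H := by
  obtain ⟨A, B, _, _, h1, h2, ⟨f⟩⟩ := h
  exact ⟨A, B, _, _, h1, h2, ⟨e.symm.trans f⟩⟩

theorem no_decomposition (htf : ∀ g : Gam, g ≠ 1 → ∀ n : ℕ, n ≠ 0 → g ^ n ≠ 1) (n : ℕ)
    (H : Fin n → Type) [∀ i, Group (H i)] (hH : ∀ i, ¬ Splits (H i))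
    (f : Monoid.CoprodI H ≃* Gam) : False := by
  classical
  -- the map to `(ZMod 2)^(n+1)`
  let φ : Gam → (Fin (n + 1) → ZMod 2) := fun g j => pr j g
  have hmul : ∀ x y, φ (x * y) = φ x + φ y := fun x y => by
    funext j; exact pr_mul j x y
  have hone : φ 1 = 0 := by funext j; exact pr_one j
  -- each factor contributes at most one dimension
  have hfac : ∀ i : Fin n, ∃ v : Fin (n + 1) → ZMod 2, ∀ x : H i,
      φ (f (Monoid.CoprodI.of x)) ∈ Submodule.span (ZMod 2) {v} := by
    intro i
    let ι : H i →* Gam := f.toMonoidHom.comp Monoid.CoprodI.of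
    have hι : Function.Injective ι := f.injective.comp (Monoid.CoprodI.of_injective i)
    let e : H i ≃* ι.range := MonoidHom.ofInjective hι
    have hs : ¬ Splits ι.range := fun h => hH i (splits_congr e.symm h)
    by_cases hc : ∃ t : ι.range, ∀ g, ∃ n : ℤ, t ^ n = g
    · obtain ⟨t, ht⟩ := hc
      refine ⟨φ t, fun x => ?_⟩
      obtain ⟨m, hm⟩ := ht ⟨ι x, x, rfl⟩
      have h1 : f (Monoid.CoprodI.of x) = (t : Gam) ^ m := by
        have h2 : ((t ^ m : ι.range) : Gam) = ι x := congrArg Subtype.val hm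
        rw [Subgroup.coe_zpow] at h2
        exact h2.symm
      rw [h1]
      have hz : ∀ m : ℤ, φ ((t : Gam) ^ m) = (m : ZMod 2) • φ t := by
        intro m
        funext j
        simp only [φ, pr, map_zpow, toAdd_zpow, Pi.smul_apply, smul_eq_mul, zsmul_eq_mul]
      rw [hz]
      exact Submodule.smul_mem _ _ (Submodule.mem_span_singleton_self _)
    · refine ⟨0, fun x => ?_⟩
      have h0 : φ (f (Monoid.CoprodI.of x)) = 0 := by
        funext j
        exact pr_eq_zero htf ι.range hs hc j _ ⟨x, rfl⟩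
      rw [h0]
      exact Submodule.zero_mem _
  choose v hv using hfac
  have hall : ∀ g : Gam, φ g ∈ Submodule.span (ZMod 2) (Set.range v) := by
    intro g
    obtain ⟨w, rfl⟩ := f.surjective g
    induction w using Monoid.CoprodI.induction_on with
    | one => rw [map_one, hone]; exact Submodule.zero_mem _
    | of i m =>
      exact Submodule.span_mono (by rintro _ rfl; exact ⟨i, rfl⟩) (hv i m)
    | mul x y hx hy => rw [map_mul, hmul]; exact Submodule.add_mem _ hx hy
  have htop : Submodule.span (ZMod 2) (Set.range v) = ⊤ := by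
    rw [eq_top_iff, ← (Pi.basisFun (ZMod 2) (Fin (n + 1))).span_eq, Submodule.span_le]
    rintro _ ⟨j, rfl⟩
    have h1 : φ (gb j) = Pi.basisFun (ZMod 2) (Fin (n + 1)) j := by
      funext i
      simp only [φ, pr_gb, Pi.basisFun_apply, Pi.single_apply]
      by_cases h : i = j
      · subst h; simp
      · rw [if_neg (fun h' => h (Fin.ext h'.symm)), if_neg h]
    rw [← h1]
    exact hall _
  have h1 : Module.finrank (ZMod 2) (Submodule.span (ZMod 2) (Set.range v)) ≤ n := by
    have := finrank_range_le_card (R := ZMod 2) v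
    simpa [Set.finrank] using this
  rw [htop, finrank_top, Module.finrank_fin_fun] at h1
  omega

end Pool.Agent.Q106.Kurosh
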