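import Mathlib

/-!
# A finite symplectic `p`-group with a Lagrangian which is not split by any polarisation
-/

set_option autoImplicit false

namespace Pool.Agent.Q106.Mum

/-- The lattice. -/
abbrev V : Type := Fin 6 → ℤ

/-- The alternating form. -/
def S (p : ℤ) (v w : V) : ℤ :=
  p ^ 2 * (v 0 * w 3 - v 3 * w 0) + p ^ 4 * (v 1 * w 4 - v 4 * w 1) +
    p ^ 6 * (v 2 * w 5 - v 5 * w 2) + (v 3 * w 4 - v 4 * w 3) + p * (v 3 * w 5 - v 5 * w 3) +
    p ^ 2 * (v 4 * w 5 - v 5 * w 4)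

theorem S_add_left (p : ℤ) (v v' w : V) : S p (v + v') w = S p v w + S p v' w := by
  simp only [S, Pi.add_apply]; ring
theorem S_add_right (p : ℤ) (v w w' : V) : S p v (w + w') = S p v w + S p v w' := by
  simp only [S, Pi.add_apply]; ring
theorem S_swap (p : ℤ) (v w : V) : S p v w = - S p w v := by
  simp only [S]; ring
theorem S_self (p : ℤ) (v : V) : S p v v = 0 := by
  simp only [S]; ring
theorem S_zero_left (p : ℤ) (w : V) : S p 0 w = 0 := by simp [S]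

theorem S_expand (p : ℤ) (v w : V) : S p v w = ∑ j, w j * S p v (Pi.single j 1) := by
  simp only [Fin.sum_univ_six]
  simp [S, Pi.single_apply]
  ring

/-- The map whose kernel is the radical modulo `p ^ 8`. -/
def phi (p : ℕ) : V →+ (Fin 6 → ZMod (p ^ 8)) where
  toFun v j := ((S p v (Pi.single j 1) : ℤ) : ZMod (p ^ 8))
  map_zero' := by funext j; simp [S_zero_left]
  map_add' v w := by funext j; simp [S_add_left]

/-- The symplectic group. -/
def KK (p : ℕ) : Type := V ⧸ (phi p).ker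

instance (p : ℕ) : AddCommGroup (KK p) := inferInstanceAs (AddCommGroup (V ⧸ (phi p).ker))

/-- The projection. -/
def mk (p : ℕ) : V →+ KK p := QuotientAddGroup.mk' (phi p).ker

theorem mk_surj {p : ℕ} (x : KK p) : ∃ v, mk p v = x := QuotientAddGroup.mk'_surjective _ x

theorem mk_eq_zero {p : ℕ} {v : V} :
    mk p v = 0 ↔ ∀ j, ((S p v (Pi.single j 1) : ℤ) : ZMod (p ^ 8)) = 0 := by
  rw [mk]
  constructor
  · intro h
    have h1 : v ∈ (phi p).ker := (QuotientAddGroup.eq_zero_iff v).1 h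
    intro j
    exact congrFun (AddMonoidHom.mem_ker.1 h1) j
  · intro h
    have h1 : v ∈ (phi p).ker := AddMonoidHom.mem_ker.2 (funext h)
    exact (QuotientAddGroup.eq_zero_iff v).2 h1

theorem S_of_mk_zero {p : ℕ} {v : V} (h : mk p v = 0) (w : V) :
    ((S p v w : ℤ) : ZMod (p ^ 8)) = 0 := by
  rw [S_expand]
  push_cast
  apply Finset.sum_eq_zero
  intro j _
  rw [mk_eq_zero.1 h j, mul_zero]

theorem S_congr_left {p : ℕ} {v v' : V} (h : mk p v = mk p v') (w : V) :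
    ((S p v w : ℤ) : ZMod (p ^ 8)) = ((S p v' w : ℤ) : ZMod (p ^ 8)) := by
  have h1 : mk p (v - v') = 0 := by rw [map_sub, h, sub_self]
  have h2 := S_of_mk_zero h1 w
  have h3 : S p v w = S p (v - v') w + S p v' w := by rw [← S_add_left, sub_add_cancel]
  rw [h3]
  push_cast
  rw [h2, zero_add]

theorem S_congr {p : ℕ} {v v' w w' : V} (h : mk p v = mk p v') (h' : mk p w = mk p w') :
    ((S p v w : ℤ) : ZMod (p ^ 8)) = ((S p v' w' : ℤ) : ZMod (p ^ 8)) := by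
  rw [S_congr_left h, S_swap, S_swap p v' w']
  push_cast
  rw [S_congr_left h']

/-- The form. -/
noncomputable def fm {p : ℕ} (x y : KK p) : ZMod (p ^ 8) :=
  ((S p (mk_surj x).choose (mk_surj y).choose : ℤ) : ZMod (p ^ 8))

theorem fm_mk {p : ℕ} (v w : V) : fm (mk p v) (mk p w) = ((S p v w : ℤ) : ZMod (p ^ 8)) :=
  S_congr (mk_surj (mk p v)).choose_spec (mk_surj (mk p w)).choose_spec

theorem fm_add_left {p : ℕ} (x x' y : KK p) : fm (x + x') y = fm x y + fm x' y := by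
  obtain ⟨v, rfl⟩ := mk_surj x
  obtain ⟨v', rfl⟩ := mk_surj x'
  obtain ⟨w, rfl⟩ := mk_surj y
  rw [← map_add, fm_mk, fm_mk, fm_mk, S_add_left]
  push_cast
  rfl

theorem fm_swap {p : ℕ} (x y : KK p) : fm x y = - fm y x := by
  obtain ⟨v, rfl⟩ := mk_surj x
  obtain ⟨w, rfl⟩ := mk_surj y
  rw [fm_mk, fm_mk, S_swap]
  push_cast
  rfl

theorem fm_self {p : ℕ} (x : KK p) : fm x x = 0 := by
  obtain ⟨v, rfl⟩ := mk_surj x
  rw [fm_mk, S_self]
  simp

theorem fm_add_right {p : ℕ} (x y y' : KK p) : fm x (y + y') = fm x y + fm x y' := by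
  rw [fm_swap, fm_add_left, fm_swap x y, fm_swap x y']
  ring

/-- The form as a homomorphism in the first variable. -/
noncomputable def fmL {p : ℕ} (y : KK p) : KK p →+ ZMod (p ^ 8) where
  toFun x := fm x y
  map_zero' := by
    have := fm_add_left 0 0 y
    rw [add_zero] at this
    exact left_eq_add.1 this
  map_add' x x' := fm_add_left x x' y

theorem fm_zsmul_left {p : ℕ} (n : ℤ) (x y : KK p) : fm (n • x) y = n * fm x y := by
  have := map_zsmul (fmL y) n x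
  rw [zsmul_eq_mul] at this
  exact this

theorem fm_zsmul_right {p : ℕ} (n : ℤ) (x y : KK p) : fm x (n • y) = n * fm x y := by
  rw [fm_swap, fm_zsmul_left, fm_swap x y]
  ring

theorem fm_sub_left {p : ℕ} (x x' y : KK p) : fm (x - x') y = fm x y - fm x' y :=
  map_sub (fmL y) x x'

theorem fm_sub_right {p : ℕ} (x y y' : KK p) : fm x (y - y') = fm x y - fm x y' := by
  rw [fm_swap, fm_sub_left, fm_swap x y, fm_swap x y']
  ring

theorem fm_ndg {p : ℕ} (x : KK p) (h : ∀ y, fm x y = 0) : x = 0 := by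
  obtain ⟨v, rfl⟩ := mk_surj x
  rw [mk_eq_zero]
  intro j
  rw [← fm_mk]
  exact h _

theorem pow_smul_eq_zero {p : ℕ} (x : KK p) : (p ^ 8 : ℕ) • x = 0 := by
  apply fm_ndg
  intro y
  rw [← natCast_zsmul, fm_zsmul_left]
  have : ((p : ZMod (p ^ 8)) ^ 8) = 0 := by
    rw [← Nat.cast_pow]; exact ZMod.natCast_self _
  push_cast
  rw [this, zero_mul]

instance (p : ℕ) [NeZero p] : Finite (KK p) := by
  have : NeZero (p ^ 8) := ⟨pow_ne_zero _ (NeZero.ne p)⟩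
  exact Finite.of_injective _ (QuotientAddGroup.kerLift_injective (phi p))

/-- The elements of the Lagrangian. -/
def EE (p : ℕ) (a b c : ℤ) : KK p := mk p ![a, b, c, 0, 0, 0]
/-- The complementary generators. -/
def GG (p : ℕ) (a b c : ℤ) : KK p := mk p ![0, 0, 0, a, b, c]

/-- The Lagrangian. -/
def LL (p : ℕ) : AddSubgroup (KK p) where
  carrier := {x | ∃ a b c, x = EE p a b c}
  zero_mem' := ⟨0, 0, 0, by
    have h : (![0, 0, 0, 0, 0, 0] : V) = 0 := by ext i; fin_cases i <;> rfl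
    rw [EE, h, map_zero]⟩
  add_mem' := by
    rintro _ _ ⟨a, b, c, rfl⟩ ⟨a', b', c', rfl⟩
    refine ⟨a + a', b + b', c + c', ?_⟩
    rw [EE, EE, EE, ← map_add]
    congr 1
    ext i; fin_cases i <;> simp
  neg_mem' := by
    rintro _ ⟨a, b, c, rfl⟩
    refine ⟨-a, -b, -c, ?_⟩
    rw [EE, EE, ← map_neg]
    congr 1
    ext i; fin_cases i <;> simp

theorem EE_expand (p : ℕ) (a b c : ℤ) :
    EE p a b c = a • EE p 1 0 0 + b • EE p 0 1 0 + c • EE p 0 0 1 := by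
  rw [EE, EE, EE, EE, ← map_zsmul, ← map_zsmul, ← map_zsmul, ← map_add, ← map_add]
  congr 1
  ext i; fin_cases i <;> simp

theorem fm_EE_EE (p : ℕ) (a b c a' b' c' : ℤ) : fm (EE p a b c) (EE p a' b' c') = 0 := by
  rw [EE, EE, fm_mk]
  simp [S]

theorem fm_EE_GG (p : ℕ) (a b c a' b' c' : ℤ) : fm (EE p a b c) (GG p a' b' c') =
    ((p ^ 2 * (a * a') + p ^ 4 * (b * b') + p ^ 6 * (c * c') : ℤ) : ZMod (p ^ 8)) := by
  rw [EE, GG, fm_mk]
  congr 1
  simp [S]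

theorem fm_GG_GG (p : ℕ) (a b c a' b' c' : ℤ) : fm (GG p a b c) (GG p a' b' c') =
    (((a * b' - b * a') + p * (a * c' - c * a') + p ^ 2 * (b * c' - c * b') : ℤ) :
      ZMod (p ^ 8)) := by
  rw [GG, GG, fm_mk]
  congr 1
  simp [S]

theorem ext_fm {p : ℕ} {x x' : KK p} (hE : ∀ a b c, fm x (EE p a b c) = fm x' (EE p a b c))
    (hG : ∀ a b c, fm x (GG p a b c) = fm x' (GG p a b c)) : x = x' := by
  rw [← sub_eq_zero]
  apply fm_ndg
  intro y
  obtain ⟨v, rfl⟩ := mk_surj y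
  have h : mk p v = EE p (v 0) (v 1) (v 2) + GG p (v 3) (v 4) (v 5) := by
    rw [EE, GG, ← map_add]
    congr 1
    ext i; fin_cases i <;> simp
  rw [h, fm_add_right, fm_sub_left, fm_sub_left, hE, hG, sub_self, sub_self, add_zero]

theorem rel1 (p : ℕ) : ((p : ℤ) ^ 6) • GG p 1 0 0 = EE p 0 (p ^ 2) p := by
  apply ext_fm
  · intro a b c
    rw [fm_zsmul_left, fm_EE_EE, fm_swap, fm_EE_GG]
    have : ((p : ZMod (p ^ 8)) ^ 8) = 0 := by
      rw [← Nat.cast_pow]; exact ZMod.natCast_self _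
    push_cast
    linear_combination (-(a : ZMod (p ^ 8))) * this
  · intro a b c
    rw [fm_zsmul_left, fm_GG_GG, fm_EE_GG]
    push_cast
    ring

theorem rel2 (p : ℕ) : ((p : ℤ) ^ 4) • GG p 0 1 0 = EE p (-p ^ 2) 0 1 := by
  apply ext_fm
  · intro a b c
    rw [fm_zsmul_left, fm_EE_EE, fm_swap, fm_EE_GG]
    have : ((p : ZMod (p ^ 8)) ^ 8) = 0 := by
      rw [← Nat.cast_pow]; exact ZMod.natCast_self _
    push_cast
    linear_combination (-(b : ZMod (p ^ 8))) * this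
  · intro a b c
    rw [fm_zsmul_left, fm_GG_GG, fm_EE_GG]
    push_cast
    ring

theorem rel3 (p : ℕ) : ((p : ℤ) ^ 2) • GG p 0 0 1 = EE p (-p) (-1) 0 := by
  apply ext_fm
  · intro a b c
    rw [fm_zsmul_left, fm_EE_EE, fm_swap, fm_EE_GG]
    have : ((p : ZMod (p ^ 8)) ^ 8) = 0 := by
      rw [← Nat.cast_pow]; exact ZMod.natCast_self _
    push_cast
    linear_combination (-(c : ZMod (p ^ 8))) * this
  · intro a b c
    rw [fm_zsmul_left, fm_GG_GG, fm_EE_GG]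
    push_cast
    ring

theorem EE_mem (p : ℕ) (a b c : ℤ) : EE p a b c ∈ LL p := ⟨a, b, c, rfl⟩

theorem dvd_of_cast {p : ℕ} {z : ℤ} (h : ((z : ℤ) : ZMod (p ^ 8)) = 0) : (p : ℤ) ^ 8 ∣ z := by
  have := (ZMod.intCast_zmod_eq_zero_iff_dvd z (p ^ 8)).1 h
  simpa using this

/-- The Lagrangian is its own orthogonal. -/
theorem mem_LL {p : ℕ} (hp : p ≠ 0) (x : KK p) (h : ∀ y ∈ LL p, fm x y = 0) : x ∈ LL p := by
  obtain ⟨v, rfl⟩ := mk_surj x
  have hp' : (p : ℤ) ≠ 0 := by exact_mod_cast hp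
  have hv : mk p v = EE p (v 0) (v 1) (v 2) + GG p (v 3) (v 4) (v 5) := by
    rw [EE, GG, ← map_add]
    congr 1
    ext i; fin_cases i <;> simp
  have key : ∀ a b c, (p : ℤ) ^ 8 ∣ p ^ 2 * (a * v 3) + p ^ 4 * (b * v 4) + p ^ 6 * (c * v 5) := by
    intro a b c
    apply dvd_of_cast
    rw [← fm_EE_GG, fm_swap, ← neg_eq_zero, neg_neg]
    have h1 := h _ (EE_mem p a b c)
    rw [hv, fm_add_left, fm_EE_EE, zero_add] at h1
    rw [h1]
  obtain ⟨y1, h1⟩ : (p : ℤ) ^ 6 ∣ v 3 := by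
    have := key 1 0 0
    have h2 : (p : ℤ) ^ 2 * p ^ 6 ∣ p ^ 2 * v 3 := by
      rw [← pow_add]; simpa using this
    exact (mul_dvd_mul_iff_left (pow_ne_zero 2 hp')).1 h2
  obtain ⟨y2, h2⟩ : (p : ℤ) ^ 4 ∣ v 4 := by
    have := key 0 1 0
    have h2 : (p : ℤ) ^ 4 * p ^ 4 ∣ p ^ 4 * v 4 := by
      rw [← pow_add]; simpa using this
    exact (mul_dvd_mul_iff_left (pow_ne_zero 4 hp')).1 h2
  obtain ⟨y3, h3⟩ : (p : ℤ) ^ 2 ∣ v 5 := by
    have := key 0 0 1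
    have h2 : (p : ℤ) ^ 6 * p ^ 2 ∣ p ^ 6 * v 5 := by
      rw [← pow_add]; simpa using this
    exact (mul_dvd_mul_iff_left (pow_ne_zero 6 hp')).1 h2
  have hG : GG p (v 3) (v 4) (v 5) = y1 • (((p : ℤ) ^ 6) • GG p 1 0 0) +
      y2 • (((p : ℤ) ^ 4) • GG p 0 1 0) + y3 • (((p : ℤ) ^ 2) • GG p 0 0 1) := by
    rw [GG, GG, GG, GG]
    simp only [← map_zsmul, ← map_add]
    congr 1
    ext i; fin_cases i <;> simp [h1, h2, h3, mul_comm]
  rw [hv, hG, rel1, rel2, rel3]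
  exact add_mem (EE_mem _ _ _ _) (add_mem (add_mem (zsmul_mem (EE_mem _ _ _ _) _)
    (zsmul_mem (EE_mem _ _ _ _) _)) (zsmul_mem (EE_mem _ _ _ _) _))

theorem LL_isotropic {p : ℕ} {x y : KK p} (hx : x ∈ LL p) (hy : y ∈ LL p) : fm x y = 0 := by
  obtain ⟨a, b, c, rfl⟩ := hx
  obtain ⟨a', b', c', rfl⟩ := hy
  exact fm_EE_EE _ _ _ _ _ _ _

/-- **No compatible polarisation.** -/
theorem no_split {p : ℕ} (hp : p.Prime) (q : KK p →+ KK p) (hq : ∀ x, q (q x) = q x)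
    (hL : ∀ x ∈ LL p, q x ∈ LL p) (h1 : ∀ x y, fm (q x) (q y) = 0)
    (h2 : ∀ x y, fm (x - q x) (y - q y) = 0) : False := by
  have hp0 : (p : ℤ) ≠ 0 := by exact_mod_cast hp.ne_zero
  have adj : ∀ x y, fm (q x) y = fm x y - fm x (q y) := by
    intro x y
    have e1 := h1 x y
    have e2 := h2 x y
    rw [fm_sub_left, fm_sub_right, fm_sub_right, e1] at e2
    linear_combination -e2
  obtain ⟨A11, A21, A31, hA1⟩ := hL _ (EE_mem p 1 0 0)
  obtain ⟨A12, A22, A32, hA2⟩ := hL _ (EE_mem p 0 1 0)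
  obtain ⟨A13, A23, A33, hA3⟩ := hL _ (EE_mem p 0 0 1)
  have hqE : ∀ a b c, q (EE p a b c) = EE p (a * A11 + b * A12 + c * A13)
      (a * A21 + b * A22 + c * A23) (a * A31 + b * A32 + c * A33) := by
    intro a b c
    rw [EE_expand, map_add, map_add, map_zsmul, map_zsmul, map_zsmul, hA1, hA2, hA3,
      EE, EE, EE, EE, ← map_zsmul, ← map_zsmul, ← map_zsmul, ← map_add, ← map_add]
    congr 1
    ext i; fin_cases i <;> simp
  -- the relations
  have r1 := congrArg q (rel1 p)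
  have r2 := congrArg q (rel2 p)
  have r3 := congrArg q (rel3 p)
  rw [map_zsmul, hqE] at r1 r2 r3
  have k12 := congrArg (fun z => fm z (GG p 0 1 0)) r1
  have k13 := congrArg (fun z => fm z (GG p 0 0 1)) r1
  have k21 := congrArg (fun z => fm z (GG p 1 0 0)) r2
  have k23 := congrArg (fun z => fm z (GG p 0 0 1)) r2
  have k31 := congrArg (fun z => fm z (GG p 1 0 0)) r3
  have k32 := congrArg (fun z => fm z (GG p 0 1 0)) r3
  simp only [fm_zsmul_left, fm_EE_GG] at k12 k13 k21 k23 k31 k32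
  have s12 := adj (GG p 1 0 0) (GG p 0 1 0)
  have s13 := adj (GG p 1 0 0) (GG p 0 0 1)
  have s23 := adj (GG p 0 1 0) (GG p 0 0 1)
  rw [fm_swap (GG p 1 0 0) (q _), fm_GG_GG] at s12 s13
  rw [fm_swap (GG p 0 1 0) (q _), fm_GG_GG] at s23
  -- divisibility of the entries of the matrix
  have z2 : ((p : ℤ) ^ 4) • EE p 0 1 0 = 0 := by
    apply ext_fm
    · intro a b c
      rw [fm_zsmul_left, fm_EE_EE, mul_zero]
      exact (map_zero (fmL _)).symm
    · intro a b c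
      rw [fm_zsmul_left, fm_EE_GG]
      have e0 : fm (0 : KK p) (GG p a b c) = 0 := map_zero (fmL _)
      have : ((p : ZMod (p ^ 8)) ^ 8) = 0 := by
        rw [← Nat.cast_pow]; exact ZMod.natCast_self _
      rw [e0]
      push_cast
      linear_combination (b : ZMod (p ^ 8)) * this
  have z3 : ((p : ℤ) ^ 2) • EE p 0 0 1 = 0 := by
    apply ext_fm
    · intro a b c
      rw [fm_zsmul_left, fm_EE_EE, mul_zero]
      exact (map_zero (fmL _)).symm
    · intro a b c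
      rw [fm_zsmul_left, fm_EE_GG]
      have e0 : fm (0 : KK p) (GG p a b c) = 0 := map_zero (fmL _)
      have : ((p : ZMod (p ^ 8)) ^ 8) = 0 := by
        rw [← Nat.cast_pow]; exact ZMod.natCast_self _
      rw [e0]
      push_cast
      linear_combination (c : ZMod (p ^ 8)) * this
  have w2 := congrArg q z2
  have w3 := congrArg q z3
  rw [map_zsmul, hqE, map_zero] at w2 w3
  have w21 := congrArg (fun z => fm z (GG p 1 0 0)) w2
  have w31 := congrArg (fun z => fm z (GG p 1 0 0)) w3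
  have w32 := congrArg (fun z => fm z (GG p 0 1 0)) w3
  have f0 : ∀ y : KK p, fm (0 : KK p) y = 0 := fun y => map_zero (fmL y)
  simp only [fm_zsmul_left, fm_EE_GG, f0] at w21 w31 w32
  have d12 : (p : ℤ) ^ 2 ∣ A12 := by
    have h : (p : ℤ) ^ 8 ∣ p ^ 6 * A12 := by
      apply dvd_of_cast
      push_cast at w21 ⊢
      linear_combination w21
    have h' : (p : ℤ) ^ 6 * p ^ 2 ∣ p ^ 6 * A12 := by rw [← pow_add]; exact h
    exact (mul_dvd_mul_iff_left (pow_ne_zero 6 hp0)).1 h'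
  have d13 : (p : ℤ) ^ 4 ∣ A13 := by
    have h : (p : ℤ) ^ 8 ∣ p ^ 4 * A13 := by
      apply dvd_of_cast
      push_cast at w31 ⊢
      linear_combination w31
    have h' : (p : ℤ) ^ 4 * p ^ 4 ∣ p ^ 4 * A13 := by rw [← pow_add]; exact h
    exact (mul_dvd_mul_iff_left (pow_ne_zero 4 hp0)).1 h'
  have d23 : (p : ℤ) ^ 2 ∣ A23 := by
    have h : (p : ℤ) ^ 8 ∣ p ^ 6 * A23 := by
      apply dvd_of_cast
      push_cast at w32 ⊢
      linear_combination w32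
    have h' : (p : ℤ) ^ 6 * p ^ 2 ∣ p ^ 6 * A23 := by rw [← pow_add]; exact h
    exact (mul_dvd_mul_iff_left (pow_ne_zero 6 hp0)).1 h'
  obtain ⟨B12, rfl⟩ := d12
  obtain ⟨B13, rfl⟩ := d13
  obtain ⟨B23, rfl⟩ := d23
  -- the three congruences
  have c12 : (p : ℤ) ∣ A11 + A22 - 1 := by
    have h : (p : ℤ) ^ 8 ∣ p ^ 6 * (A11 + A22 - 1) + p ^ 7 * B23 - p ^ 8 * B13 := by
      apply dvd_of_cast
      push_cast at k12 k21 s12 ⊢
      linear_combination (-1 : ZMod (p ^ 8)) * k12 + ((p : ZMod (p ^ 8)) ^ 2) * k21 +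
        ((p : ZMod (p ^ 8)) ^ 6) * s12
    have h' : (p : ℤ) ^ 7 ∣ p ^ 6 * (A11 + A22 - 1) := by
      have e1 : (p : ℤ) ^ 7 ∣ p ^ 6 * (A11 + A22 - 1) + p ^ 7 * B23 - p ^ 8 * B13 :=
        (pow_dvd_pow _ (by norm_num)).trans h
      have e2 : (p : ℤ) ^ 7 ∣ p ^ 7 * B23 - p ^ 8 * B13 :=
        ⟨B23 - p * B13, by ring⟩
      have := dvd_sub e1 e2
      rwa [show (p : ℤ) ^ 6 * (A11 + A22 - 1) + p ^ 7 * B23 - p ^ 8 * B13 -
        (p ^ 7 * B23 - p ^ 8 * B13) = p ^ 6 * (A11 + A22 - 1) by ring] at this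
    have h'' : (p : ℤ) ^ 6 * p ∣ p ^ 6 * (A11 + A22 - 1) := by rw [← pow_succ]; exact h'
    exact (mul_dvd_mul_iff_left (pow_ne_zero 6 hp0)).1 h''
  have c13 : (p : ℤ) ∣ A11 + A33 - 1 := by
    have h : (p : ℤ) ^ 8 ∣ p ^ 7 * (A11 + A33 - 1) + p ^ 8 * B12 + p ^ 8 * A32 := by
      apply dvd_of_cast
      push_cast at k13 k31 s13 ⊢
      linear_combination (-1 : ZMod (p ^ 8)) * k13 + ((p : ZMod (p ^ 8)) ^ 4) * k31 +
        ((p : ZMod (p ^ 8)) ^ 6) * s13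
    have h' : (p : ℤ) ^ 8 ∣ p ^ 7 * (A11 + A33 - 1) := by
      have e2 : (p : ℤ) ^ 8 ∣ p ^ 8 * B12 + p ^ 8 * A32 := ⟨B12 + A32, by ring⟩
      have := dvd_sub h e2
      rwa [show (p : ℤ) ^ 7 * (A11 + A33 - 1) + p ^ 8 * B12 + p ^ 8 * A32 -
        (p ^ 8 * B12 + p ^ 8 * A32) = p ^ 7 * (A11 + A33 - 1) by ring] at this
    have h'' : (p : ℤ) ^ 7 * p ∣ p ^ 7 * (A11 + A33 - 1) := by rw [← pow_succ]; exact h'
    exact (mul_dvd_mul_iff_left (pow_ne_zero 7 hp0)).1 h''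
  have c23 : (p : ℤ) ∣ A22 + A33 - 1 := by
    have h : (p : ℤ) ^ 8 ∣ p ^ 6 * (A22 + A33 - 1) + p ^ 7 * A21 - p ^ 8 * A31 := by
      apply dvd_of_cast
      push_cast at k23 k32 s23 ⊢
      linear_combination (-1 : ZMod (p ^ 8)) * k23 + ((p : ZMod (p ^ 8)) ^ 2) * k32 +
        ((p : ZMod (p ^ 8)) ^ 4) * s23
    have h' : (p : ℤ) ^ 7 ∣ p ^ 6 * (A22 + A33 - 1) := by
      have e1 : (p : ℤ) ^ 7 ∣ p ^ 6 * (A22 + A33 - 1) + p ^ 7 * A21 - p ^ 8 * A31 :=
        (pow_dvd_pow _ (by norm_num)).trans h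
      have e2 : (p : ℤ) ^ 7 ∣ p ^ 7 * A21 - p ^ 8 * A31 :=
        ⟨A21 - p * A31, by ring⟩
      have := dvd_sub e1 e2
      rwa [show (p : ℤ) ^ 6 * (A22 + A33 - 1) + p ^ 7 * A21 - p ^ 8 * A31 -
        (p ^ 7 * A21 - p ^ 8 * A31) = p ^ 6 * (A22 + A33 - 1) by ring] at this
    have h'' : (p : ℤ) ^ 6 * p ∣ p ^ 6 * (A22 + A33 - 1) := by rw [← pow_succ]; exact h'
    exact (mul_dvd_mul_iff_left (pow_ne_zero 6 hp0)).1 h''
  -- idempotency
  have hid : (p : ℤ) ∣ A11 ^ 2 - A11 := by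
    have e := congrArg (fun z => fm z (GG p 1 0 0)) (hq (EE p 1 0 0))
    rw [hqE, hqE] at e
    simp only [fm_EE_GG] at e
    have h : (p : ℤ) ^ 8 ∣ p ^ 2 * (A11 ^ 2 - A11) + p ^ 4 * (A21 * B12) +
        p ^ 6 * (A31 * B13) := by
      apply dvd_of_cast
      push_cast at e ⊢
      linear_combination e
    have h' : (p : ℤ) ^ 3 ∣ p ^ 2 * (A11 ^ 2 - A11) := by
      have e1 : (p : ℤ) ^ 3 ∣ p ^ 2 * (A11 ^ 2 - A11) + p ^ 4 * (A21 * B12) +
        p ^ 6 * (A31 * B13) := (pow_dvd_pow _ (by norm_num)).trans h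
      have e2 : (p : ℤ) ^ 3 ∣ p ^ 4 * (A21 * B12) + p ^ 6 * (A31 * B13) :=
        ⟨p * (A21 * B12) + p ^ 3 * (A31 * B13), by ring⟩
      have := dvd_sub e1 e2
      rwa [show (p : ℤ) ^ 2 * (A11 ^ 2 - A11) + p ^ 4 * (A21 * B12) + p ^ 6 * (A31 * B13) -
        (p ^ 4 * (A21 * B12) + p ^ 6 * (A31 * B13)) = p ^ 2 * (A11 ^ 2 - A11) by ring] at this
    have h'' : (p : ℤ) ^ 2 * p ∣ p ^ 2 * (A11 ^ 2 - A11) := by rw [← pow_succ]; exact h'
    exact (mul_dvd_mul_iff_left (pow_ne_zero 2 hp0)).1 h''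
  -- conclusion
  have e2 : (p : ℤ) ∣ 2 * A11 - 1 := by
    have := dvd_sub (dvd_add c12 c13) c23
    rwa [show A11 + A22 - 1 + (A11 + A33 - 1) - (A22 + A33 - 1) = 2 * A11 - 1 by ring] at this
  have e3 : (p : ℤ) ∣ 1 := by
    have h3 := dvd_sub (dvd_mul_of_dvd_left e2 (2 * A11 - 1)) (dvd_mul_of_dvd_right hid 4)
    rwa [show (2 * A11 - 1) * (2 * A11 - 1) - 4 * (A11 ^ 2 - A11) = 1 by ring] at h3
  have e4 : p ∣ 1 := by exact_mod_cast e3
  exact hp.one_lt.ne' (Nat.dvd_one.1 e4)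

end Pool.Agent.Q106.Mum
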