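import Pool.Agent.Q106.MumA

/-!
# The restricted product and its bicharacter
-/

set_option autoImplicit false

open Filter Topology RestrictedProduct

namespace Pool.Agent.Q106.Mum

/-- The odd primes. -/
abbrev Idx : Type := {p : ℕ // p.Prime ∧ p ≠ 2}

instance (i : Idx) : NeZero (i : ℕ) := ⟨i.2.1.ne_zero⟩
instance (i : Idx) : NeZero ((i : ℕ) ^ 8) := ⟨pow_ne_zero _ i.2.1.ne_zero⟩

instance (p : ℕ) : TopologicalSpace (KK p) := ⊥
instance (p : ℕ) : DiscreteTopology (KK p) := ⟨rfl⟩

/-- The factors. -/
abbrev Kf (i : Idx) : Type := KK i.1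
/-- The Lagrangians. -/
abbrev Lf (i : Idx) : AddSubgroup (Kf i) := LL i.1

instance : Fact (∀ i : Idx, IsOpen (Lf i : Set (Kf i))) := ⟨fun _ => isOpen_discrete _⟩

/-- The restricted product. -/
abbrev K : Type := Πʳ i : Idx, [Kf i, Lf i]

/-- The local characters. -/
noncomputable def ci (i : Idx) (x y : Kf i) : Circle := ZMod.toCircle (fm x y)

theorem ci_add_left (i : Idx) (x x' y : Kf i) : ci i (x + x') y = ci i x y * ci i x' y := by
  rw [ci, fm_add_left, AddChar.map_add_eq_mul]; rfl
theorem ci_add_right (i : Idx) (x y y' : Kf i) : ci i x (y + y') = ci i x y * ci i x y' := by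
  rw [ci, fm_add_right, AddChar.map_add_eq_mul]; rfl
theorem ci_self (i : Idx) (x : Kf i) : ci i x x = 1 := by
  rw [ci, fm_self, AddChar.map_zero_eq_one]
theorem ci_swap (i : Idx) (x y : Kf i) : ci i x y = (ci i y x)⁻¹ := by
  rw [ci, fm_swap, AddChar.map_neg_eq_inv]; rfl
theorem ci_zero_right (i : Idx) (x : Kf i) : ci i x 0 = 1 := by
  have := ci_add_right i x 0 0
  rw [add_zero] at this
  exact left_eq_mul.1 this
theorem ci_zero_left (i : Idx) (x : Kf i) : ci i 0 x = 1 := by
  rw [ci_swap, ci_zero_right, inv_one]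
theorem ci_of_mem (i : Idx) {x y : Kf i} (hx : x ∈ Lf i) (hy : y ∈ Lf i) : ci i x y = 1 := by
  rw [ci, LL_isotropic hx hy, AddChar.map_zero_eq_one]

theorem fm_of_sq (i : Idx) {x y : Kf i} (h : ci i x y ^ 2 = 1) : fm x y = 0 := by
  have h1 : ZMod.toCircle (fm x y + fm x y) = 1 := by
    rw [AddChar.map_add_eq_mul, ← sq]; exact h
  have h2 : fm x y + fm x y = 0 := by
    apply ZMod.injective_toCircle
    rw [h1, AddChar.map_zero_eq_one]
  have h3 : IsUnit (2 : ZMod ((i : ℕ) ^ 8)) := by
    have : Nat.Coprime 2 ((i : ℕ) ^ 8) := by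
      apply Nat.Coprime.pow_right
      rw [Nat.coprime_primes Nat.prime_two i.2.1]
      exact fun h => i.2.2 h.symm
    have h4 := (ZMod.unitOfCoprime 2 this).isUnit
    rwa [ZMod.coe_unitOfCoprime] at h4
  rw [← two_mul] at h2
  exact (h3.mul_right_eq_zero).1 h2

/-- The neighbourhoods of zero. -/
def U (J : Set Idx) : Set K := {x | (∀ i, x i ∈ Lf i) ∧ ∀ i ∈ J, x i = 0}

theorem isOpen_U {J : Set Idx} (hJ : J.Finite) : IsOpen (U J) := by
  have h1 : IsOpen {x : K | ∀ i, x i ∈ Lf i} :=
    RestrictedProduct.isOpen_forall_mem (fun _ => isOpen_discrete _)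
  have h2 : IsOpen (⋂ i ∈ J, {x : K | x i = 0}) := by
    apply hJ.isOpen_biInter
    intro i _
    exact (isOpen_discrete ({0} : Set (Kf i))).preimage (RestrictedProduct.continuous_eval i)
  have h3 : U J = {x : K | ∀ i, x i ∈ Lf i} ∩ ⋂ i ∈ J, {x : K | x i = 0} := by
    ext x
    simp [U]
  rw [h3]
  exact h1.inter h2

theorem zero_mem_U (J : Set Idx) : (0 : K) ∈ U J := ⟨fun i => (Lf i).zero_mem, fun i _ => rfl⟩

theorem nsmul_mem_U {J : Set Idx} {x : K} (hx : x ∈ U J) (n : ℕ) : n • x ∈ U J := by
  refine ⟨fun i => ?_, fun i hi => ?_⟩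
  · rw [RestrictedProduct.nsmul_apply]
    exact (Lf i).nsmul_mem (hx.1 i) n
  · rw [RestrictedProduct.nsmul_apply, hx.2 i hi, smul_zero]

/-- The cocycle. -/
noncomputable def c (x y : K) : Circle := ∏ᶠ i, ci i (x i) (y i)

/-- The places where an element is not in the Lagrangian. -/
def bad (x : K) : Set Idx := {i | ¬ x i ∈ Lf i}

theorem bad_finite (x : K) : (bad x).Finite := x.2

theorem supp_finite (x y : K) : (Function.mulSupport fun i => ci i (x i) (y i)).Finite := by
  refine ((bad_finite x).union (bad_finite y)).subset ?_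
  intro i hi
  by_contra h
  simp only [bad, Set.mem_union, Set.mem_setOf_eq, not_or, not_not] at h
  exact hi (ci_of_mem i h.1 h.2)

theorem c_add_left (x x' y : K) : c (x + x') y = c x y * c x' y := by
  rw [c, c, c, ← finprod_mul_distrib (supp_finite x y) (supp_finite x' y)]
  apply finprod_congr
  intro i
  exact ci_add_left i _ _ _
theorem c_add_right (x y y' : K) : c x (y + y') = c x y * c x y' := by
  rw [c, c, c, ← finprod_mul_distrib (supp_finite x y) (supp_finite x y')]
  apply finprod_congr
  intro i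
  exact ci_add_right i _ _ _
theorem c_self (x : K) : c x x = 1 := by
  rw [c, ← finprod_one (α := Idx)]
  exact finprod_congr fun i => ci_self i _
theorem c_swap (x y : K) : c x y = (c y x)⁻¹ := by
  have h := c_self (x + y)
  rw [c_add_left, c_add_right, c_add_right, c_self, c_self, one_mul, mul_one] at h
  exact eq_inv_of_mul_eq_one_left h
theorem c_zero_right (x : K) : c x 0 = 1 := by
  have := c_add_right x 0 0
  rw [add_zero] at this
  exact left_eq_mul.1 this
theorem c_zero_left (x : K) : c 0 x = 1 := by rw [c_swap, c_zero_right, inv_one]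

theorem c_continuous : Continuous fun z : K × K => c z.1 z.2 := by
  rw [continuous_iff_continuousAt]
  rintro ⟨x, y⟩
  set J : Set Idx := bad x ∪ bad y with hJ
  have hJf : J.Finite := (bad_finite x).union (bad_finite y)
  have hev : ∀ᶠ z : K × K in 𝓝 (x, y), c z.1 z.2 = c x y := by
    have h1 : Continuous fun z : K × K => (z.1 - x, z.2 - y) := by fun_prop
    have h2 : (U J ×ˢ U J) ∈ 𝓝 ((x, y).1 - x, (x, y).2 - y) := by
      simp only [sub_self]
      exact prod_mem_nhds ((isOpen_U hJf).mem_nhds (zero_mem_U J))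
        ((isOpen_U hJf).mem_nhds (zero_mem_U J))
    filter_upwards [h1.continuousAt.preimage_mem_nhds h2] with z hz
    obtain ⟨⟨a1, a2⟩, ⟨b1, b2⟩⟩ := hz
    rw [c, c]
    apply finprod_congr
    intro i
    have e1 : z.1 i = (z.1 - x) i + x i := by rw [RestrictedProduct.sub_apply, sub_add_cancel]
    have e2 : z.2 i = (z.2 - y) i + y i := by rw [RestrictedProduct.sub_apply, sub_add_cancel]
    by_cases hi : i ∈ J
    · rw [e1, e2, a2 i hi, b2 i hi, zero_add, zero_add]
    · simp only [hJ, bad, Set.mem_union, Set.mem_setOf_eq, not_or, not_not] at hi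
      rw [ci_of_mem i hi.1 hi.2, e1, e2]
      exact ci_of_mem i ((Lf i).add_mem (a1 i) hi.1) ((Lf i).add_mem (b1 i) hi.2)
  exact (continuousAt_const (y := c x y)).congr (by
    filter_upwards [hev] with z hz
    exact hz.symm)

open Classical in
/-- The inclusion of a factor. -/
noncomputable def sg (i : Idx) (z : Kf i) : K := RestrictedProduct.single (fun i => Lf i) i z

open Classical in
theorem sg_same (i : Idx) (z : Kf i) : sg i z i = z :=
  RestrictedProduct.single_eq_same (fun i => Lf i) i z

open Classical in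
theorem sg_ne {i j : Idx} (z : Kf i) (h : j ≠ i) : sg i z j = 0 :=
  RestrictedProduct.single_eq_of_ne (fun i => Lf i) z h

theorem c_sg (x : K) (i : Idx) (z : Kf i) : c x (sg i z) = ci i (x i) z := by
  rw [c, finprod_eq_single _ i, sg_same]
  intro j hj
  rw [sg_ne z hj, ci_zero_right]

theorem sg_add (i : Idx) (z z' : Kf i) : sg i (z + z') = sg i z + sg i z' := by
  apply RestrictedProduct.ext
  intro j
  rw [RestrictedProduct.add_apply]
  by_cases h : j = i
  · subst h
    rw [sg_same, sg_same, sg_same]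
  · rw [sg_ne _ h, sg_ne _ h, sg_ne _ h, add_zero]

/-- The bicharacter is nondegenerate. -/
theorem c_ndg (x : K) (h : ∀ y, c x y ^ 2 = 1) : x = 0 := by
  apply RestrictedProduct.ext
  intro i
  apply fm_ndg
  intro z
  apply fm_of_sq i
  rw [← c_sg]
  exact h _

/-- An element orthogonal to the Lagrangian is in the Lagrangian. -/
theorem mem_of_perp (x : K) (h : ∀ y ∈ U ∅, c x y ^ 2 = 1) : x ∈ U ∅ := by
  refine ⟨fun i => ?_, fun i hi => absurd hi (Set.notMem_empty i)⟩
  apply mem_LL i.2.1.ne_zero
  intro z hz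
  apply fm_of_sq i
  rw [← c_sg]
  apply h
  refine ⟨fun j => ?_, fun i hi => absurd hi (Set.notMem_empty i)⟩
  by_cases hj : j = i
  · subst hj
    rw [sg_same]; exact hz
  · rw [sg_ne _ hj]; exact (Lf j).zero_mem

theorem isCompact_U : IsCompact (U ∅) := by
  have h1 : U ∅ = Set.range (RestrictedProduct.structureMap Kf (fun i => (Lf i : Set (Kf i)))
      cofinite) := by
    rw [RestrictedProduct.range_structureMap]
    ext x
    constructor
    · rintro ⟨h, _⟩
      exact h
    · intro h
      exact ⟨h, fun i hi => absurd hi (Set.notMem_empty i)⟩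
  rw [h1]
  have : ∀ i : Idx, CompactSpace ((Lf i : Set (Kf i))) := fun i => Finite.compactSpace
  exact isCompact_range RestrictedProduct.isEmbedding_structureMap.continuous

/-- Duality for a factor. -/
theorem local_dual (i : Idx) (η : Kf i → Circle) (h0 : η 0 = 1)
    (hη : ∀ x y, η (x + y) = η x * η y) : ∃ x : Kf i, ∀ y, η y = ci i x y ^ 2 := by
  classical
  have := Fintype.ofFinite (Kf i)
  have : Finite (AddChar (Kf i) Circle) :=
    Finite.of_equiv _ (AddChar.circleEquivComplex (α := Kf i)).toEquiv.symm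
  let D : Kf i → AddChar (Kf i) Circle := fun x =>
    { toFun := fun y => ci i x y ^ 2
      map_zero_eq_one' := by rw [ci_zero_right, one_pow]
      map_add_eq_mul' := by
        intro y y'
        rw [ci_add_right, mul_pow] }
  have hD : Function.Injective D := by
    intro x x' h
    rw [← sub_eq_zero]
    apply fm_ndg
    intro y
    apply fm_of_sq i
    have h1 : ci i x y ^ 2 = ci i x' y ^ 2 := DFunLike.congr_fun h y
    have h2 : ci i x y = ci i (x - x') y * ci i x' y := by
      rw [← ci_add_left, sub_add_cancel]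
    rw [h2, mul_pow] at h1
    exact mul_eq_right.1 h1
  have hcard : Nat.card (Kf i) = Nat.card (AddChar (Kf i) Circle) := by
    rw [Nat.card_congr (AddChar.circleEquivComplex (α := Kf i)).toEquiv,
      Nat.card_eq_fintype_card, Nat.card_eq_fintype_card, AddChar.card_eq]
  have hb := (Nat.bijective_iff_injective_and_card D).2 ⟨hD, hcard⟩
  obtain ⟨x, hx⟩ := hb.2 ⟨η, h0, hη⟩
  exact ⟨x, fun y => (DFunLike.congr_fun hx y).symm⟩

/-- A continuous character is trivial on a basic neighbourhood. -/
theorem char_trivial (χ : K → Circle) (hχ : Continuous χ) (h0 : χ 0 = 1)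
    (hadd : ∀ x y, χ (x + y) = χ x * χ y) : ∃ J : Set Idx, J.Finite ∧ ∀ x ∈ U J, χ x = 1 := by
  have hpow : ∀ (x : K) (n : ℕ), χ (n • x) = χ x ^ n := by
    intro x n
    induction n with
    | zero => rw [zero_smul, h0, pow_zero]
    | succ n ih => rw [succ_nsmul, hadd, ih, pow_succ]
  let f : (Π i, (Lf i : Set (Kf i))) → Circle := fun z =>
    χ (RestrictedProduct.structureMap Kf (fun i => (Lf i : Set (Kf i))) cofinite z)
  have hf : Continuous f := hχ.comp RestrictedProduct.isEmbedding_structureMap.continuous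
  let z0 : Π i, (Lf i : Set (Kf i)) := fun i => ⟨0, (Lf i).zero_mem⟩
  have hz0 : f z0 = 1 := by
    rw [← h0]
    rfl
  have hopen : IsOpen (f ⁻¹' (Circle.centeredArc (Real.pi / 2))) :=
    (Circle.isOpen_centeredArc _).preimage hf
  have hmem : z0 ∈ f ⁻¹' (Circle.centeredArc (Real.pi / 2)) := by
    show f z0 ∈ Circle.centeredArc (Real.pi / 2)
    rw [hz0, Circle.mem_centeredArc (by linarith [Real.pi_pos])]
    simp [Real.pi_pos]
  obtain ⟨I, u, hu1, hu2⟩ := isOpen_pi_iff.1 hopen z0 hmem
  have key : ∀ x ∈ U (I : Set Idx), χ x ∈ Circle.centeredArc (Real.pi / 2) := by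
    intro x hx
    have h1 : (fun i => ⟨x i, hx.1 i⟩ : Π i, (Lf i : Set (Kf i))) ∈
        f ⁻¹' (Circle.centeredArc (Real.pi / 2)) := by
      apply hu2
      intro i hi
      have h2 : (⟨x i, hx.1 i⟩ : (Lf i : Set (Kf i))) = z0 i := Subtype.ext (hx.2 i hi)
      show (⟨x i, hx.1 i⟩ : (Lf i : Set (Kf i))) ∈ u i
      rw [h2]
      exact (hu1 i hi).2
    exact h1
  refine ⟨I, I.finite_toSet, fun x hx => ?_⟩
  apply Circle.eq_one_of_forall_pow_mem_centeredArc_pi_div_two
  intro n _
  rw [← hpow]
  exact key _ (nsmul_mem_U hx n)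

/-- Every continuous character is given by the bicharacter. -/
theorem char_surj (χ : K → Circle) (hχ : Continuous χ) (h0 : χ 0 = 1)
    (hadd : ∀ x y, χ (x + y) = χ x * χ y) : ∃ x : K, ∀ y, χ y = c x y ^ 2 := by
  classical
  obtain ⟨J, hJ, hJ1⟩ := char_trivial χ hχ h0 hadd
  have hloc : ∀ i : Idx, ∃ x : Kf i, ∀ y, χ (sg i y) = ci i x y ^ 2 := by
    intro i
    apply local_dual i (fun y => χ (sg i y))
    · have : sg i (0 : Kf i) = 0 := by
        have := sg_add i 0 0
        rw [add_zero] at this
        exact left_eq_add.1 this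
      rw [this, h0]
    · intro x y
      rw [sg_add, hadd]
  choose xs hxs using hloc
  have hsgU : ∀ i, i ∉ J → ∀ z ∈ Lf i, sg i z ∈ U J := by
    intro i hi z hz
    refine ⟨fun j => ?_, fun j hj => ?_⟩
    · by_cases h : j = i
      · subst h; rw [sg_same]; exact hz
      · rw [sg_ne _ h]; exact (Lf j).zero_mem
    · exact sg_ne _ (fun h => hi (h ▸ hj))
  have hev : ∀ᶠ i in cofinite, xs i ∈ Lf i := by
    refine hJ.subset ?_
    intro i hi
    by_contra hiJ
    apply hi
    apply mem_LL i.2.1.ne_zero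
    intro z hz
    apply fm_of_sq i
    rw [← hxs]
    exact hJ1 _ (hsgU i hiJ z hz)
  let x : K := ⟨xs, hev⟩
  refine ⟨x, fun y => ?_⟩
  -- the subgroup where both agree
  let N : AddSubgroup K :=
    { carrier := {y | χ y = c x y ^ 2}
      zero_mem' := by
        show χ 0 = c x 0 ^ 2
        rw [h0, c_zero_right, one_pow]
      add_mem' := by
        intro a b ha hb
        show χ (a + b) = c x (a + b) ^ 2
        rw [hadd, c_add_right, mul_pow, ha, hb]
      neg_mem' := by
        intro a ha
        show χ (-a) = c x (-a) ^ 2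
        have e1 : χ (-a) * χ a = 1 := by rw [← hadd, neg_add_cancel, h0]
        have e2 : c x (-a) ^ 2 * c x a ^ 2 = 1 := by
          rw [← mul_pow, ← c_add_right, neg_add_cancel, c_zero_right, one_pow]
        rw [← ha] at e2
        exact mul_right_cancel (e1.trans e2.symm) }
  have hNsg : ∀ i z, sg i z ∈ N := by
    intro i z
    show χ (sg i z) = c x (sg i z) ^ 2
    rw [hxs, c_sg]
    rfl
  set J' : Set Idx := J ∪ bad x ∪ bad y with hJ'
  have hJ'f : J'.Finite := (hJ.union (bad_finite x)).union (bad_finite y)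
  set s : K := ∑ i ∈ hJ'f.toFinset, sg i (y i) with hs
  have hsN : s ∈ N := N.sum_mem fun i _ => hNsg i _
  have hcoe : ∀ (t : Finset Idx) (j : Idx), (∑ i ∈ t, sg i (y i)) j = if j ∈ t then y j else 0 := by
    intro t j
    induction t using Finset.induction_on with
    | empty => simp
    | insert a t ha ih =>
      rw [Finset.sum_insert ha, RestrictedProduct.add_apply, ih]
      by_cases h : j = a
      · subst h
        rw [sg_same, if_neg ha, add_zero, if_pos (Finset.mem_insert_self _ _)]
      · rw [sg_ne _ h, zero_add]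
        simp [h]
  have hrU : y - s ∈ U J' := by
    refine ⟨fun j => ?_, fun j hj => ?_⟩
    · rw [RestrictedProduct.sub_apply, hs, hcoe]
      split_ifs with h
      · rw [sub_self]; exact (Lf j).zero_mem
      · rw [sub_zero]
        rw [Set.Finite.mem_toFinset] at h
        by_contra h'
        exact h (Or.inr h')
    · rw [RestrictedProduct.sub_apply, hs, hcoe, if_pos (hJ'f.mem_toFinset.2 hj), sub_self]
  have hrN : y - s ∈ N := by
    show χ (y - s) = c x (y - s) ^ 2
    rw [hJ1 _ ⟨hrU.1, fun j hj => hrU.2 j (Or.inl (Or.inl hj))⟩]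
    have : c x (y - s) = 1 := by
      rw [c, ← finprod_one (α := Idx)]
      apply finprod_congr
      intro j
      by_cases hj : j ∈ J'
      · rw [hrU.2 j hj, ci_zero_right]
      · have hxj : x j ∈ Lf j := by
          by_contra h'
          exact hj (Or.inl (Or.inr h'))
        exact ci_of_mem j hxj (hrU.1 j)
    rw [this, one_pow]
  have hyN : y ∈ N := by
    have := N.add_mem hrN hsN
    rwa [sub_add_cancel] at this
  exact hyN

end Pool.Agent.Q106.Mum
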