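import Pool.Agent.Q106.MumB

/-!
# The Mumford group
-/

set_option autoImplicit false

open Filter Topology RestrictedProduct commutatorElement

namespace Pool.Agent.Q106.Mum

instance (i : Idx) : CompactSpace (Lf i) := Finite.compactSpace

theorem c_cont {X : Type} [TopologicalSpace X] {f g : X → K} (hf : Continuous f)
    (hg : Continuous g) : Continuous fun z => c (f z) (g z) := by
  exact Continuous.comp₂ (g := fun z : K × K => c z.1 z.2) c_continuous hf hg

/-- The central extension of `K` by the circle with cocycle `c`. -/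
@[ext] structure Gp where
  /-- the central coordinate -/
  t : Circle
  /-- the coordinate in `K` -/
  x : K

/-- Coordinates. -/
def toPr : Gp ≃ Circle × K where
  toFun g := (g.t, g.x)
  invFun z := ⟨z.1, z.2⟩
  left_inv _ := rfl
  right_inv _ := rfl

noncomputable instance : TopologicalSpace Gp := TopologicalSpace.induced toPr inferInstance

/-- Coordinates, as a homeomorphism. -/
noncomputable def hom' : Gp ≃ₜ Circle × K := toPr.toHomeomorphOfIsInducing ⟨rfl⟩

instance : T2Space Gp := hom'.symm.t2Space
instance : LocallyCompactSpace Gp := hom'.isClosedEmbedding.locallyCompactSpace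

theorem t_continuous : Continuous Gp.t := continuous_fst.comp hom'.continuous
theorem x_continuous : Continuous Gp.x := continuous_snd.comp hom'.continuous
theorem mk_continuous {X : Type} [TopologicalSpace X] {f : X → Circle} {g : X → K}
    (hf : Continuous f) (hg : Continuous g) : Continuous fun z => (⟨f z, g z⟩ : Gp) :=
  hom'.symm.continuous.comp (hf.prodMk hg)

theorem c_neg_left (x y : K) : c (-x) y = (c x y)⁻¹ := by
  apply eq_inv_of_mul_eq_one_left
  rw [← c_add_left, neg_add_cancel, c_zero_left]

noncomputable instance : Mul Gp := ⟨fun a b => ⟨a.t * b.t * c a.x b.x, a.x + b.x⟩⟩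
noncomputable instance : One Gp := ⟨⟨1, 0⟩⟩
noncomputable instance : Inv Gp := ⟨fun a => ⟨a.t⁻¹, -a.x⟩⟩

theorem mul_def (a b : Gp) : a * b = ⟨a.t * b.t * c a.x b.x, a.x + b.x⟩ := rfl

noncomputable instance : Group Gp :=
  Group.ofLeftAxioms
    (by
      intro a b d
      refine Gp.ext ?_ (add_assoc _ _ _)
      show a.t * b.t * c a.x b.x * d.t * c (a.x + b.x) d.x =
        a.t * (b.t * d.t * c b.x d.x) * c a.x (b.x + d.x)
      rw [c_add_left, c_add_right]
      simp only [mul_assoc, mul_comm, mul_left_comm])
    (by
      intro a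
      refine Gp.ext ?_ (zero_add _)
      show 1 * a.t * c 0 a.x = a.t
      rw [c_zero_left, one_mul, mul_one])
    (by
      intro a
      refine Gp.ext ?_ (neg_add_cancel _)
      show a.t⁻¹ * a.t * c (-a.x) a.x = 1
      rw [c_neg_left, c_self, inv_one, mul_one, inv_mul_cancel])

theorem snd_mul (a b : Gp) : (a * b).x = a.x + b.x := rfl
theorem snd_inv (a : Gp) : (a⁻¹).x = -a.x := rfl
theorem snd_one : (1 : Gp).x = 0 := rfl

instance : IsTopologicalGroup Gp where
  continuous_mul := by
    have e1 : Continuous fun z : Gp × Gp => z.1.t := t_continuous.comp continuous_fst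
    have e2 : Continuous fun z : Gp × Gp => z.2.t := t_continuous.comp continuous_snd
    have e4 : Continuous fun z : Gp × Gp => z.1.x := x_continuous.comp continuous_fst
    have e5 : Continuous fun z : Gp × Gp => z.2.x := x_continuous.comp continuous_snd
    have e3 : Continuous fun z : Gp × Gp => c z.1.x z.2.x := c_cont e4 e5
    exact mk_continuous ((e1.mul e2).mul e3) (e4.add e5)
  continuous_inv := mk_continuous t_continuous.inv x_continuous.neg

/-- The standard section. -/
noncomputable def sec (x : K) : Gp := ⟨1, x⟩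
/-- The central circle. -/
noncomputable def cen (t : Circle) : Gp := ⟨t, 0⟩

theorem comm_eq (a b : Gp) : a * b = cen (c a.x b.x ^ 2) * (b * a) := by
  refine Gp.ext ?_ ?_
  · show a.t * b.t * c a.x b.x = c a.x b.x ^ 2 * (b.t * a.t * c b.x a.x) * c 0 (b.x + a.x)
    rw [c_zero_left, c_swap b.x a.x, mul_one, sq]
    have : c a.x b.x * c a.x b.x * (b.t * a.t * (c a.x b.x)⁻¹) =
      a.t * b.t * c a.x b.x * (c a.x b.x * (c a.x b.x)⁻¹) := by
      simp only [mul_assoc, mul_comm, mul_left_comm]
    rw [this, mul_inv_cancel, mul_one]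
  · show a.x + b.x = 0 + (b.x + a.x)
    rw [zero_add, add_comm]

theorem commutator_eq (a b : Gp) : ⁅a, b⁆ = cen (c a.x b.x ^ 2) := by
  rw [commutatorElement_def, comm_eq a b]
  group

theorem commute_iff (a b : Gp) : a * b = b * a ↔ c a.x b.x ^ 2 = 1 := by
  rw [comm_eq a b, mul_eq_right]
  constructor
  · intro h
    exact congrArg Gp.t h
  · intro h
    rw [h]; rfl

theorem mem_center_iff' (a : Gp) : a ∈ Subgroup.center Gp ↔ a.x = 0 := by
  rw [Subgroup.mem_center_iff]
  constructor
  · intro h
    apply c_ndg
    intro y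
    have := (commute_iff a (sec y)).1 (h (sec y)).symm
    exact this
  · intro h b
    refine ((commute_iff a b).2 ?_).symm
    rw [h, c_zero_left, one_pow]

/-- The centre is the circle. -/
noncomputable def zet : Subgroup.center Gp ≃ₜ* Circle where
  toFun z := (z : Gp).t
  invFun t := ⟨cen t, (mem_center_iff' _).2 rfl⟩
  left_inv z := by
    apply Subtype.ext
    refine Gp.ext rfl ?_
    exact ((mem_center_iff' _).1 z.2).symm
  right_inv t := rfl
  map_mul' a b := by
    show (a : Gp).t * (b : Gp).t * c (a : Gp).x (b : Gp).x = _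
    rw [(mem_center_iff' _).1 a.2, c_zero_left, mul_one]
  continuous_toFun := t_continuous.comp continuous_subtype_val
  continuous_invFun := by
    apply Continuous.subtype_mk
    exact mk_continuous continuous_id continuous_const

/-- The quotient by the centre. -/
abbrev Qt : Type := Gp ⧸ Subgroup.center Gp

/-- The map of the quotient to `K`. -/
noncomputable def kb : Qt → K := Quotient.lift (fun g : Gp => g.x) (by
  intro a b hab
  have h1 : a⁻¹ * b ∈ Subgroup.center Gp := QuotientGroup.leftRel_apply.1 hab
  have h2 := (mem_center_iff' _).1 h1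
  rw [snd_mul, snd_inv] at h2
  exact (neg_add_eq_zero.1 h2))

theorem kb_mk (g : Gp) : kb (QuotientGroup.mk g) = g.x := rfl

theorem kb_continuous : Continuous kb :=
  Continuous.quotient_lift x_continuous _

theorem kb_mul (u v : Qt) : kb (u * v) = kb u + kb v := by
  obtain ⟨a, rfl⟩ := QuotientGroup.mk_surjective u
  obtain ⟨b, rfl⟩ := QuotientGroup.mk_surjective v
  rfl

theorem kb_one : kb 1 = 0 := rfl

theorem kb_inj {u v : Qt} (h : kb u = kb v) : u = v := by
  obtain ⟨a, rfl⟩ := QuotientGroup.mk_surjective u
  obtain ⟨b, rfl⟩ := QuotientGroup.mk_surjective v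
  apply QuotientGroup.eq.2
  rw [mem_center_iff', snd_mul, snd_inv]
  rw [kb_mk, kb_mk] at h
  rw [h, neg_add_cancel]

/-- The section to the quotient. -/
noncomputable def sq' (x : K) : Qt := QuotientGroup.mk (sec x)

theorem kb_sq (x : K) : kb (sq' x) = x := rfl

theorem sq_continuous : Continuous sq' := by
  have h1 : Continuous sec := mk_continuous continuous_const continuous_id
  exact QuotientGroup.continuous_mk.comp h1

/-- The Mumford map. -/
noncomputable def MM : Qt →* PontryaginDual Qt where
  toFun u :=
    ({ toFun := fun v => c (kb u) (kb v) ^ 2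
       map_one' := by
        show c (kb u) (kb 1) ^ 2 = 1
        rw [kb_one, c_zero_right, one_pow]
       map_mul' := by
        intro v w
        show c (kb u) (kb (v * w)) ^ 2 = _
        rw [kb_mul, c_add_right, mul_pow]
       continuous_toFun := by
        exact (c_cont (continuous_const (y := kb u)) kb_continuous).pow 2 } :
      Qt →ₜ* Circle)
  map_one' := by
    apply PontryaginDual.ext
    intro v
    show c (kb 1) (kb v) ^ 2 = 1
    rw [kb_one, c_zero_left, one_pow]
  map_mul' u v := by
    apply PontryaginDual.ext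
    intro w
    show c (kb (u * v)) (kb w) ^ 2 = c (kb u) (kb w) ^ 2 * c (kb v) (kb w) ^ 2
    rw [kb_mul, c_add_left, mul_pow]

theorem MM_apply (u v : Qt) : MM u v = c (kb u) (kb v) ^ 2 := rfl

theorem MM_continuous : Continuous MM := by
  apply ContinuousMonoidHom.continuous_of_continuous_uncurry
    (f := fun u : Qt => (MM u : Qt →ₜ* Circle))
  show Continuous fun z : Qt × Qt => c (kb z.1) (kb z.2) ^ 2
  exact (c_cont (kb_continuous.comp continuous_fst) (kb_continuous.comp continuous_snd)).pow 2

theorem MM_bijective : Function.Bijective MM := by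
  constructor
  · rw [injective_iff_map_eq_one]
    intro u hu
    apply kb_inj
    rw [kb_one]
    apply c_ndg
    intro y
    have := congrArg (fun ψ : PontryaginDual Qt => ψ (sq' y)) hu
    simpa [MM_apply, kb_sq] using this
  · intro ψ
    have hψ : Continuous fun u : Qt => ψ u := map_continuous ψ
    obtain ⟨x, hx⟩ := char_surj (fun y => ψ (sq' y)) (hψ.comp sq_continuous)
      (by
        have : sq' 0 = 1 := kb_inj rfl
        show ψ (sq' 0) = 1
        rw [this, map_one])
      (by
        intro y z
        have : sq' (y + z) = sq' y * sq' z := kb_inj rfl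
        show ψ (sq' (y + z)) = ψ (sq' y) * ψ (sq' z)
        rw [this, map_mul])
    refine ⟨sq' x, ?_⟩
    apply PontryaginDual.ext
    intro v
    rw [MM_apply, kb_sq, ← hx]
    congr 1
    exact kb_inj rfl

/-- The inverse of the Mumford map is continuous. -/
theorem MM_inv_continuous : Continuous (MulEquiv.ofBijective MM MM_bijective).symm := by
  have : IsTopologicalGroup (PontryaginDual Qt) := inferInstance
  apply continuous_of_continuousAt_one
  rw [ContinuousAt, map_one]
  intro W hW
  obtain ⟨W', hW'1, hW'2, hW'3⟩ := mem_nhds_iff.1 hW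
  -- the compact set
  let C : Set Qt := sq' '' (U ∅)
  have hC : IsCompact C := isCompact_U.image sq_continuous
  have hCmem : ∀ u, kb u ∈ U ∅ → u ∈ C := fun u hu => ⟨kb u, hu, kb_inj rfl⟩
  let V1 : Set (PontryaginDual Qt) := {ψ | Set.MapsTo ψ C (Circle.centeredArc (Real.pi / 2))}
  have hV1 : IsOpen V1 :=
    isOpen_induced (ContinuousMap.isOpen_setOfPred_mapsTo hC
      (Circle.isOpen_centeredArc (Real.pi / 2)))
  have hV1sub : ∀ u, MM u ∈ V1 → u ∈ C := by
    intro u hu
    apply hCmem
    apply mem_of_perp
    intro y hy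
    apply Circle.eq_one_of_forall_pow_mem_centeredArc_pi_div_two
    intro n _
    have h1 : MM u (sq' (n • y)) ∈ Circle.centeredArc (Real.pi / 2) :=
      hu ⟨n • y, nsmul_mem_U hy n, rfl⟩
    rw [MM_apply, kb_sq] at h1
    have h2 : ∀ m : ℕ, c (kb u) (m • y) = c (kb u) y ^ m := by
      intro m
      induction m with
      | zero => rw [zero_smul, c_zero_right, pow_zero]
      | succ m ih => rw [succ_nsmul, c_add_right, ih, pow_succ]
    rw [h2, ← pow_mul, mul_comm, pow_mul] at h1
    exact h1
  let V2 : Set (PontryaginDual Qt) := (MM '' (C \ W'))ᶜ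
  have hV2 : IsOpen V2 := by
    have : IsCompact (MM '' (C \ W')) := (hC.diff hW'2).image MM_continuous
    exact this.isClosed.isOpen_compl
  have h1V1 : (1 : PontryaginDual Qt) ∈ V1 := by
    intro v _
    show (1 : PontryaginDual Qt) v ∈ _
    rw [PontryaginDual.one_apply, Circle.mem_centeredArc (by linarith [Real.pi_pos])]
    simp [Real.pi_pos]
  have h1V2 : (1 : PontryaginDual Qt) ∈ V2 := by
    rintro ⟨u, hu, hu1⟩
    have : u = 1 := MM_bijective.1 (by rw [hu1, map_one])
    exact hu.2 (this ▸ hW'3)
  have hV : V1 ∩ V2 ∈ 𝓝 (1 : PontryaginDual Qt) := (hV1.inter hV2).mem_nhds ⟨h1V1, h1V2⟩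
  rw [Filter.mem_map]
  filter_upwards [hV] with ψ hψ
  obtain ⟨u, rfl⟩ := MM_bijective.2 ψ
  have e : (MulEquiv.ofBijective MM MM_bijective).symm (MM u) = u :=
    (MulEquiv.ofBijective MM MM_bijective).symm_apply_apply u
  show (MulEquiv.ofBijective MM MM_bijective).symm (MM u) ∈ W
  rw [e]
  apply hW'1
  by_contra hcon
  exact hψ.2 ⟨u, ⟨hV1sub u hψ.1, hcon⟩, rfl⟩

/-- The Mumford map is an isomorphism of topological groups. -/
noncomputable def ME : Qt ≃ₜ* PontryaginDual Qt :=
  { MulEquiv.ofBijective MM MM_bijective with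
    continuous_toFun := MM_continuous
    continuous_invFun := MM_inv_continuous }

theorem ME_apply (u v : Qt) : ME u v = c (kb u) (kb v) ^ 2 := rfl

end Pool.Agent.Q106.Mum
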