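import Pool.Agent.Q106.MumC

/-!
# The Mumford group is not a generalized Heisenberg group
-/

set_option autoImplicit false

open Filter Topology RestrictedProduct

namespace Pool.Agent.Q106.Mum

instance : Infinite Idx := by
  have h : ({p : ℕ | p.Prime} \ {2}).Infinite :=
    Nat.infinite_setOfPred_prime.sdiff (Set.finite_singleton 2)
  have h2 : {p : ℕ | p.Prime ∧ p ≠ 2} = {p : ℕ | p.Prime} \ {2} := by ext p; simp
  rw [← h2] at h
  exact h.to_subtype

/-- Basic neighbourhoods. -/
theorem exists_U_subset (W : Set K) (hW : IsOpen W) (h0 : (0 : K) ∈ W) :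
    ∃ J : Set Idx, J.Finite ∧ U J ⊆ W := by
  let f : (Π i, (Lf i : Set (Kf i))) → K := fun z =>
    RestrictedProduct.structureMap Kf (fun i => (Lf i : Set (Kf i))) cofinite z
  have hf : Continuous f := RestrictedProduct.isEmbedding_structureMap.continuous
  let z0 : Π i, (Lf i : Set (Kf i)) := fun i => ⟨0, (Lf i).zero_mem⟩
  have hmem : z0 ∈ f ⁻¹' W := h0
  obtain ⟨I, u, hu1, hu2⟩ := isOpen_pi_iff.1 (hW.preimage hf) z0 hmem
  refine ⟨I, I.finite_toSet, fun x hx => ?_⟩
  have h1 : (fun i => ⟨x i, hx.1 i⟩ : Π i, (Lf i : Set (Kf i))) ∈ f ⁻¹' W := by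
    apply hu2
    intro i hi
    have h2 : (⟨x i, hx.1 i⟩ : (Lf i : Set (Kf i))) = z0 i := Subtype.ext (hx.2 i hi)
    show (⟨x i, hx.1 i⟩ : (Lf i : Set (Kf i))) ∈ u i
    rw [h2]
    exact (hu1 i hi).2
  exact h1

theorem c_sub_left (x y z : K) : c (x - y) z = c x z * (c y z)⁻¹ := by
  rw [sub_eq_add_neg, c_add_left, c_neg_left]

theorem sg_nsmul (i : Idx) (n : ℕ) (z : Kf i) : n • sg i z = sg i (n • z) := by
  apply RestrictedProduct.ext
  intro j
  rw [RestrictedProduct.nsmul_apply]
  by_cases h : j = i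
  · subst h; rw [sg_same, sg_same]
  · rw [sg_ne _ h, sg_ne _ h, smul_zero]

/-- There is no continuous polarisation of `K`. -/
theorem no_polarisation (q : K →+ K) (hq : Continuous q) (hid : ∀ x, q (q x) = q x)
    (h1 : ∀ x y, c (q x) (q y) ^ 2 = 1) (h2 : ∀ x y, c (x - q x) (y - q y) ^ 2 = 1) : False := by
  obtain ⟨J, hJ, hJU⟩ := exists_U_subset (q ⁻¹' (U ∅)) ((isOpen_U Set.finite_empty).preimage hq)
    (by
      show q 0 ∈ U ∅
      rw [map_zero]
      exact zero_mem_U ∅)
  obtain ⟨i, hi⟩ : ∃ i, i ∉ J := hJ.exists_notMem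
  have hsg0 : sg i (0 : Kf i) = 0 := by
    have := sg_add i 0 0
    rw [add_zero] at this
    exact left_eq_add.1 this
  let qi : Kf i →+ Kf i :=
    { toFun := fun z => (q (sg i z)) i
      map_zero' := by
        rw [hsg0, map_zero]
        rfl
      map_add' := by
        intro z w
        rw [sg_add, map_add]
        rfl }
  have hqi : ∀ z, qi z = (q (sg i z)) i := fun z => rfl
  have hsg : ∀ z, q (sg i z) = sg i (qi z) := by
    intro z
    apply RestrictedProduct.ext
    intro j
    by_cases h : j = i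
    · subst h
      rw [sg_same]
      rfl
    · rw [sg_ne _ h]
      have e1 : ((i : ℕ) ^ 8) • (q (sg i z)) j = 0 := by
        rw [← RestrictedProduct.nsmul_apply, ← map_nsmul, sg_nsmul, pow_smul_eq_zero, hsg0,
          map_zero]
        rfl
      have e2 : ((j : ℕ) ^ 8) • (q (sg i z)) j = 0 := pow_smul_eq_zero _
      have hcop : Nat.Coprime ((i : ℕ) ^ 8) ((j : ℕ) ^ 8) := by
        apply Nat.Coprime.pow
        rw [Nat.coprime_primes i.2.1 j.2.1]
        exact fun h' => h (Subtype.ext h'.symm)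
      have d1 := addOrderOf_dvd_of_nsmul_eq_zero e1
      have d2 := addOrderOf_dvd_of_nsmul_eq_zero e2
      have d3 : addOrderOf ((q (sg i z)) j) = 1 :=
        Nat.dvd_one.1 (hcop ▸ Nat.dvd_gcd d1 d2)
      exact AddMonoid.addOrderOf_eq_one_iff.1 d3
  have hsub : ∀ z w : Kf i, sg i (z - w) = sg i z - sg i w := by
    intro z w
    rw [eq_sub_iff_add_eq, ← sg_add, sub_add_cancel]
  refine no_split i.2.1 qi ?_ ?_ ?_ ?_
  · intro z
    have e := congrArg (fun x : K => x i) (hid (sg i z))
    rw [hsg, hsg] at e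
    beta_reduce at e
    rw [sg_same, sg_same] at e
    exact e
  · intro z hz
    have hU : sg i z ∈ U J := by
      refine ⟨fun j => ?_, fun j hj => ?_⟩
      · by_cases h : j = i
        · subst h; rw [sg_same]; exact hz
        · rw [sg_ne _ h]; exact (Lf j).zero_mem
      · exact sg_ne _ (fun h => hi (h ▸ hj))
    exact (hJU hU).1 i
  · intro z w
    apply fm_of_sq i
    have e := h1 (sg i z) (sg i w)
    rw [hsg w, c_sg] at e
    exact e
  · intro z w
    apply fm_of_sq i
    have e := h2 (sg i z) (sg i w)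
    rw [hsg z, hsg w, ← hsub, ← hsub, c_sg, sg_same] at e
    exact e

section Heis

universe u

variable {E F A : Type u} [AddCommGroup E] [AddCommGroup F] [AddCommGroup A]

/-- The generalized Heisenberg group of a bilinear map. -/
@[ext] structure Heis (ω : E →+ F →+ A) where
  /-- central coordinate -/
  a : A
  /-- first coordinate -/
  b : E
  /-- second coordinate -/
  c : F

variable {ω : E →+ F →+ A}

instance : Mul (Heis ω) := ⟨fun g h => ⟨g.a + h.a + ω g.b h.c, g.b + h.b, g.c + h.c⟩⟩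
instance : One (Heis ω) := ⟨⟨0, 0, 0⟩⟩
instance : Inv (Heis ω) := ⟨fun g => ⟨-g.a + ω g.b g.c, -g.b, -g.c⟩⟩

theorem hmul (g h : Heis ω) : g * h = ⟨g.a + h.a + ω g.b h.c, g.b + h.b, g.c + h.c⟩ := rfl
theorem hone : (1 : Heis ω) = ⟨0, 0, 0⟩ := rfl

instance : Group (Heis ω) :=
  Group.ofLeftAxioms
    (by
      intro g h k
      simp only [hmul, map_add, AddMonoidHom.add_apply]
      ext1
      · show g.a + h.a + ω g.b h.c + k.a + (ω g.b k.c + ω h.b k.c) =
          g.a + (h.a + k.a + ω h.b k.c) + (ω g.b h.c + ω g.b k.c)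
        abel
      · exact add_assoc _ _ _
      · exact add_assoc _ _ _)
    (by
      intro g
      simp [hmul, hone])
    (by
      intro g
      show (⟨-g.a + ω g.b g.c + g.a + ω (-g.b) g.c, -g.b + g.b, -g.c + g.c⟩ : Heis ω) = ⟨0, 0, 0⟩
      rw [map_neg, AddMonoidHom.neg_apply]
      ext1
      · show -g.a + ω g.b g.c + g.a + -ω g.b g.c = 0
        abel
      · exact neg_add_cancel _
      · exact neg_add_cancel _)

/-- The projection to the first factor, as an endomorphism. -/
def pE : Heis ω →* Heis ω where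
  toFun h := ⟨0, h.b, 0⟩
  map_one' := rfl
  map_mul' g h := by
    rw [hmul, hmul]
    simp

theorem pE_apply (h : Heis ω) : pE h = ⟨0, h.b, 0⟩ := rfl

/-- A central element. -/
theorem cen_iff (h : Heis ω) (hc : ∀ k, k * h = h * k) (c' : F) : ω h.b c' = 0 := by
  have e := congrArg Heis.a (hc ⟨0, 0, c'⟩)
  simp [hmul] at e
  exact e

/-- **The Mumford group is not a generalized Heisenberg group.** -/
theorem not_heis [TopologicalSpace (Heis ω)] (hcont : Continuous (pE : Heis ω → Heis ω))
    (Θ : Gp ≃ₜ* Heis ω) : False := by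
  have hΘc : ∀ h : Heis ω, (∀ k, k * h = h * k) → (Θ.symm h).x = 0 := by
    intro h hh
    rw [← mem_center_iff', Subgroup.mem_center_iff]
    intro g
    apply Θ.injective
    rw [map_mul, map_mul, ContinuousMulEquiv.apply_symm_apply]
    exact hh _
  have hcc : ∀ g : Gp, g.x = 0 → ∀ k, k * Θ g = Θ g * k := by
    intro g hg k
    obtain ⟨g', rfl⟩ := Θ.surjective k
    rw [← map_mul, ← map_mul]
    congr 1
    exact Subgroup.mem_center_iff.1 ((mem_center_iff' g).2 hg) g'
  -- the homomorphism to `K`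
  let Q : Gp → K := fun g => (Θ.symm (pE (Θ g))).x
  have hQ : ∀ g, Q g = (Θ.symm (pE (Θ g))).x := fun g => rfl
  have hQmul : ∀ g h, Q (g * h) = Q g + Q h := by
    intro g h
    rw [hQ, hQ, hQ, map_mul, map_mul, map_mul, snd_mul]
  have hQc : ∀ g : Gp, g.x = 0 → Q g = 0 := by
    intro g hg
    apply hΘc
    intro k
    have h1 := cen_iff (Θ g) (hcc g hg)
    rw [pE_apply, hmul, hmul]
    ext1
    · show k.a + 0 + ω k.b 0 = 0 + k.a + ω (Θ g).b k.c
      rw [h1, map_zero]
      abel
    · exact add_comm _ _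
    · exact add_comm _ _
  have hdec : ∀ g : Gp, g = cen g.t * sec g.x := by
    intro g
    refine Gp.ext ?_ ?_
    · show g.t = g.t * 1 * Pool.Agent.Q106.Mum.c 0 g.x
      rw [c_zero_left, mul_one, mul_one]
    · show g.x = 0 + g.x
      rw [zero_add]
  have hQsec : ∀ g : Gp, Q g = Q (sec g.x) := by
    intro g
    calc Q g = Q (cen g.t * sec g.x) := by rw [← hdec g]
      _ = Q (cen g.t) + Q (sec g.x) := hQmul _ _
      _ = Q (sec g.x) := by rw [hQc (cen g.t) rfl, zero_add]
  let q : K →+ K := AddMonoidHom.mk' (fun x => Q (sec x)) (by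
    intro x y
    rw [← hQmul, hQsec (sec x * sec y)]
    rfl)
  have hq : ∀ x, q x = Q (sec x) := fun x => rfl
  have hqQ : ∀ g : Gp, q g.x = Q g := fun g => (hQsec g).symm
  refine no_polarisation q ?_ ?_ ?_ ?_
  · have h1 : Continuous sec := mk_continuous continuous_const continuous_id
    exact x_continuous.comp (Θ.symm.continuous.comp (hcont.comp (Θ.continuous.comp h1)))
  · intro x
    rw [hq x, hQ, hqQ, hQ, ContinuousMulEquiv.apply_symm_apply]
    rfl
  · intro x y
    have hpp : (pE (Θ (sec x)) : Heis ω) * pE (Θ (sec y)) = pE (Θ (sec y)) * pE (Θ (sec x)) := by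
      rw [pE_apply, pE_apply, hmul, hmul]
      ext1
      · show (0 : A) + 0 + ω _ 0 = 0 + 0 + ω _ 0
        rw [map_zero, map_zero]
      · exact add_comm _ _
      · rfl
    rw [hq x, hq y, hQ, hQ, ← commute_iff]
    exact (map_mul Θ.symm _ _).symm.trans ((congrArg Θ.symm hpp).trans (map_mul Θ.symm _ _))
  · have hr : ∀ x : K, x - q x = (Θ.symm ⟨0, 0, (Θ (sec x)).c⟩).x := by
      intro x
      set h := Θ (sec x) with hh
      have e : h = ⟨h.a - ω h.b h.c, 0, 0⟩ * (pE h * ⟨0, 0, h.c⟩) := by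
        rw [pE_apply, hmul, hmul]
        ext1
        · simp
        · simp
        · simp
      have e2 : sec x = Θ.symm ⟨h.a - ω h.b h.c, 0, 0⟩ * (Θ.symm (pE h) *
          Θ.symm ⟨0, 0, h.c⟩) := by
        rw [← map_mul, ← map_mul, ← e, hh, ContinuousMulEquiv.symm_apply_apply]
      have e3 := congrArg Gp.x e2
      rw [snd_mul, snd_mul, hΘc ⟨h.a - ω h.b h.c, 0, 0⟩ (by
        intro k
        rw [hmul, hmul]
        ext1
        · simp [add_comm]
        · simp
        · simp), zero_add] at e3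
      have e4 : (Θ.symm (pE h)).x = q x := rfl
      rw [e4] at e3
      have e5 : x = q x + (Θ.symm ⟨0, 0, h.c⟩).x := e3
      rw [sub_eq_iff_eq_add']
      exact e5
    intro x y
    rw [hr, hr, ← commute_iff, ← map_mul, ← map_mul]
    congr 1
    rw [hmul, hmul]
    ext1
    · show (0 : A) + 0 + ω 0 _ = 0 + 0 + ω 0 _
      rw [map_zero]
      rfl
    · rfl
    · exact add_comm _ _

end Heis

end Pool.Agent.Q106.Mum
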