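import Mathlib
import Pool.Agent.H262.FK5

set_option autoImplicit false

/-!
Free `p`-norms with cost `|a|^p d^σ`: comparison with the truncated costs (after
`Pool.Agent.H262.FP5`, where `σ = p`).
-/

namespace Pool.Agent.Q106.PS

open Finset Pool.Agent.H262.FP

noncomputable section

open scoped Classical

variable {M : Type*} [MetricSpace M]

/-- Lemma C1: separated supports do not see the small scale truncation -/
theorem c1s {p σ : ℝ} (hp : 0 < p) (hp1 : p ≤ 1) (hσ : 0 < σ) (hσ1 : σ ≤ 1) {ε r : ℝ} (hε : 0 < ε) (hεr : ε ≤ r) {o : M}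
    {x : M →₀ ℝ} (S : Set M) (hoS : o ∈ S) (hxS : ∀ s ∈ x.support, s ∈ S)
    (hsep : ∀ s ∈ S, ∀ s' ∈ S, dist s s' ≤ 2 * ε → s = s') :
    nn p (ωr σ r) o x ≤ 5 ^ σ * nn p (ωw σ ε r) o x := by
  have hr : 0 < r := hε.trans_le hεr
  have hωr : ∀ e : M × M, 0 ≤ ωr σ r e := ωr_nonneg hr.le
  have hωw : ∀ e : M × M, 0 ≤ ωw σ ε r e := ωw_nonneg hε.le hr.le
  have h5 : (0:ℝ) < 5 ^ σ := by positivity
  have main : ∀ c, nn p (ωw σ ε r) o x < c → ∀ δ > 0, nn p (ωr σ r) o x ≤ 5 ^ σ * (c + ε ^ σ * δ) := by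
    intro c hc δ hδ
    obtain ⟨f, t, h1, h2, h3⟩ := exists_near_forest hp hp1 hωw hc
    obtain ⟨π, hπ1, hπ2, hπ3⟩ := cut' (p := p) f h3 hε hδ S id le_rfl
      (fun s _ => by simp)
    have hfix : ∀ s ∈ S, π s = s := by
      intro s hs
      obtain ⟨s', hs', h4, h6⟩ := hπ2 s hs
      rw [h4]; exact (hsep s hs s' hs' h6).symm
    have hx : x = ∑ e ∈ f.support, f e • ed (π e.1, π e.2) + t • dl o := by
      have h4 : Finsupp.mapDomain π x = x := by
        rw [Finsupp.mapDomain_congr (g := id) (fun s hs => hfix s (hxS s hs)), Finsupp.mapDomain_id]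
      have h6 : Finsupp.mapDomain π x = Finsupp.mapDomain π (bd f) + t • dl o := by
        conv_lhs => rw [h1]
        rw [Finsupp.mapDomain_add, Finsupp.mapDomain_smul, Finsupp.mapDomain_single, hfix o hoS]
      rw [← mapDomain_bd, ← h6, h4]
    have hle : nn p (ωr σ r) o x ≤ ∑ e ∈ f.support, |f e| ^ p * ωr σ r (π e.1, π e.2) := by
      have h4 := (isPF_nn hp hp1 hωr o).add_le (∑ e ∈ f.support, f e • ed (π e.1, π e.2)) (t • dl o)
      rw [← hx, nn_smul_base hp hp1 hωr, add_zero] at h4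
      exact h4.trans (nn_sum_le hp hp1 hωr o _ _ _)
    have hedge : ∀ e ∈ f.support, |f e| ^ p * ωr σ r (π e.1, π e.2) ≤
        5 ^ σ * (if dist e.1 e.2 < ε then (if π e.1 ≠ π e.2 then ε ^ σ * |f e| ^ p else 0)
          else |f e| ^ p * ωw σ ε r e) := by
      intro e _
      have hd : dist (π e.1) (π e.2) ≤ dist e.1 e.2 + 4 * ε := by
        have h4 := dist_triangle4 (π e.1) e.1 e.2 (π e.2)
        have h6 := hπ1 e.1
        have h7 := hπ1 e.2
        rw [dist_comm] at h6
        linarith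
      have hf0 := abs_rpow_nonneg (p := p) (f e)
      split_ifs with hc1 hc2
      · have h4 : ωr σ r (π e.1, π e.2) ≤ 5 ^ σ * ε ^ σ :=
          (min_le_left _ _).trans (rpow_five hσ.le dist_nonneg hε.le (by simp only; linarith))
        calc |f e| ^ p * ωr σ r (π e.1, π e.2) ≤ |f e| ^ p * (5 ^ σ * ε ^ σ) :=
              mul_le_mul_of_nonneg_left h4 hf0
          _ = _ := by ring
      · rw [not_not] at hc2
        have h4 : ωr σ r (π e.1, π e.2) = 0 := by
          rw [ωr, hc2, dist_self, Real.zero_rpow hσ.ne']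
          exact min_eq_left (Real.rpow_nonneg hr.le _)
        rw [h4, mul_zero, mul_zero]
      · rw [not_lt] at hc1
        have h4 : ωr σ r (π e.1, π e.2) ≤ 5 ^ σ * ωw σ ε r e := by
          have h6 : ωw σ ε r e = ωr σ r e := by
            rw [ωw]
            apply min_eq_right
            refine (min_le_left _ _).trans ?_
            have hdpos : 0 < dist e.1 e.2 := hε.trans_le hc1
            have h7 : dist e.1 e.2 ^ σ = dist e.1 e.2 * dist e.1 e.2 ^ (σ - 1) := by
              rw [Real.rpow_sub_one hdpos.ne']; field_simp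
            rw [h7]
            refine mul_le_mul_of_nonneg_left ?_ hdpos.le
            exact Real.rpow_le_rpow_of_nonpos hε hc1 (by linarith)
          rw [h6, ωr, ωr, mul_min_of_nonneg _ _ h5.le]
          refine le_min ((min_le_left _ _).trans (rpow_five hσ.le dist_nonneg dist_nonneg ?_))
            ((min_le_right _ _).trans ?_)
          · simp only; linarith
          · have h7 : (1:ℝ) ≤ 5 ^ σ := Real.one_le_rpow (by norm_num) hσ.le
            have h8 : 0 ≤ r ^ σ := Real.rpow_nonneg hr.le _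
            nlinarith
        calc |f e| ^ p * ωr σ r (π e.1, π e.2) ≤ |f e| ^ p * (5 ^ σ * ωw σ ε r e) :=
              mul_le_mul_of_nonneg_left h4 hf0
          _ = _ := by ring
    have hsum := hle.trans (Finset.sum_le_sum hedge)
    rw [← Finset.mul_sum, Finset.sum_ite, ← Finset.sum_filter, Finset.filter_filter] at hsum
    refine hsum.trans (mul_le_mul_of_nonneg_left ?_ h5.le)
    rw [← Finset.mul_sum]
    have h4 : ε ^ σ * ∑ e ∈ f.support.filter (fun e => dist e.1 e.2 < ε ∧ π e.1 ≠ π e.2), |f e| ^ p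
        ≤ ∑ e ∈ f.support.filter (fun e => dist e.1 e.2 < ε), |f e| ^ p * ωw σ ε r e + ε ^ σ * δ := by
      refine (mul_le_mul_of_nonneg_left hπ3 (Real.rpow_nonneg hε.le _)).trans ?_
      rw [mul_add, Finset.mul_sum, Finset.mul_sum]
      refine add_le_add (Finset.sum_le_sum (fun e he => ?_)) le_rfl
      rw [Finset.mem_filter] at he
      have h6 : ωw σ ε r e = dist e.1 e.2 * ε ^ (σ - 1) := by
        rw [ωw]
        apply min_eq_left
        have h8 : dist e.1 e.2 * ε ^ (σ - 1) ≤ dist e.1 e.2 ^ σ := by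
          rcases eq_or_lt_of_le (dist_nonneg (x := e.1) (y := e.2)) with h0 | h0
          · rw [← h0, zero_mul, Real.zero_rpow hσ.ne']
          · have h7 : dist e.1 e.2 ^ σ = dist e.1 e.2 * dist e.1 e.2 ^ (σ - 1) := by
              rw [Real.rpow_sub_one h0.ne']; field_simp
            rw [h7]
            refine mul_le_mul_of_nonneg_left ?_ h0.le
            exact Real.rpow_le_rpow_of_nonpos h0 he.2.le (by linarith)
        refine le_min h8 (h8.trans ?_)
        exact Real.rpow_le_rpow dist_nonneg (he.2.le.trans hεr) hσ.le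
      rw [h6, Real.rpow_sub_one hε.ne']
      apply le_of_eq
      field_simp
    have h6 : ∑ e ∈ f.support.filter (fun e => dist e.1 e.2 < ε), |f e| ^ p * ωw σ ε r e +
        ∑ e ∈ f.support.filter (fun e => ¬ dist e.1 e.2 < ε), |f e| ^ p * ωw σ ε r e
        = cost p (ωw σ ε r) f := by
      rw [cost, Finset.sum_filter_add_sum_filter_not]
    linarith
  -- pass to the limit
  refine le_of_forall_pos_lt_add (fun η hη => ?_)
  have hεp : 0 < ε ^ σ := Real.rpow_pos_of_pos hε _
  have h1 := main (nn p (ωw σ ε r) o x + η / (5 ^ σ * 4)) (by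
    have : 0 < η / (5 ^ σ * 4) := by positivity
    linarith) (η / (5 ^ σ * 4 * ε ^ σ)) (by positivity)
  have h2 : 5 ^ σ * (nn p (ωw σ ε r) o x + η / (5 ^ σ * 4) + ε ^ σ * (η / (5 ^ σ * 4 * ε ^ σ)))
      = 5 ^ σ * nn p (ωw σ ε r) o x + η / 2 := by
    field_simp
    ring
  rw [h2] at h1
  linarith

/-- Lemma C2: elements supported near a finite set -/
theorem c2s {p σ : ℝ} (hp : 0 < p) (hp1 : p ≤ 1) (hσ : 0 < σ) (hσ1 : σ ≤ 1) {R r : ℝ} (hR : 0 < R) (hRr : R ≤ r) {o : M}
    (E : Finset M) (hoE : o ∈ E) {z : M →₀ ℝ} (hz : ∀ s ∈ z.support, ∃ u ∈ E, dist s u ≤ R)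
    {c : ℝ} (hc : nn p (ωr σ r) o z < c) :
    ∃ y : M →₀ ℝ, y.support ⊆ E ∧ mass p E y ≤ 4 * c / R ^ σ ∧ nn p (ωf σ) o (z - y) ≤ 13 * c := by
  have hr : 0 < r := hR.trans_le hRr
  have hωr : ∀ e : M × M, 0 ≤ ωr σ r e := ωr_nonneg hr.le
  have hωf : ∀ e : M × M, 0 ≤ ωf σ e := ωf_nonneg σ
  have hc0 : 0 < c := lt_of_le_of_lt (nn_nonneg hωr o z) hc
  have hRp : 0 < R ^ σ := Real.rpow_pos_of_pos hR _
  obtain ⟨f, t, h1, h2, h3⟩ := exists_near_forest hp hp1 hωr hc
  set S : Set M := {s | s = o ∨ s ∈ z.support} with hS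
  have hρex : ∀ s ∈ S, ∃ u ∈ E, dist s u ≤ R := by
    rintro s (rfl | hs)
    · exact ⟨s, hoE, by rw [dist_self]; exact hR.le⟩
    · exact hz s hs
  set ρ : M → M := fun s => if h : ∃ u ∈ E, dist s u ≤ R then Classical.choose h else s with hρ
  have hρ1 : ∀ s ∈ S, ρ s ∈ E ∧ dist s (ρ s) ≤ R := by
    intro s hs
    have h := hρex s hs
    have h4 : ρ s = Classical.choose h := by rw [hρ]; simp only; rw [dif_pos h]
    rw [h4]
    exact Classical.choose_spec h
  obtain ⟨π, hπ1, hπ2, hπ3⟩ := cut' (p := p) f h3 hR (show 0 < c / R ^ σ by positivity) S ρ hR.le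
    (fun s hs => (hρ1 s hs).2)
  have hπE : ∀ s ∈ S, π s ∈ E := by
    intro s hs
    obtain ⟨s', hs', h4, _⟩ := hπ2 s hs
    rw [h4]; exact (hρ1 s' hs').1
  have hbdS : ∀ s ∈ (bd f).support, s ∈ S := by
    intro s hs
    by_contra hcon
    rw [hS, Set.mem_ofPred_eq, not_or] at hcon
    rw [Finsupp.mem_support_iff] at hs
    apply hs
    have h4 : bd f = z - t • dl o := by rw [h1]; abel
    rw [h4, Finsupp.sub_apply, Finsupp.notMem_support_iff.mp hcon.2, Finsupp.smul_apply,
      Finsupp.single_apply, if_neg (fun h => hcon.1 h.symm)]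
    simp
  -- total weight of the non-contracted edges
  have hw : ∑ e ∈ f.support.filter (fun e => ¬ (dist e.1 e.2 < R ∧ π e.1 = π e.2)), |f e| ^ p
      ≤ 2 * c / R ^ σ := by
    have h4 : f.support.filter (fun e => ¬ (dist e.1 e.2 < R ∧ π e.1 = π e.2)) ⊆
        f.support.filter (fun e => dist e.1 e.2 < R ∧ π e.1 ≠ π e.2) ∪
        f.support.filter (fun e => ¬ dist e.1 e.2 < R) := by
      intro e he
      rw [Finset.mem_filter] at he
      rw [Finset.mem_union, Finset.mem_filter, Finset.mem_filter]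
      by_cases hd : dist e.1 e.2 < R
      · left; exact ⟨he.1, hd, fun h => he.2 ⟨hd, h⟩⟩
      · right; exact ⟨he.1, hd⟩
    refine (Finset.sum_le_sum_of_subset_of_nonneg h4 (fun _ _ _ => abs_rpow_nonneg _)).trans ?_
    rw [Finset.sum_union (Finset.disjoint_left.mpr (fun e he he' => by
      rw [Finset.mem_filter] at he he'
      exact he'.2 he.2.1))]
    have h5 : (1 / R) * ∑ e ∈ f.support.filter (fun e => dist e.1 e.2 < R), |f e| ^ p * dist e.1 e.2
        ≤ (1 / R ^ σ) * ∑ e ∈ f.support.filter (fun e => dist e.1 e.2 < R), |f e| ^ p * ωr σ r e := by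
      rw [Finset.mul_sum, Finset.mul_sum]
      refine Finset.sum_le_sum (fun e he => ?_)
      rw [Finset.mem_filter] at he
      have h6 : (1 / R) * dist e.1 e.2 ≤ (1 / R ^ σ) * ωr σ r e := by
        have h7 : ωr σ r e = dist e.1 e.2 ^ σ := by
          rw [ωr]
          exact min_eq_left (Real.rpow_le_rpow dist_nonneg (he.2.le.trans hRr) hσ.le)
        rw [h7, one_div_mul_eq_div, one_div_mul_eq_div, ← Real.div_rpow dist_nonneg hR.le]
        have h8 : dist e.1 e.2 / R ≤ 1 := by rw [div_le_one hR]; exact he.2.le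
        have h9 : 0 ≤ dist e.1 e.2 / R := by positivity
        calc dist e.1 e.2 / R = (dist e.1 e.2 / R) ^ (1:ℝ) := (Real.rpow_one _).symm
          _ ≤ (dist e.1 e.2 / R) ^ σ := Real.rpow_le_rpow_of_exponent_ge' h9 h8 hσ.le hσ1
      calc 1 / R * (|f e| ^ p * dist e.1 e.2) = |f e| ^ p * (1 / R * dist e.1 e.2) := by ring
        _ ≤ |f e| ^ p * (1 / R ^ σ * ωr σ r e) := mul_le_mul_of_nonneg_left h6 (abs_rpow_nonneg _)
        _ = _ := by ring
    have h6 : ∑ e ∈ f.support.filter (fun e => ¬ dist e.1 e.2 < R), |f e| ^ p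
        ≤ (1 / R ^ σ) * ∑ e ∈ f.support.filter (fun e => ¬ dist e.1 e.2 < R), |f e| ^ p * ωr σ r e := by
      rw [Finset.mul_sum]
      refine Finset.sum_le_sum (fun e he => ?_)
      rw [Finset.mem_filter, not_lt] at he
      have h7 : R ^ σ ≤ ωr σ r e :=
        le_min (Real.rpow_le_rpow hR.le he.2 hσ.le) (Real.rpow_le_rpow hR.le hRr hσ.le)
      have h8 := abs_rpow_nonneg (p := p) (f e)
      rw [one_div_mul_eq_div, le_div_iff₀ hRp]
      exact mul_le_mul_of_nonneg_left h7 h8
    have h7 : ∑ e ∈ f.support.filter (fun e => dist e.1 e.2 < R), |f e| ^ p * ωr σ r e +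
        ∑ e ∈ f.support.filter (fun e => ¬ dist e.1 e.2 < R), |f e| ^ p * ωr σ r e
        = cost p (ωr σ r) f := by
      rw [cost, Finset.sum_filter_add_sum_filter_not]
    have h8 : (1 / R ^ σ) * cost p (ωr σ r) f ≤ c / R ^ σ := by
      rw [one_div_mul_eq_div]
      exact div_le_div_of_nonneg_right h2.le hRp.le
    rw [← h7, mul_add] at h8
    have h9 : 2 * c / R ^ σ = c / R ^ σ + c / R ^ σ := by ring
    linarith
  refine ⟨Finsupp.mapDomain π (bd f), ?_, ?_, ?_⟩
  · intro u hu
    have h4 := Finsupp.mapDomain_support hu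
    rw [Finset.mem_image] at h4
    obtain ⟨s, hs, rfl⟩ := h4
    exact hπE s (hbdS s hs)
  · -- mass
    have h4 : mass p E (Finsupp.mapDomain π (bd f)) ≤ ∑ e ∈ f.support, |f e| ^ p * mass p E (ed (π e.1, π e.2)) := by
      rw [mapDomain_bd]
      refine ((isPF_mass hp hp1 E).sum_le hp _ _).trans (le_of_eq ?_)
      exact Finset.sum_congr rfl (fun e _ => (isPF_mass hp hp1 E).smul _ _)
    have h5 : ∑ e ∈ f.support, |f e| ^ p * mass p E (ed (π e.1, π e.2)) ≤
        ∑ e ∈ f.support, (if ¬ (dist e.1 e.2 < R ∧ π e.1 = π e.2) then |f e| ^ p * 2 else 0) := by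
      refine Finset.sum_le_sum (fun e _ => ?_)
      split_ifs with hcase
      · rw [hcase.2]
        have : ed (π e.2, π e.2) = (0 : M →₀ ℝ) := by rw [ed]; simp
        rw [this, (isPF_mass hp hp1 E).zero hp, mul_zero]
      · exact mul_le_mul_of_nonneg_left (mass_ed_le hp hp1 E _) (abs_rpow_nonneg _)
    rw [← Finset.sum_filter, ← Finset.sum_mul] at h5
    calc mass p E (Finsupp.mapDomain π (bd f)) ≤ _ := h4
      _ ≤ _ := h5
      _ ≤ 2 * c / R ^ σ * 2 := by linarith
      _ = 4 * c / R ^ σ := by ring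
  · have hz' : z - Finsupp.mapDomain π (bd f) =
        ∑ e ∈ f.support, f e • (ed e - ed (π e.1, π e.2)) + t • dl o := by
      rw [mapDomain_bd]
      conv_lhs => rw [h1, bd_apply]
      simp only [smul_sub, Finset.sum_sub_distrib]
      abel
    have hPF := isPF_nn hp hp1 hωf o
    have h4 : nn p (ωf σ) o (z - Finsupp.mapDomain π (bd f)) ≤
        ∑ e ∈ f.support, |f e| ^ p * nn p (ωf σ) o (ed e - ed (π e.1, π e.2)) := by
      rw [hz']
      refine (hPF.add_le _ _).trans ?_
      rw [nn_smul_base hp hp1 hωf, add_zero]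
      refine (hPF.sum_le hp _ _).trans (le_of_eq ?_)
      exact Finset.sum_congr rfl (fun e _ => hPF.smul _ _)
    have h5 : ∀ e ∈ f.support, |f e| ^ p * nn p (ωf σ) o (ed e - ed (π e.1, π e.2)) ≤
        |f e| ^ p * ωr σ r e +
        (if ¬ (dist e.1 e.2 < R ∧ π e.1 = π e.2) then |f e| ^ p * (2 * (3 ^ σ * R ^ σ)) else 0) := by
      intro e _
      have hf0 := abs_rpow_nonneg (p := p) (f e)
      split_ifs with hcase
      · rw [add_zero]
        refine mul_le_mul_of_nonneg_left ?_ hf0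
        have : ed (π e.1, π e.2) = (0 : M →₀ ℝ) := by rw [ed, hcase.2]; simp
        rw [this, sub_zero]
        refine (nn_ed_le hp hωf o e).trans ?_
        rw [ωf, ωr]
        exact le_min le_rfl (Real.rpow_le_rpow dist_nonneg (hcase.1.le.trans hRr) hσ.le)
      · have h6 : nn p (ωf σ) o (ed e - ed (π e.1, π e.2)) ≤ 2 * (3 ^ σ * R ^ σ) := by
          have h7 : ed e - ed (π e.1, π e.2) = ed (e.1, π e.1) - ed (e.2, π e.2) := by
            simp only [ed]; abel
          rw [h7]
          refine (hPF.sub_le _ _).trans ?_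
          have h8 : ∀ v, nn p (ωf σ) o (ed (v, π v)) ≤ 3 ^ σ * R ^ σ := by
            intro v
            refine (nn_ed_le hp hωf o _).trans ?_
            rw [ωf, ← Real.mul_rpow (by norm_num) hR.le]
            refine Real.rpow_le_rpow dist_nonneg ?_ hσ.le
            have := hπ1 v
            simp only
            linarith
          have := h8 e.1
          have := h8 e.2
          linarith
        have h7 : 0 ≤ |f e| ^ p * ωr σ r e := mul_nonneg hf0 (hωr e)
        have h8 := mul_le_mul_of_nonneg_left h6 hf0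
        linarith
    have h6 := h4.trans (Finset.sum_le_sum h5)
    rw [Finset.sum_add_distrib, ← Finset.sum_filter, ← Finset.sum_mul] at h6
    have h7 : ∑ e ∈ f.support, |f e| ^ p * ωr σ r e < c := h2
    have h8 : (3:ℝ) ^ σ ≤ 3 := by
      calc (3:ℝ) ^ σ ≤ 3 ^ (1:ℝ) := Real.rpow_le_rpow_of_exponent_le (by norm_num) hσ1
        _ = 3 := Real.rpow_one _
    have h9 : (∑ e ∈ f.support.filter (fun e => ¬ (dist e.1 e.2 < R ∧ π e.1 = π e.2)), |f e| ^ p)
        * (2 * (3 ^ σ * R ^ σ)) ≤ (2 * c / R ^ σ) * (2 * (3 * R ^ σ)) := by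
      refine mul_le_mul hw ?_ (by positivity) (by positivity)
      nlinarith
    have h10 : (2 * c / R ^ σ) * (2 * (3 * R ^ σ)) = 12 * c := by
      field_simp; ring
    linarith

end

end Pool.Agent.Q106.PS
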