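import Mathlib
import Pool.Agent.Q106.PS1

set_option autoImplicit false

/-!
Free `p`-norms with cost `|a|^p d^σ`: detection of small scales (after `Pool.Agent.H262.FP7`), and
total boundedness over totally bounded metric spaces.
-/

namespace Pool.Agent.Q106.PS

open Finset Pool.Agent.H262.FP

noncomputable section

open scoped Classical

variable {M : Type*} [MetricSpace M] {p σ : ℝ}

theorem nn_dl_les {p σ : ℝ} (hp : 0 < p) (hp1 : p ≤ 1) (o t : M) :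
    nn p (ωf σ) o (dl t) ≤ dist t o ^ σ := by
  have h : dl t = ed (t, o) + (1:ℝ) • dl o := by rw [ed, one_smul]; abel
  rw [h]
  refine ((isPF_nn hp hp1 (ωf_nonneg σ) o).add_le _ _).trans ?_
  rw [nn_smul_base hp hp1 (ωf_nonneg σ), add_zero]
  exact nn_ed_le hp (ωf_nonneg σ) o _

theorem nn_r_le_fs {r : ℝ} (hr : 0 ≤ r) (o : M) (v : M →₀ ℝ) :
    nn p (ωr σ r) o v ≤ nn p (ωf σ) o v :=
  nn_mono (ωr_nonneg hr) (fun e => ωr_le_ωf σ r e) o v

/-- C1 for an arbitrary finitely supported element -/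
theorem exists_windows (hp : 0 < p) (hp1 : p ≤ 1) (hσ : 0 < σ) (hσ1 : σ ≤ 1) (o : M) (x : M →₀ ℝ) {r : ℝ} (hr : 0 < r) {c : ℝ}
    (hc : c ≤ nn p (ωr σ r) o x) : ∃ ε : ℝ, 0 < ε ∧ ε ≤ r ∧ c / 5 ≤ nn p (ωw σ ε r) o x := by
  set S : Finset M := insert o x.support with hS
  obtain ⟨η, hη, hsep⟩ : ∃ η > 0, ∀ s ∈ S, ∀ s' ∈ S, s ≠ s' → η ≤ dist s s' := by
    by_cases hne : ((S ×ˢ S).filter (fun q => q.1 ≠ q.2)).Nonempty
    · obtain ⟨q, hq, hmin⟩ := Finset.exists_min_image _ (fun q : M × M => dist q.1 q.2) hne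
      rw [Finset.mem_filter] at hq
      refine ⟨dist q.1 q.2, dist_pos.mpr hq.2, fun s hs s' hs' hss => ?_⟩
      exact hmin (s, s') (Finset.mem_filter.mpr ⟨Finset.mem_product.mpr ⟨hs, hs'⟩, hss⟩)
    · refine ⟨1, one_pos, fun s hs s' hs' hss => ?_⟩
      exfalso
      apply hne
      exact ⟨(s, s'), Finset.mem_filter.mpr ⟨Finset.mem_product.mpr ⟨hs, hs'⟩, hss⟩⟩
  refine ⟨min r (η / 4), lt_min hr (by positivity), min_le_left _ _, ?_⟩
  have hε : 0 < min r (η / 4) := lt_min hr (by positivity)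
  have h1 := c1s hp hp1 hσ hσ1 hε (min_le_left _ _) (o := o) (x := x) (S : Set M)
    (Finset.mem_coe.mpr (Finset.mem_insert_self _ _))
    (fun s hs => Finset.mem_coe.mpr (Finset.mem_insert_of_mem hs))
    (fun s hs s' hs' hd => by
      by_contra hne
      have h2 := hsep s (Finset.mem_coe.mp hs) s' (Finset.mem_coe.mp hs') hne
      have h3 : min r (η / 4) ≤ η / 4 := min_le_right _ _
      linarith)
  have h2 : 0 ≤ nn p (ωw σ (min r (η / 4)) r) o x := nn_nonneg (ωw_nonneg hε.le hr.le) o x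
  have h3 := five_rpow_le hσ1
  rw [div_le_iff₀ (by norm_num)]
  nlinarith

/-- Detection I: scales -/
theorem scaless (hp : 0 < p) (hp1 : p < 1) (hσ : 0 < σ) (hσ1 : σ < 1) (o : M) {x : ℕ → M →₀ ℝ}
    (hLP : ¬ Det (nn p (ωf σ) o) p x) {c : ℝ} (hc : 0 < c) :
    ∃ r : ℝ, 0 < r ∧ ∃ n0, ∀ n, n0 ≤ n → nn p (ωr σ r) o (x n) < c := by
  by_contra hcon
  push Not at hcon
  apply hLP
  have step : ∀ (k : ℕ) (ζ : ℕ × {α : ℝ // 0 < α}), ∃ (τ : ℕ × {α : ℝ // 0 < α}) (ε r : ℝ),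
      ζ.1 < τ.1 ∧ 0 < ε ∧ 0 < r ∧ c / 5 ≤ nn p (ωw σ ε r) o (x τ.1) ∧
      (∀ d : ℝ, (ζ.2 : ℝ) ≤ d → r ^ σ ≤ (1/2) ^ k * d ^ σ) ∧
      (∀ d : ℝ, 0 ≤ d → d ≤ (τ.2 : ℝ) → d * ε ^ (σ - 1) ≤ (1/2) ^ k * d ^ σ) ∧
      (τ.2 : ℝ) ≤ ζ.2 := by
    rintro k ⟨n, β, hβ⟩
    set κ : ℝ := (1/2 : ℝ) ^ k with hκ
    have hκ0 : 0 < κ := by positivity
    have hr : 0 < β * κ ^ (1 / σ) := mul_pos hβ (Real.rpow_pos_of_pos hκ0 _)
    obtain ⟨n', hn', h1⟩ := hcon (β * κ ^ (1 / σ)) hr (n+1)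
    obtain ⟨ε, hε, hεr, h2⟩ := exists_windows hp hp1.le hσ hσ1.le o (x n') hr h1
    have hα : 0 < min β (ε * κ ^ (1 / (1 - σ))) := lt_min hβ (mul_pos hε (Real.rpow_pos_of_pos hκ0 _))
    refine ⟨(n', ⟨min β (ε * κ ^ (1 / (1 - σ))), hα⟩), ε, β * κ ^ (1 / σ), by simp only; omega, hε,
      hr, h2, ?_, ?_, min_le_left _ _⟩
    · intro d hd
      rw [Real.mul_rpow hβ.le (Real.rpow_nonneg hκ0.le _), ← Real.rpow_mul hκ0.le,
        one_div_mul_cancel hσ.ne', Real.rpow_one, mul_comm]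
      exact mul_le_mul_of_nonneg_left (Real.rpow_le_rpow hβ.le hd hσ.le) hκ0.le
    · intro d hd0 hd
      rcases eq_or_lt_of_le hd0 with h0 | h0
      · rw [← h0, zero_mul, Real.zero_rpow hσ.ne', mul_zero]
      · have h3 : d ≤ ε * κ ^ (1 / (1 - σ)) := hd.trans (min_le_right _ _)
        have h4 : d ^ (1 - σ) ≤ ε ^ (1 - σ) * κ := by
          have h5 := Real.rpow_le_rpow h0.le h3 (by linarith : (0:ℝ) ≤ 1 - σ)
          rw [Real.mul_rpow hε.le (Real.rpow_nonneg hκ0.le _), ← Real.rpow_mul hκ0.le,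
            one_div_mul_cancel (by linarith : (1 - σ) ≠ 0), Real.rpow_one] at h5
          exact h5
        have h6 : d = d ^ σ * d ^ (1 - σ) := by
          rw [← Real.rpow_add h0]; simp
        have h7 : ε ^ (1 - σ) * ε ^ (σ - 1) = 1 := by
          rw [← Real.rpow_add hε]; simp
        have h8 : 0 ≤ ε ^ (σ - 1) := Real.rpow_nonneg hε.le _
        have h9 : 0 ≤ d ^ σ := Real.rpow_nonneg hd0 _
        calc d * ε ^ (σ - 1) = d ^ σ * (d ^ (1 - σ) * ε ^ (σ - 1)) := by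
              conv_lhs => rw [h6]
              ring
          _ ≤ d ^ σ * ((ε ^ (1 - σ) * κ) * ε ^ (σ - 1)) :=
              mul_le_mul_of_nonneg_left (mul_le_mul_of_nonneg_right h4 h8) h9
          _ = κ * d ^ σ * (ε ^ (1 - σ) * ε ^ (σ - 1)) := by ring
          _ = κ * d ^ σ := by rw [h7, mul_one]
  choose G Eps Rr hG using step
  set seq : ℕ → ℕ × {α : ℝ // 0 < α} := fun k => Nat.rec (0, ⟨1, one_pos⟩) (fun j ζ => G j ζ) k with hseq
  have hs1 : ∀ k, seq (k+1) = G k (seq k) := fun k => rfl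
  set ν : ℕ → ℕ := fun k => (seq (k+1)).1 with hνdef
  set ε : ℕ → ℝ := fun k => Eps k (seq k) with hε
  set r : ℕ → ℝ := fun k => Rr k (seq k) with hr
  have hall : ∀ k, (seq k).1 < (seq (k+1)).1 ∧ 0 < ε k ∧ 0 < r k ∧ c / 5 ≤ nn p (ωw σ (ε k) (r k)) o (x (ν k)) ∧
      (∀ d : ℝ, ((seq k).2 : ℝ) ≤ d → (r k) ^ σ ≤ (1/2) ^ k * d ^ σ) ∧
      (∀ d : ℝ, 0 ≤ d → d ≤ ((seq (k+1)).2 : ℝ) → d * (ε k) ^ (σ - 1) ≤ (1/2) ^ k * d ^ σ) ∧
      ((seq (k+1)).2 : ℝ) ≤ (seq k).2 := by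
    intro k
    exact hG k (seq k)
  have hν : StrictMono ν := strictMono_nat_of_lt_succ (fun k => (hall (k+1)).1)
  have hanti : Antitone (fun k => ((seq k).2 : ℝ)) := antitone_nat_of_succ_le (fun k => (hall k).2.2.2.2.2.2)
  refine ⟨ν, fun k v => nn p (ωw σ (ε k) (r k)) o v, 3, c / 5, hν,
    (fun k => isPF_nn hp hp1.le (ωw_nonneg (hall k).2.1.le (hall k).2.2.1.le) o),
    by norm_num, by positivity, ?_, (fun k => (hall k).2.2.2.1)⟩
  intro v F
  refine le_nn hp (ωf_nonneg σ) (IsPF.finset_sum F (fun k v => nn p (ωw σ (ε k) (r k)) o v)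
    (fun k _ => isPF_nn hp hp1.le (ωw_nonneg (hall k).2.1.le (hall k).2.2.1.le) o)) ?_ (by norm_num) ?_ v
  · apply Finset.sum_eq_zero
    intro k _
    exact nn_base (ωw_nonneg (hall k).2.1.le (hall k).2.2.1.le) o
  · intro e
    have hd0 : 0 ≤ dist e.1 e.2 := dist_nonneg
    have h1 : ∀ k ∈ F, nn p (ωw σ (ε k) (r k)) o (ed e) ≤ (1/2) ^ k * ωf σ e +
        (if ((seq (k+1)).2 : ℝ) < dist e.1 e.2 ∧ dist e.1 e.2 < ((seq k).2 : ℝ) then ωf σ e else 0) := by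
      intro k _
      refine (nn_ed_le hp (ωw_nonneg (hall k).2.1.le (hall k).2.2.1.le) o e).trans ?_
      have h2 : 0 ≤ (1/2 : ℝ) ^ k * ωf σ e := mul_nonneg (by positivity) (ωf_nonneg σ e)
      split_ifs with hcase
      · have : ωw σ (ε k) (r k) e ≤ ωf σ e := (ωw_le_ωr _ _ _ _).trans (ωr_le_ωf _ _ _)
        linarith
      · rw [add_zero]
        by_cases h3 : ((seq (k+1)).2 : ℝ) < dist e.1 e.2
        · have h4 : ((seq k).2 : ℝ) ≤ dist e.1 e.2 := by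
            by_contra h5
            exact hcase ⟨h3, not_le.mp h5⟩
          exact (ωw_le_ωr _ _ _ _).trans ((min_le_right _ _).trans ((hall k).2.2.2.2.1 _ h4))
        · rw [not_lt] at h3
          exact (min_le_left _ _).trans ((hall k).2.2.2.2.2.1 _ hd0 h3)
    refine (Finset.sum_le_sum h1).trans ?_
    rw [Finset.sum_add_distrib, ← Finset.sum_mul, ← Finset.sum_filter, Finset.sum_const, nsmul_eq_mul]
    have h2 : ∑ k ∈ F, (1/2 : ℝ) ^ k ≤ 2 := by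
      have h3 : Summable (fun k : ℕ => (1/2 : ℝ) ^ k) := summable_geometric_two
      have h4 := h3.sum_le_tsum F (fun k _ => by positivity)
      rwa [tsum_geometric_two] at h4
    have h3 : (F.filter (fun k => ((seq (k+1)).2 : ℝ) < dist e.1 e.2 ∧ dist e.1 e.2 < ((seq k).2 : ℝ))).card ≤ 1 := by
      rw [Finset.card_le_one]
      intro a ha b hb
      rw [Finset.mem_filter] at ha hb
      by_contra hne
      rcases lt_or_gt_of_ne hne with h | h
      · have h4 := hanti (show a + 1 ≤ b from h)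
        simp only at h4
        have := ha.2.1; have := hb.2.2
        linarith
      · have h4 := hanti (show b + 1 ≤ a from h)
        simp only at h4
        have := hb.2.1; have := ha.2.2
        linarith
    have h4 : ((F.filter (fun k => ((seq (k+1)).2 : ℝ) < dist e.1 e.2 ∧ dist e.1 e.2 < ((seq k).2 : ℝ))).card : ℝ) ≤ 1 := by
      exact_mod_cast h3
    have h5 := ωf_nonneg σ e
    nlinarith

theorem nn_le_supporteds (hp : 0 < p) (hp1 : p ≤ 1) (hσ : 0 < σ) (hσ1 : σ ≤ 1) (o : M) (E : Finset M) {w : M →₀ ℝ}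
    (hw : w.support ⊆ E) : nn p (ωf σ) o w ≤ ∑ u ∈ E, |w u| ^ p * dist u o ^ σ := by
  have h1 : w = ∑ u ∈ E, w u • dl u := by
    conv_lhs => rw [← Finsupp.sum_single w, Finsupp.sum]
    rw [Finset.sum_subset hw]
    · exact Finset.sum_congr rfl (fun u _ => by rw [Finsupp.smul_single, smul_eq_mul, mul_one])
    · intro u _ hu
      rw [Finsupp.notMem_support_iff] at hu
      rw [hu]; simp
  conv_lhs => rw [h1]
  refine ((isPF_nn hp hp1 (ωf_nonneg σ) o).sum_le hp _ _).trans ?_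
  refine Finset.sum_le_sum (fun u _ => ?_)
  rw [(isPF_nn hp hp1 (ωf_nonneg σ) o).smul]
  exact mul_le_mul_of_nonneg_left (nn_dl_les hp hp1 o u) (abs_rpow_nonneg _)


/-- if nothing is detected and `M` is totally bounded, the sequence is close to a bounded subset of
a finite-dimensional space -/
theorem approxs (hp : 0 < p) (hp1 : p < 1) (hσ : 0 < σ) (hσ1 : σ < 1)
    (hM : ∀ R : ℝ, 0 < R → ∃ E : Finset M, ∀ s : M, ∃ u ∈ E, dist s u ≤ R) (o : M)
    {x : ℕ → M →₀ ℝ} (hDet : ¬ Det (nn p (ωf σ) o) p x) {c : ℝ} (hc : 0 < c) :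
    ∃ (E : Finset M) (B : ℝ) (n0 : ℕ), ∀ n, n0 ≤ n → ∃ w : M →₀ ℝ, w.support ⊆ E ∧ mass p E w ≤ B ∧
      nn p (ωf σ) o (x n - w) ≤ 13 * c := by
  obtain ⟨r, hr, n1, h1⟩ := scaless hp hp1 hσ hσ1 o hDet hc
  obtain ⟨E, hE⟩ := hM r hr
  refine ⟨insert o E, 4 * c / r ^ σ, n1, fun n hn => ?_⟩
  obtain ⟨w, hw1, hw2, hw3⟩ := c2s hp hp1.le hσ hσ1.le hr le_rfl (insert o E)
    (Finset.mem_insert_self _ _) (z := x n)
    (fun s _ => by
      obtain ⟨u, hu, h⟩ := hE s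
      exact ⟨u, Finset.mem_insert_of_mem hu, h⟩) (h1 n hn)
  exact ⟨w, hw1, hw2, hw3⟩

end

end Pool.Agent.Q106.PS
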