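import Mathlib
import Pool.Agent.Q106.PS2

set_option autoImplicit false

/-!
Free `p`-norms with cost `|a|^p d^σ` over `𝕜 = ℝ, ℂ` (after `Pool.Agent.H262.FK2`, where `σ = p`).
-/

namespace Pool.Agent.Q106.PS

open Finset Pool.Agent.H262.FP

noncomputable section

open scoped Classical

variable {𝕜 : Type} [RCLike 𝕜] {p σ : ℝ}

variable {M : Type} [MetricSpace M]

/-- cost -/
def costS (p σ : ℝ) (f : (M × M) →₀ 𝕜) : ℝ := ∑ e ∈ f.support, ‖f e‖ ^ p * ωf σ e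

theorem costS_eq_sum (hp : 0 < p) {f : (M × M) →₀ 𝕜} {S : Finset (M × M)} (h : f.support ⊆ S) :
    costS p σ f = ∑ e ∈ S, ‖f e‖ ^ p * ωf σ e := by
  unfold costS
  apply Finset.sum_subset h
  intro n _ hn
  rw [Finsupp.notMem_support_iff] at hn
  rw [hn, norm_zero, Real.zero_rpow hp.ne', zero_mul]

theorem costS_nonneg (f : (M × M) →₀ 𝕜) : 0 ≤ costS p σ f :=
  Finset.sum_nonneg (fun _ _ => mul_nonneg (norm_rpow_nonneg _) (ωf_nonneg σ _))

theorem costS_add_le (hp : 0 < p) (hp1 : p ≤ 1) (f g : (M × M) →₀ 𝕜) :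
    costS p σ (f + g) ≤ costS p σ f + costS p σ g := by
  rw [costS_eq_sum hp (Finsupp.support_add : (f+g).support ⊆ f.support ∪ g.support),
    costS_eq_sum hp (Finset.subset_union_left : f.support ⊆ f.support ∪ g.support),
    costS_eq_sum hp (Finset.subset_union_right : g.support ⊆ f.support ∪ g.support),
    ← Finset.sum_add_distrib]
  refine Finset.sum_le_sum (fun e _ => ?_)
  rw [Finsupp.add_apply, ← add_mul]
  exact mul_le_mul_of_nonneg_right (norm_add_rpow_le hp hp1 _ _) (ωf_nonneg σ e)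

theorem costS_smul (hp : 0 < p) (t : 𝕜) (f : (M × M) →₀ 𝕜) :
    costS p σ (t • f) = ‖t‖ ^ p * costS p σ f := by
  rw [costS_eq_sum hp (Finsupp.support_smul : (t • f).support ⊆ f.support), costS, Finset.mul_sum]
  refine Finset.sum_congr rfl (fun n _ => ?_)
  rw [Finsupp.smul_apply, smul_eq_mul, norm_mul, Real.mul_rpow (norm_nonneg _) (norm_nonneg _),
    mul_assoc]

theorem costS_single (hp : 0 < p) (e : M × M) (a : 𝕜) :
    costS p σ (Finsupp.single e a) = ‖a‖ ^ p * ωf σ e := by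
  rw [costS_eq_sum hp (Finsupp.support_single_subset : (Finsupp.single e a).support ⊆ {e})]
  simp

theorem costS_zero : costS p σ (0 : (M × M) →₀ 𝕜) = 0 := by simp [costS]

/-- costs of representations -/
def costSetS (p σ : ℝ) (o : M) (v : M →₀ 𝕜) : Set ℝ :=
  {c | ∃ (f : (M × M) →₀ 𝕜) (t : 𝕜), v = bdK f + t • dlK 𝕜 o ∧ c = costS p σ f}

/-- p-th power of the free p-norm -/
def nnS (p σ : ℝ) (o : M) (v : M →₀ 𝕜) : ℝ := sInf (costSetS p σ o v)

theorem costSetS_nonempty (o : M) (v : M →₀ 𝕜) : (costSetS p σ o v).Nonempty := by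
  obtain ⟨f, t, h⟩ := exists_repK o v
  exact ⟨_, f, t, h, rfl⟩

theorem costSetS_bddBelow (o : M) (v : M →₀ 𝕜) : BddBelow (costSetS p σ o v) := by
  refine ⟨0, ?_⟩
  rintro _ ⟨f, t, _, rfl⟩
  exact costS_nonneg f

theorem nnS_le {o : M} {v : M →₀ 𝕜} {f : (M × M) →₀ 𝕜} {t : 𝕜}
    (h : v = bdK f + t • dlK 𝕜 o) : nnS p σ o v ≤ costS p σ f :=
  csInf_le (costSetS_bddBelow o v) ⟨f, t, h, rfl⟩

theorem exists_nearS {o : M} {v : M →₀ 𝕜} {c : ℝ} (h : nnS p σ o v < c) :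
    ∃ (f : (M × M) →₀ 𝕜) (t : 𝕜), v = bdK f + t • dlK 𝕜 o ∧ costS p σ f < c := by
  obtain ⟨_, ⟨f, t, h1, rfl⟩, h2⟩ := exists_lt_of_csInf_lt (costSetS_nonempty (p := p) (σ := σ) o v) h
  exact ⟨f, t, h1, h2⟩

theorem nnS_nonneg (o : M) (v : M →₀ 𝕜) : 0 ≤ nnS p σ o v := by
  refine le_csInf (costSetS_nonempty o v) ?_
  rintro _ ⟨f, t, _, rfl⟩
  exact costS_nonneg f

theorem nnS_add_le (hp : 0 < p) (hp1 : p ≤ 1) (o : M) (v w : M →₀ 𝕜) :
    nnS p σ o (v + w) ≤ nnS p σ o v + nnS p σ o w := by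
  refine le_of_forall_pos_le_add (fun ε hε => ?_)
  obtain ⟨f, t, h1, h2⟩ := exists_nearS (lt_add_of_pos_right (nnS p σ o v) (half_pos hε))
  obtain ⟨g, u, h3, h4⟩ := exists_nearS (lt_add_of_pos_right (nnS p σ o w) (half_pos hε))
  have h5 : v + w = bdK (f + g) + (t + u) • dlK 𝕜 o := by
    rw [map_add, add_smul]
    nth_rewrite 1 [h1]
    nth_rewrite 1 [h3]
    abel
  have h6 := nnS_le h5 (p := p) (σ := σ)
  have h7 := costS_add_le (σ := σ) hp hp1 f g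
  linarith

theorem nnS_smul_le (hp : 0 < p) (o : M) (t : 𝕜) (v : M →₀ 𝕜) :
    nnS p σ o (t • v) ≤ ‖t‖ ^ p * nnS p σ o v := by
  refine le_of_forall_pos_lt_add (fun ε hε => ?_)
  have hpos : 0 < ‖t‖ ^ p + 1 := by have := norm_rpow_nonneg (p := p) t; linarith
  obtain ⟨f, u, h1, h2⟩ := exists_nearS (lt_add_of_pos_right (nnS p σ o v)
    (show 0 < ε / (‖t‖ ^ p + 1) by positivity))
  have h3 : t • v = bdK (t • f) + (t * u) • dlK 𝕜 o := by
    rw [map_smul, mul_smul, ← smul_add, ← h1]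
  have h4 := nnS_le h3 (p := p) (σ := σ)
  rw [costS_smul hp] at h4
  have h5 : ‖t‖ ^ p * costS p σ f ≤ ‖t‖ ^ p * (nnS p σ o v + ε / (‖t‖ ^ p + 1)) :=
    mul_le_mul_of_nonneg_left h2.le (norm_rpow_nonneg _)
  have h6 : ‖t‖ ^ p * (ε / (‖t‖ ^ p + 1)) < ε := by
    rw [mul_div_assoc', div_lt_iff₀ hpos]
    nlinarith
  nlinarith

theorem isPFK_nnS (hp : 0 < p) (hp1 : p ≤ 1) (o : M) : IsPFK 𝕜 p (nnS (𝕜 := 𝕜) p σ o) where
  nonneg := nnS_nonneg o
  add_le := nnS_add_le hp hp1 o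
  smul := fun t v => by
    apply le_antisymm (nnS_smul_le hp o t v)
    by_cases ht : t = 0
    · subst ht
      rw [norm_zero, Real.zero_rpow hp.ne', zero_mul]
      exact nnS_nonneg o _
    · have h1 := nnS_smul_le (σ := σ) hp o t⁻¹ (t • v)
      rw [smul_smul, inv_mul_cancel₀ ht, one_smul] at h1
      have h2 : ‖t‖ ^ p * ‖t⁻¹‖ ^ p = 1 := by
        rw [← Real.mul_rpow (norm_nonneg _) (norm_nonneg _), ← norm_mul, mul_inv_cancel₀ ht, norm_one,
          Real.one_rpow]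
      calc ‖t‖ ^ p * nnS p σ o v ≤ ‖t‖ ^ p * (‖t⁻¹‖ ^ p * nnS p σ o (t • v)) :=
            mul_le_mul_of_nonneg_left h1 (norm_rpow_nonneg _)
        _ = nnS p σ o (t • v) := by rw [← mul_assoc, h2, one_mul]

theorem nnS_edK_le (hp : 0 < p) (o : M) (e : M × M) : nnS p σ o (edK 𝕜 e) ≤ ωf σ e := by
  have h : edK 𝕜 e = bdK (Finsupp.single e 1) + (0:𝕜) • dlK 𝕜 o := by
    rw [bdK_single, one_smul, zero_smul, add_zero]
  have := nnS_le h (p := p) (σ := σ)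
  rwa [costS_single hp, norm_one, Real.one_rpow, one_mul] at this

theorem nnS_base (o : M) : nnS p σ o (dlK 𝕜 o) = 0 := by
  apply le_antisymm _ (nnS_nonneg o _)
  have h : dlK 𝕜 o = bdK (0 : (M × M) →₀ 𝕜) + (1:𝕜) • dlK 𝕜 o := by
    rw [map_zero, one_smul, zero_add]
  have := nnS_le h (p := p) (σ := σ)
  rwa [costS_zero] at this

/-- maximality -/
theorem le_nnS (hp : 0 < p) {o : M} {Q : (M →₀ 𝕜) → ℝ} (hQ : IsPFK 𝕜 p Q)
    (hQo : Q (dlK 𝕜 o) = 0) {C : ℝ} (hC : 0 ≤ C) (hQe : ∀ e, Q (edK 𝕜 e) ≤ C * ωf σ e) (v : M →₀ 𝕜) :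
    Q v ≤ C * nnS p σ o v := by
  have hrep : ∀ (f : (M × M) →₀ 𝕜) (t : 𝕜), v = bdK f + t • dlK 𝕜 o → Q v ≤ C * costS p σ f := by
    intro f t h
    rw [h]
    refine (hQ.add_le _ _).trans ?_
    rw [hQ.smul, hQo, mul_zero, add_zero, bdK_apply]
    refine (hQ.sum_le hp _ _).trans ?_
    rw [costS, Finset.mul_sum]
    refine Finset.sum_le_sum (fun e _ => ?_)
    rw [hQ.smul]
    calc ‖f e‖ ^ p * Q (edK 𝕜 e) ≤ ‖f e‖ ^ p * (C * ωf σ e) :=
          mul_le_mul_of_nonneg_left (hQe e) (norm_rpow_nonneg _)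
      _ = C * (‖f e‖ ^ p * ωf σ e) := by ring
  refine le_of_forall_pos_lt_add (fun ε hε => ?_)
  obtain ⟨f, t, h1, h2⟩ := exists_nearS (lt_add_of_pos_right (nnS p σ o v)
    (show 0 < ε / (C + 1) by positivity))
  have h3 := hrep f t h1
  have h4 : C * costS p σ f ≤ C * (nnS p σ o v + ε / (C + 1)) :=
    mul_le_mul_of_nonneg_left h2.le hC
  have h5 : C * (ε / (C + 1)) < ε := by
    rw [mul_div_assoc', div_lt_iff₀ (by linarith)]
    nlinarith
  nlinarith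

theorem nn_reF_leS (hp : 0 < p) (hp1 : p ≤ 1) (o : M) (v : M →₀ 𝕜) :
    nn p (ωf σ) o (reF v) ≤ nnS p σ o v := by
  refine le_csInf (costSetS_nonempty o v) ?_
  rintro _ ⟨f, t, h1, rfl⟩
  have h2 : reF v = ∑ e ∈ f.support, RCLike.re (f e) • ed e + RCLike.re t • dl o := by
    rw [h1, reF_add, reF_smul, reF_dlK, imF_dlK, smul_zero, sub_zero, bdK_apply]
    congr 1
    have : ∀ S : Finset (M × M), reF (∑ e ∈ S, f e • edK 𝕜 e) = ∑ e ∈ S, RCLike.re (f e) • ed e := by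
      intro S
      induction S using Finset.induction_on with
      | empty => ext a; simp [reF_apply]
      | insert a s ha ih =>
        rw [Finset.sum_insert ha, Finset.sum_insert ha, reF_add, ih, reF_smul, reF_edK, imF_edK,
          smul_zero, sub_zero]
    exact this _
  rw [h2]
  have hPF := isPF_nn hp hp1 (ωf_nonneg (M := M) σ) o
  refine (hPF.add_le _ _).trans ?_
  rw [nn_smul_base hp hp1 (ωf_nonneg σ), add_zero]
  refine (nn_sum_le hp hp1 (ωf_nonneg σ) o _ _ _).trans ?_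
  exact Finset.sum_le_sum (fun e _ => mul_le_mul_of_nonneg_right (abs_re_rpow_le hp _) (ωf_nonneg σ e))

theorem nn_imF_leS (hp : 0 < p) (hp1 : p ≤ 1) (o : M) (v : M →₀ 𝕜) :
    nn p (ωf σ) o (imF v) ≤ nnS p σ o v := by
  refine le_csInf (costSetS_nonempty o v) ?_
  rintro _ ⟨f, t, h1, rfl⟩
  have h2 : imF v = ∑ e ∈ f.support, RCLike.im (f e) • ed e + RCLike.im t • dl o := by
    rw [h1, imF_add, imF_smul, reF_dlK, imF_dlK, smul_zero, zero_add, bdK_apply]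
    congr 1
    have : ∀ S : Finset (M × M), imF (∑ e ∈ S, f e • edK 𝕜 e) = ∑ e ∈ S, RCLike.im (f e) • ed e := by
      intro S
      induction S using Finset.induction_on with
      | empty => ext a; simp [imF_apply]
      | insert a s ha ih =>
        rw [Finset.sum_insert ha, Finset.sum_insert ha, imF_add, ih, imF_smul, reF_edK, imF_edK,
          smul_zero, zero_add]
    exact this _
  rw [h2]
  have hPF := isPF_nn hp hp1 (ωf_nonneg (M := M) σ) o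
  refine (hPF.add_le _ _).trans ?_
  rw [nn_smul_base hp hp1 (ωf_nonneg σ), add_zero]
  refine (nn_sum_le hp hp1 (ωf_nonneg σ) o _ _ _).trans ?_
  exact Finset.sum_le_sum (fun e _ => mul_le_mul_of_nonneg_right (abs_im_rpow_le hp _) (ωf_nonneg σ e))

theorem nnS_ofF_le (hp : 0 < p) (hp1 : p ≤ 1) (o : M) (v : M →₀ ℝ) :
    nnS p σ o (ofF v : M →₀ 𝕜) ≤ nn p (ωf σ) o v := by
  refine le_csInf (costSet_nonempty o v) ?_
  rintro _ ⟨f, t, h1, rfl⟩
  have hadd : ∀ v w : M →₀ ℝ, (ofF (v + w) : M →₀ 𝕜) = ofF v + ofF w := by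
    intro v w; ext a; simp only [ofF_apply, Finsupp.add_apply, RCLike.ofReal_add]
  have hsmul : ∀ (t : ℝ) (v : M →₀ ℝ), (ofF (t • v) : M →₀ 𝕜) = (t : 𝕜) • ofF v := by
    intro t v; ext a
    simp only [ofF_apply, Finsupp.smul_apply, smul_eq_mul, RCLike.ofReal_mul]
  have hdl : ∀ s : M, (ofF (dl s) : M →₀ 𝕜) = dlK 𝕜 s := by
    intro s; ext a
    rw [ofF_apply, Finsupp.single_apply, Finsupp.single_apply]
    split_ifs <;> simp
  have hed : ∀ e : M × M, (ofF (ed e) : M →₀ 𝕜) = edK 𝕜 e := by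
    intro e
    have : ed e = dl e.1 + (-1 : ℝ) • dl e.2 := by rw [ed]; simp [sub_eq_add_neg]
    rw [this, hadd, hsmul, hdl, hdl, edK]
    simp [sub_eq_add_neg]
  have h2 : (ofF v : M →₀ 𝕜) = ∑ e ∈ f.support, ((f e : ℝ) : 𝕜) • edK 𝕜 e + (t : 𝕜) • dlK 𝕜 o := by
    rw [h1, hadd, hsmul, hdl, bd_apply]
    congr 1
    have : ∀ S : Finset (M × M), (ofF (∑ e ∈ S, f e • ed e) : M →₀ 𝕜) = ∑ e ∈ S, ((f e : ℝ) : 𝕜) • edK 𝕜 e := by
      intro S
      induction S using Finset.induction_on with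
      | empty => ext a; simp [ofF_apply]
      | insert a s ha ih =>
        rw [Finset.sum_insert ha, Finset.sum_insert ha, hadd, ih, hsmul, hed]
    exact this _
  rw [h2]
  have hPF := isPFK_nnS (𝕜 := 𝕜) (σ := σ) hp hp1 o
  refine (hPF.add_le _ _).trans ?_
  rw [hPF.smul, nnS_base, mul_zero, add_zero]
  refine (hPF.sum_le hp _ _).trans ?_
  refine Finset.sum_le_sum (fun e _ => ?_)
  rw [hPF.smul, RCLike.norm_ofReal]
  exact mul_le_mul_of_nonneg_left (nnS_edK_le hp o e) (abs_rpow_nonneg _)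

theorem nnS_le_re_im (hp : 0 < p) (hp1 : p ≤ 1) (o : M) (v : M →₀ 𝕜) :
    nnS p σ o v ≤ nn p (ωf σ) o (reF v) + nn p (ωf σ) o (imF v) := by
  have h1 : v = ofF (reF v) + (RCLike.I : 𝕜) • ofF (imF v) := by
    ext a
    simp only [Finsupp.add_apply, Finsupp.smul_apply, ofF_apply, reF_apply, imF_apply, smul_eq_mul]
    rw [mul_comm]
    exact (RCLike.re_add_im (v a)).symm
  have hPF := isPFK_nnS (𝕜 := 𝕜) (σ := σ) hp hp1 o
  conv_lhs => rw [h1]
  refine (hPF.add_le _ _).trans (add_le_add (nnS_ofF_le hp hp1 o _) ?_)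
  rw [hPF.smul]
  have h2 : ‖(RCLike.I : 𝕜)‖ ^ p ≤ 1 := by
    apply Real.rpow_le_one (norm_nonneg _) _ hp.le
    rcases RCLike.I_mul_I (K := 𝕜) with h | h
    · rw [h]; simp
    · have h3 : ‖(RCLike.I : 𝕜)‖ * ‖(RCLike.I : 𝕜)‖ = 1 := by
        rw [← norm_mul, h, norm_neg, norm_one]
      nlinarith [norm_nonneg (RCLike.I : 𝕜)]
  have h3 := nnS_ofF_le (𝕜 := 𝕜) (σ := σ) hp hp1 o (imF v)
  have h4 := nnS_nonneg (p := p) (σ := σ) o (ofF (imF v) : M →₀ 𝕜)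
  have h5 := norm_rpow_nonneg (p := p) (RCLike.I : 𝕜)
  nlinarith

end

end Pool.Agent.Q106.PS
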