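import Mathlib
import Pool.Agent.Q106.PS4

set_option autoImplicit false

/-!
Transfer to the completion; the space is nonzero; its dual is trivial if `M = [0,1]` and `p < σ`.
-/

namespace Pool.Agent.Q106.PS

open Finset Pool.Agent.H262.FP Pool.Agent.H262.FreeP

noncomputable section

open scoped Classical

variable {𝕜 : Type} [RCLike 𝕜] {p σ : ℝ}

variable {M : Type} [MetricSpace M] {F : Type} [AddCommGroup F] [Module 𝕜 F] {N : F → ℝ}

theorem transferS (hp : 0 < p) (hp1 : p < 1) (hσ : 0 < σ) (hσ1 : σ < 1)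
    (hM : ∀ R : ℝ, 0 < R → ∃ E : Finset M, ∀ s : M, ∃ u ∈ E, dist s u ≤ R) (o : M)
    (hF : IsPBanach 𝕜 p F N) (ι : (M →₀ 𝕜) →ₗ[𝕜] F) (hιN : ∀ μ, N (ι μ) ^ p = nnS p σ o μ)
    (hd : ∀ z, ∀ ε > 0, ∃ μ, N (z - ι μ) < ε)
    {y : ℕ → F} {B : ℝ} (hB : ∀ n, N (y n) ≤ B) {c0 : ℝ} (hc0 : 0 < c0)
    (hsep : ∀ n m, n < m → c0 ≤ N (y n - y m)) : LPK 𝕜 (fun z => N z ^ p) p y := by
  have hPF := isPFK_rpow hF
  have h0 := hF.nonneg
  have happ : ∀ n : ℕ, ∃ μ : M →₀ 𝕜, N (y n - ι μ) ^ p ≤ 1 / ((n:ℝ) + 1) := by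
    intro n
    have hε : (0:ℝ) < 1 / ((n:ℝ) + 1) := by positivity
    obtain ⟨μ, h1⟩ := hd (y n) ((1 / ((n:ℝ) + 1)) ^ (1 / p)) (Real.rpow_pos_of_pos hε _)
    refine ⟨μ, ?_⟩
    have h3 := Real.rpow_le_rpow (h0 _) h1.le hp.le
    rwa [rpow_rpow_inv' hp hε.le] at h3
  choose μ hμ using happ
  have hB0 : 0 ≤ B := (h0 _).trans (hB 0)
  have hτ1 : ∀ n : ℕ, 1 / ((n:ℝ) + 1) ≤ 1 := by
    intro n
    rw [div_le_one (by positivity)]
    have : (0:ℝ) ≤ n := Nat.cast_nonneg n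
    linarith
  have hb : ∀ n, nnS p σ o (μ n) ≤ B ^ p + 1 := by
    intro n
    rw [← hιN (μ n)]
    have h1 : ι (μ n) = y n - (y n - ι (μ n)) := by abel
    have h2 := hPF.sub_le (y n) (y n - ι (μ n))
    rw [← h1] at h2
    have h3 := Real.rpow_le_rpow (h0 _) (hB n) hp.le
    have h4 := hμ n
    have h5 := hτ1 n
    linarith
  have hc0p : 0 < c0 ^ p := Real.rpow_pos_of_pos hc0 _
  obtain ⟨K, hK⟩ := exists_nat_gt (4 / c0 ^ p)
  have hKτ : ∀ n, K ≤ n → 1 / ((n:ℝ) + 1) ≤ c0 ^ p / 4 := by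
    intro n hn
    have h1 : (K:ℝ) ≤ n := by exact_mod_cast hn
    rw [div_le_iff₀ (by positivity)]
    rw [div_lt_iff₀ hc0p] at hK
    nlinarith
  have hsep' : ∀ n m, K ≤ n → n < m → c0 ^ p / 2 ≤ nnS p σ o (μ n - μ m) := by
    intro n m hn hnm
    rw [← hιN, map_sub]
    have h1 : y n - y m = (ι (μ n) - ι (μ m)) + ((y n - ι (μ n)) - (y m - ι (μ m))) := by abel
    have h2 := hPF.add_le (ι (μ n) - ι (μ m)) ((y n - ι (μ n)) - (y m - ι (μ m)))
    rw [← h1] at h2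
    have h3 := hPF.sub_le (y n - ι (μ n)) (y m - ι (μ m))
    have h4 := Real.rpow_le_rpow hc0.le (hsep n m hnm) hp.le
    have h5 := (hμ n).trans (hKτ n hn)
    have h6 := (hμ m).trans (hKτ m (by omega))
    linarith
  obtain ⟨φ, hφ, c, hc, hlow⟩ := main_Ks hp hp1 hσ hσ1 hM o hb (by positivity : 0 < c0 ^ p / 2) hsep'
  obtain ⟨k0, hk0⟩ := exists_nat_gt (2 / c)
  have hφk : ∀ k, 1 / ((φ (k0 + k) : ℝ) + 1) ≤ c / 2 := by
    intro k
    have h1 : k0 + k ≤ φ (k0 + k) := hφ.id_le _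
    have h2 : (k0:ℝ) ≤ (φ (k0 + k) : ℝ) := by exact_mod_cast (Nat.le_add_right k0 k).trans h1
    rw [div_le_iff₀ (by positivity)]
    rw [div_lt_iff₀ hc] at hk0
    nlinarith
  refine ⟨fun k => φ (k0 + k), fun a b hab => hφ (by omega), c / 2, by positivity, fun G β => ?_⟩
  have h1 := hlow (G.image (fun k => k0 + k)) (fun k => β (k - k0))
  rw [Finset.sum_image (fun a _ b _ hab => Nat.add_left_cancel hab),
    Finset.sum_image (fun a _ b _ hab => Nat.add_left_cancel hab)] at h1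
  simp only [Nat.add_sub_cancel_left] at h1
  rw [← hιN] at h1
  have h2 : ι (∑ k ∈ G, β k • μ (φ (k0 + k))) = (∑ k ∈ G, β k • y (φ (k0 + k))) -
      ∑ k ∈ G, β k • (y (φ (k0 + k)) - ι (μ (φ (k0 + k)))) := by
    rw [map_sum, ← Finset.sum_sub_distrib]
    refine Finset.sum_congr rfl (fun k _ => ?_)
    rw [map_smul, smul_sub, sub_sub_cancel]
  have h3 := hPF.sub_le (∑ k ∈ G, β k • y (φ (k0 + k)))
    (∑ k ∈ G, β k • (y (φ (k0 + k)) - ι (μ (φ (k0 + k)))))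
  rw [← h2] at h3
  have h4 : N (∑ k ∈ G, β k • (y (φ (k0 + k)) - ι (μ (φ (k0 + k))))) ^ p ≤
      (c / 2) * ∑ k ∈ G, ‖β k‖ ^ p := by
    refine (hPF.sum_le hp _ _).trans ?_
    rw [Finset.mul_sum]
    refine Finset.sum_le_sum (fun k _ => ?_)
    have h5 := hPF.smul (β k) (y (φ (k0 + k)) - ι (μ (φ (k0 + k))))
    rw [h5, mul_comm]
    exact mul_le_mul_of_nonneg_right ((hμ _).trans (hφk k)) (norm_rpow_nonneg _)
  simp only at h3 ⊢
  linarith

theorem schurS (hp : 0 < p) (hp1 : p < 1) (hσ : 0 < σ) (hσ1 : σ < 1)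
    (hM : ∀ R : ℝ, 0 < R → ∃ E : Finset M, ∀ s : M, ∃ u ∈ E, dist s u ≤ R) (o : M)
    (hF : IsPBanach 𝕜 p F N) (ι : (M →₀ 𝕜) →ₗ[𝕜] F) (hιN : ∀ μ, N (ι μ) ^ p = nnS p σ o μ)
    (hd : ∀ z, ∀ ε > 0, ∃ μ, N (z - ι μ) < ε) : SchurP 𝕜 p F N := by
  intro A hA hbd hsep
  obtain ⟨B, hB⟩ := hbd
  obtain ⟨η, hη, hsep⟩ := hsep
  set e := hA.natEmbedding A with he
  have h1 := transferS hp hp1 hσ hσ1 hM o hF ι hιN hd (y := fun n => (e n : F)) (B := B)
    (fun n => hB _ (e n).2) hη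
    (fun n m hnm => hsep _ (e n).2 _ (e m).2 (fun h => by
      have := e.injective (Subtype.ext h)
      omega))
  obtain ⟨φ, _, h2⟩ := equivLp_of_LPK hp hF (fun n => hB _ (e n).2) h1
  exact ⟨_, fun n => (e (φ n)).2, h2⟩

/-- the free `p`-norm does not vanish on points different from the base point -/
theorem nn_dl_pos (hp : 0 < p) (hp1 : p ≤ 1) (hσ : 0 < σ) (hσ1 : σ ≤ 1) {o x : M} (hx : x ≠ o) :
    0 < nn p (ωf σ) o (dl x) := by
  have hD : 0 < dist x o := dist_pos.mpr hx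
  set R := dist x o / 4 with hR
  have hR0 : 0 < R := by positivity
  have hRσ : 0 < R ^ σ := Real.rpow_pos_of_pos hR0 _
  by_contra hcon
  rw [not_lt] at hcon
  have hc : nn p (ωf σ) o (dl x) < R ^ σ / 4 := lt_of_le_of_lt hcon (by positivity)
  obtain ⟨f, t, h1, h2, h3⟩ := exists_near_forest hp hp1 (ωf_nonneg σ) hc
  obtain ⟨π, hπ1, hπ2⟩ := cut (p := p) f h3 hR0 (δ := 1 / 8) (by norm_num)
  have hne : π o ≠ π x := by
    intro h
    have h4 := hπ1 o
    have h5 := hπ1 x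
    have h6 := dist_triangle x (π x) o
    rw [← h, dist_comm (π o) o] at h6
    rw [← h] at h5
    have h7 : dist x o = 4 * R := by rw [hR]; ring
    linarith
  have hmass := isPF_mass (M := M) hp hp1 {π x}
  have e1 : dl (π x) = ∑ e ∈ f.support, f e • ed (π e.1, π e.2) + t • dl (π o) := by
    have h4 : Finsupp.mapDomain π (dl x) = Finsupp.mapDomain π (bd f) + t • dl (π o) := by
      conv_lhs => rw [h1]
      rw [Finsupp.mapDomain_add, Finsupp.mapDomain_smul, Finsupp.mapDomain_single]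
    rw [mapDomain_bd, Finsupp.mapDomain_single] at h4
    exact h4
  have e2 : mass p {π x} (dl (π x)) = 1 := by
    simp [mass, Real.one_rpow]
  have e3 : mass p {π x} (t • dl (π o)) = 0 := by
    rw [hmass.smul]
    have : mass p {π x} (dl (π o)) = 0 := by
      simp [mass, Finsupp.single_apply, hne, Real.zero_rpow hp.ne']
    rw [this, mul_zero]
  have e4 : (1:ℝ) ≤ ∑ e ∈ f.support, |f e| ^ p * mass p {π x} (ed (π e.1, π e.2)) := by
    have h4 := hmass.add_le (∑ e ∈ f.support, f e • ed (π e.1, π e.2)) (t • dl (π o))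
    rw [← e1, e2, e3, add_zero] at h4
    refine h4.trans ((hmass.sum_le hp _ _).trans (le_of_eq ?_))
    exact Finset.sum_congr rfl (fun e _ => hmass.smul _ _)
  have e5 : ∑ e ∈ f.support, |f e| ^ p * mass p {π x} (ed (π e.1, π e.2)) ≤
      ∑ e ∈ f.support, (if ¬ (dist e.1 e.2 < R ∧ π e.1 = π e.2) then |f e| ^ p * 2 else 0) := by
    refine Finset.sum_le_sum (fun e _ => ?_)
    split_ifs with hcase
    · rw [hcase.2]
      have : ed (π e.2, π e.2) = (0 : M →₀ ℝ) := by rw [ed]; simp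
      rw [this, hmass.zero hp, mul_zero]
    · exact mul_le_mul_of_nonneg_left (mass_ed_le hp hp1 _ _) (abs_rpow_nonneg _)
  rw [← Finset.sum_filter, ← Finset.sum_mul] at e5
  have hw : ∑ e ∈ f.support.filter (fun e => ¬ (dist e.1 e.2 < R ∧ π e.1 = π e.2)), |f e| ^ p
      ≤ (1 / R ^ σ) * cost p (ωf σ) f + 1 / 8 := by
    have h4 : f.support.filter (fun e => ¬ (dist e.1 e.2 < R ∧ π e.1 = π e.2)) ⊆
        f.support.filter (fun e => dist e.1 e.2 < R ∧ π e.1 ≠ π e.2) ∪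
        f.support.filter (fun e => ¬ dist e.1 e.2 < R) := by
      intro e he
      rw [Finset.mem_filter] at he
      rw [Finset.mem_union, Finset.mem_filter, Finset.mem_filter]
      by_cases hd : dist e.1 e.2 < R
      · left; exact ⟨he.1, hd, fun h => he.2 ⟨hd, h⟩⟩
      · right; exact ⟨he.1, hd⟩
    refine (Finset.sum_le_sum_of_subset_of_nonneg h4 (fun _ _ _ => abs_rpow_nonneg _)).trans ?_
    rw [Finset.sum_union (Finset.disjoint_left.mpr (fun e he he' => by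
      rw [Finset.mem_filter] at he he'
      exact he'.2 he.2.1))]
    have h5 : (1 / R) * ∑ e ∈ f.support.filter (fun e => dist e.1 e.2 < R), |f e| ^ p * dist e.1 e.2
        ≤ (1 / R ^ σ) * ∑ e ∈ f.support.filter (fun e => dist e.1 e.2 < R), |f e| ^ p * ωf σ e := by
      rw [Finset.mul_sum, Finset.mul_sum]
      refine Finset.sum_le_sum (fun e he => ?_)
      rw [Finset.mem_filter] at he
      have h6 : (1 / R) * dist e.1 e.2 ≤ (1 / R ^ σ) * ωf σ e := by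
        rw [ωf, one_div_mul_eq_div, one_div_mul_eq_div, ← Real.div_rpow dist_nonneg hR0.le]
        have h8 : dist e.1 e.2 / R ≤ 1 := by rw [div_le_one hR0]; exact he.2.le
        have h9 : 0 ≤ dist e.1 e.2 / R := by positivity
        calc dist e.1 e.2 / R = (dist e.1 e.2 / R) ^ (1:ℝ) := (Real.rpow_one _).symm
          _ ≤ (dist e.1 e.2 / R) ^ σ := Real.rpow_le_rpow_of_exponent_ge' h9 h8 hσ.le hσ1
      calc 1 / R * (|f e| ^ p * dist e.1 e.2) = |f e| ^ p * (1 / R * dist e.1 e.2) := by ring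
        _ ≤ |f e| ^ p * (1 / R ^ σ * ωf σ e) := mul_le_mul_of_nonneg_left h6 (abs_rpow_nonneg _)
        _ = _ := by ring
    have h6 : ∑ e ∈ f.support.filter (fun e => ¬ dist e.1 e.2 < R), |f e| ^ p
        ≤ (1 / R ^ σ) * ∑ e ∈ f.support.filter (fun e => ¬ dist e.1 e.2 < R), |f e| ^ p * ωf σ e := by
      rw [Finset.mul_sum]
      refine Finset.sum_le_sum (fun e he => ?_)
      rw [Finset.mem_filter, not_lt] at he
      have h7 : R ^ σ ≤ ωf σ e := Real.rpow_le_rpow hR0.le he.2 hσ.le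
      have h8 := abs_rpow_nonneg (p := p) (f e)
      rw [one_div_mul_eq_div, le_div_iff₀ hRσ]
      exact mul_le_mul_of_nonneg_left h7 h8
    have h7 : ∑ e ∈ f.support.filter (fun e => dist e.1 e.2 < R), |f e| ^ p * ωf σ e +
        ∑ e ∈ f.support.filter (fun e => ¬ dist e.1 e.2 < R), |f e| ^ p * ωf σ e
        = cost p (ωf σ) f := by
      rw [cost, Finset.sum_filter_add_sum_filter_not]
    rw [← h7, mul_add]
    linarith
  have h9 : (1 / R ^ σ) * cost p (ωf σ) f < 1 / 4 := by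
    rw [one_div_mul_eq_div, div_lt_iff₀ hRσ]
    linarith
  linarith

/-- a map on `[0,1]` that is Hölder with exponent larger than one is constant -/
theorem const_of_holder {g : Set.Icc (0:ℝ) 1 → 𝕜} {C β : ℝ} (hβ : 1 < β)
    (hg : ∀ s t, ‖g s - g t‖ ≤ C * dist s t ^ β) (x y : Set.Icc (0:ℝ) 1) : g x = g y := by
  have key : ∀ x : Set.Icc (0:ℝ) 1, g x = g ⟨0, by simp⟩ := by
    intro x
    set h : ℝ → 𝕜 := fun t => g (Set.projIcc 0 1 zero_le_one t) with hh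
    have hC : 0 ≤ C := by
      have h1 := hg ⟨0, by simp⟩ ⟨1, by simp⟩
      have h2 : dist (⟨0, by simp⟩ : Set.Icc (0:ℝ) 1) ⟨1, by simp⟩ = 1 := by
        rw [Subtype.dist_eq]; simp
      rw [h2, Real.one_rpow, mul_one] at h1
      exact (norm_nonneg _).trans h1
    have h1 : ∀ s t : ℝ, ‖h s - h t‖ ≤ C * |s - t| ^ β := by
      intro s t
      refine (hg _ _).trans (mul_le_mul_of_nonneg_left ?_ hC)
      refine Real.rpow_le_rpow dist_nonneg ?_ (by linarith)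
      have h2 := (LipschitzWith.projIcc (zero_le_one (α := ℝ))).dist_le_mul s t
      rwa [NNReal.coe_one, one_mul, Real.dist_eq] at h2
    have h2 : ∀ n : ℕ, 0 < n → ‖h x - h 0‖ ≤ C * (n:ℝ) ^ (1 - β) := by
      intro n hn
      have hn0 : (0:ℝ) < n := by exact_mod_cast hn
      have h3 : h x - h 0 = ∑ k ∈ Finset.range n, (h ((k + 1 : ℕ) * (x / n)) - h ((k : ℕ) * (x / n))) := by
        rw [Finset.sum_range_sub (fun k : ℕ => h (k * (x / n)))]
        simp only [Nat.cast_zero, zero_mul]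
        congr 2
        field_simp
      rw [h3]
      refine (norm_sum_le _ _).trans ?_
      have h4 : ∀ k ∈ Finset.range n, ‖h ((k + 1 : ℕ) * (x / n)) - h ((k : ℕ) * (x / n))‖ ≤
          C * (1 / (n:ℝ)) ^ β := by
        intro k _
        refine (h1 _ _).trans (mul_le_mul_of_nonneg_left ?_ hC)
        refine Real.rpow_le_rpow (abs_nonneg _) ?_ (by linarith)
        have h5 : ((k + 1 : ℕ) : ℝ) * (x / n) - (k : ℕ) * (x / n) = x / n := by push_cast; ring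
        rw [h5, abs_of_nonneg (div_nonneg x.2.1 hn0.le)]
        exact div_le_div_of_nonneg_right x.2.2 hn0.le
      refine (Finset.sum_le_card_nsmul _ _ _ h4).trans (le_of_eq ?_)
      rw [Finset.card_range, nsmul_eq_mul, one_div, Real.inv_rpow hn0.le, Real.rpow_sub hn0,
        Real.rpow_one]
      field_simp
    have h3 : Filter.Tendsto (fun n : ℕ => C * (n:ℝ) ^ (1 - β)) Filter.atTop (nhds 0) := by
      have h4 : Filter.Tendsto (fun n : ℕ => (n:ℝ) ^ (1 - β)) Filter.atTop (nhds 0) := by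
        have h5 := (tendsto_rpow_neg_atTop (show 0 < β - 1 by linarith)).comp
          tendsto_natCast_atTop_atTop
        refine h5.congr (fun n => ?_)
        simp only [Function.comp]
        congr 1; ring
      simpa using h4.const_mul C
    have h4 : ‖h x - h 0‖ ≤ 0 :=
      ge_of_tendsto h3 (Filter.eventually_atTop.mpr ⟨1, fun n hn => h2 n hn⟩)
    have h5 : h x = h 0 := by
      rw [← sub_eq_zero]; exact norm_le_zero_iff.mp h4
    simp only [hh] at h5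
    rw [Set.projIcc_val] at h5
    rw [h5, Set.projIcc_left]
  rw [key x, key y]

/-- the dual is trivial -/
theorem dual_trivial (hp : 0 < p) (hpσ : p < σ) (o : Set.Icc (0:ℝ) 1)
    (hF : IsPBanach 𝕜 p F N) (ι : (Set.Icc (0:ℝ) 1 →₀ 𝕜) →ₗ[𝕜] F)
    (hιN : ∀ μ, N (ι μ) ^ p = nnS p σ o μ)
    (hd : ∀ z, ∀ ε > 0, ∃ μ, N (z - ι μ) < ε) (φ : F →ₗ[𝕜] 𝕜)
    (hφ : ∃ C : ℝ, ∀ x, ‖φ x‖ ≤ C * N x) : φ = 0 := by
  obtain ⟨C0, hC0⟩ := hφ
  set C := max C0 0 with hC
  have hC1 : 0 ≤ C := le_max_right _ _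
  have hφC : ∀ x, ‖φ x‖ ≤ C * N x := fun x =>
    (hC0 x).trans (mul_le_mul_of_nonneg_right (le_max_left _ _) (hF.nonneg x))
  have hbase : φ (ι (dlK 𝕜 o)) = 0 := by
    have h1 := hιN (dlK 𝕜 o)
    rw [nnS_base, Real.rpow_eq_zero (hF.nonneg _) hp.ne'] at h1
    have h2 := hφC (ι (dlK 𝕜 o))
    rw [h1, mul_zero] at h2
    exact norm_le_zero_iff.mp h2
  have hhol : ∀ s t : Set.Icc (0:ℝ) 1, ‖φ (ι (dlK 𝕜 s)) - φ (ι (dlK 𝕜 t))‖ ≤ C * dist s t ^ (σ / p) := by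
    intro s t
    rw [← map_sub, ← map_sub]
    refine (hφC _).trans (mul_le_mul_of_nonneg_left ?_ hC1)
    have h1 := nnS_edK_le (𝕜 := 𝕜) (σ := σ) hp o (s, t)
    rw [edK, ← hιN] at h1
    have h2 := Real.rpow_le_rpow (Real.rpow_nonneg (hF.nonneg _) _) h1 (by positivity : (0:ℝ) ≤ 1 / p)
    rw [rpow_inv_rpow' hp (hF.nonneg _), ωf, ← Real.rpow_mul dist_nonneg] at h2
    have h3 : σ * (1 / p) = σ / p := by ring
    rw [h3] at h2
    exact h2
  have hzero : ∀ s, φ (ι (dlK 𝕜 s)) = 0 := by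
    intro s
    have h1 := const_of_holder (g := fun s => φ (ι (dlK 𝕜 s))) (by rw [lt_div_iff₀ hp]; linarith) hhol s o
    exact h1.trans hbase
  have hcomp : φ.comp ι = 0 := by
    apply Finsupp.lhom_ext'
    intro s
    ext
    simp only [LinearMap.comp_apply, Finsupp.lsingle_apply, LinearMap.zero_apply]
    exact hzero s
  ext z
  rw [LinearMap.zero_apply, ← norm_le_zero_iff]
  refine le_of_forall_pos_lt_add (fun ε hε => ?_)
  obtain ⟨μ, hμ⟩ := hd z (ε / (C + 1)) (by positivity)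
  have h1 : φ z = φ (z - ι μ) := by
    rw [map_sub]
    have : φ (ι μ) = 0 := LinearMap.congr_fun hcomp μ
    rw [this, sub_zero]
  rw [h1, zero_add]
  refine lt_of_le_of_lt (hφC _) ?_
  have h2 : C * N (z - ι μ) ≤ C * (ε / (C + 1)) := mul_le_mul_of_nonneg_left hμ.le hC1
  refine lt_of_le_of_lt h2 ?_
  rw [mul_div_assoc', div_lt_iff₀ (by linarith)]
  nlinarith

/-- the space -/
theorem exists_schur_trivial_dual (𝕜 : Type) [RCLike 𝕜] {p : ℝ} (hp : 0 < p) (hp1 : p < 1) :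
    ∃ (X : Type) (_ : AddCommGroup X) (_ : Module 𝕜 X) (N : X → ℝ),
      IsPBanach 𝕜 p X N ∧ Nontrivial X ∧ SchurP 𝕜 p X N ∧
      ∀ φ : X →ₗ[𝕜] 𝕜, (∃ C : ℝ, ∀ x, ‖φ x‖ ≤ C * N x) → φ = 0 := by
  set σ : ℝ := (1 + p) / 2 with hσdef
  have hσ : 0 < σ := by rw [hσdef]; linarith
  have hσ1 : σ < 1 := by rw [hσdef]; linarith
  have hpσ : p < σ := by rw [hσdef]; linarith
  set o : Set.Icc (0:ℝ) 1 := ⟨0, by simp⟩ with ho
  set x1 : Set.Icc (0:ℝ) 1 := ⟨1, by simp⟩ with hx1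
  have hne : x1 ≠ o := by
    intro h
    have := congrArg Subtype.val h
    simp [hx1, ho] at this
  obtain ⟨G, _, _, NG, j, hG, hj, hd, _⟩ :=
    exists_completion hp (isPFK_nnS (𝕜 := 𝕜) (σ := σ) hp hp1.le o)
  have hM : ∀ R : ℝ, 0 < R → ∃ E : Finset (Set.Icc (0:ℝ) 1), ∀ s, ∃ u ∈ E, dist s u ≤ R := by
    intro R hR
    obtain ⟨t, _, ht, h⟩ := finite_cover_balls_of_compact (isCompact_univ (X := Set.Icc (0:ℝ) 1)) hR
    refine ⟨ht.toFinset, fun s => ?_⟩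
    have h1 := h (Set.mem_univ s)
    rw [Set.mem_iUnion₂] at h1
    obtain ⟨u, hu, h2⟩ := h1
    exact ⟨u, ht.mem_toFinset.mpr hu, (Metric.mem_ball.mp h2).le⟩
  refine ⟨G, inferInstance, inferInstance, NG, hG, ?_, ?_, ?_⟩
  · refine ⟨⟨j (dlK 𝕜 x1), 0, fun h => ?_⟩⟩
    have h1 := hj (dlK 𝕜 x1)
    rw [h, (hG.eq_zero_iff 0).mpr rfl, Real.zero_rpow hp.ne'] at h1
    have h2 := nn_reF_leS (𝕜 := 𝕜) (σ := σ) hp hp1.le o (dlK 𝕜 x1)
    rw [← h1, reF_dlK] at h2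
    exact absurd (nn_dl_pos hp hp1.le hσ hσ1.le hne) (not_lt.mpr h2)
  · exact schurS hp hp1 hσ hσ1 hM o hG j hj hd
  · exact fun φ hφ => dual_trivial hp hpσ o hG j hj hd φ hφ

end

end Pool.Agent.Q106.PS
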